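import Pool.Agent.H98.PR.Defs

/-!
# [H98 PR PAR] Elementary facts about the parameters

PROOF. `bh`: `2^(logb 2 y) = y`; `3b >= logb 2 (C1 X)` and `b <= logb 2 (C1 X)/3 + 1` (`Nat.ceil_lt_add_one`, `C1 X >= 1`). `vv`: `min_le_left`, `min_le_right`,
`Real.sq_sqrt`, `(X^(1/3))^3 = X`. `vv_ge`: `X >= M^(1+δ)`: `(X M^(1-δ/2))^(1/2) >= M^(1+δ/4)`, `X^(1/3) M^(1-δ/8) >= M^(4/3 - δ/8 + δ/3) >= M`. `vv_scale`: if
`M^δ max((X/M)^(1/2), X^(2/3)/M) <= H` then `X/H <= M^(-δ) min((XM)^(1/2), X^(1/3) M)` and `vv >= M^(-δ/4) min((XM)^(1/2), X^(1/3) M)`.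
-/

namespace Pool.Agent.H98.PR

open Finset

theorem cc_pos (k0 r : ℕ) : (1 : ℝ) ≤ cc k0 r := by
  unfold cc
  exact_mod_cast Nat.one_le_two_pow

theorem bh_ge (k0 r : ℕ) (X : ℝ) (hX : 1 ≤ X) : (cc k0 r : ℝ) * X ≤ (2 : ℝ) ^ (3 * bh k0 r X) := by
  have h1 := cc_pos k0 r
  have h2 : 0 < (cc k0 r : ℝ) * X := by positivity
  have h3 : Real.logb 2 ((cc k0 r : ℝ) * X) / 3 ≤ bh k0 r X := Nat.le_ceil _
  calc (cc k0 r : ℝ) * X = (2 : ℝ) ^ (Real.logb 2 ((cc k0 r : ℝ) * X)) :=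
        (Real.rpow_logb (by norm_num) (by norm_num) h2).symm
    _ ≤ (2 : ℝ) ^ ((3 * bh k0 r X : ℕ) : ℝ) := by
        apply Real.rpow_le_rpow_of_exponent_le (by norm_num)
        push_cast
        linarith
    _ = _ := Real.rpow_natCast _ _

theorem bh_le (k0 r : ℕ) (X : ℝ) (hX : 1 ≤ X) :
    (2 : ℝ) ^ (3 * bh k0 r X) ≤ 8 * ((cc k0 r : ℝ) * X) := by
  have h1 := cc_pos k0 r
  have h2 : 1 ≤ (cc k0 r : ℝ) * X := by nlinarith
  have h3 : (bh k0 r X : ℝ) < Real.logb 2 ((cc k0 r : ℝ) * X) / 3 + 1 :=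
    Nat.ceil_lt_add_one (div_nonneg (Real.logb_nonneg (by norm_num) h2) (by norm_num))
  calc (2 : ℝ) ^ (3 * bh k0 r X) = (2 : ℝ) ^ ((3 * bh k0 r X : ℕ) : ℝ) := (Real.rpow_natCast _ _).symm
    _ ≤ (2 : ℝ) ^ (Real.logb 2 ((cc k0 r : ℝ) * X) + 3) := by
        apply Real.rpow_le_rpow_of_exponent_le (by norm_num)
        push_cast
        linarith
    _ = 8 * ((cc k0 r : ℝ) * X) := by
        rw [Real.rpow_add (by norm_num), Real.rpow_logb (by norm_num) (by norm_num) (by linarith)]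
        norm_num
        ring

variable {κ δ : ℝ} {k0 A M : ℕ} {X : ℝ}

theorem Px.X1 (h : Px κ δ k0 A M X) (hM : 1 ≤ M) (hδ : 0 ≤ δ) : 1 ≤ X := by
  have hm1 : (1 : ℝ) ≤ M := by exact_mod_cast hM
  exact (Real.one_le_rpow hm1 (by linarith)).trans h.x1

theorem vv_sq (hX : 0 ≤ X) (_hM : 1 ≤ M) : (vv δ M X) ^ 2 ≤ X * (M : ℝ) ^ (1 - δ / 2) := by
  have h0 : 0 ≤ vv δ M X := le_min (Real.sqrt_nonneg _) (by positivity)
  calc (vv δ M X) ^ 2 ≤ (Real.sqrt (X * (M : ℝ) ^ (1 - δ / 2))) ^ 2 :=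
        pow_le_pow_left₀ h0 (min_le_left _ _) 2
    _ = _ := Real.sq_sqrt (by positivity)

theorem vv_cube (hX : 0 ≤ X) (hM : 1 ≤ M) : (vv δ M X) ^ 3 ≤ X * (M : ℝ) ^ (3 - 3 * δ / 8) := by
  have hm1 : (1 : ℝ) ≤ M := by exact_mod_cast hM
  have hm0 : (0 : ℝ) < M := by linarith
  have h0 : 0 ≤ vv δ M X := le_min (Real.sqrt_nonneg _) (by positivity)
  calc (vv δ M X) ^ 3 ≤ (X ^ ((1 : ℝ) / 3) * (M : ℝ) ^ (1 - δ / 8)) ^ 3 :=
        pow_le_pow_left₀ h0 (min_le_right _ _) 3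
    _ = _ := by
        rw [mul_pow, ← Real.rpow_natCast (X ^ ((1 : ℝ) / 3)), ← Real.rpow_mul hX,
          ← Real.rpow_natCast ((M : ℝ) ^ (1 - δ / 8)), ← Real.rpow_mul hm0.le]
        norm_num
        left
        congr 1
        ring

theorem vv_ge (h : Px κ δ k0 A M X) (hM : 1 ≤ M) (hδ : 0 < δ) (_hδ1 : δ ≤ 1) : (M : ℝ) ≤ vv δ M X := by
  have hm1 : (1 : ℝ) ≤ M := by exact_mod_cast hM
  have hm0 : (0 : ℝ) < M := by linarith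
  have hX0 : 0 ≤ X := by
    have := h.X1 hM hδ.le
    linarith
  apply le_min
  · apply Real.le_sqrt_of_sq_le
    calc (M : ℝ) ^ 2 = (M : ℝ) ^ (2 : ℝ) := (Real.rpow_two _).symm
      _ ≤ (M : ℝ) ^ ((1 + δ) + (1 - δ / 2)) := Real.rpow_le_rpow_of_exponent_le hm1 (by linarith)
      _ = (M : ℝ) ^ (1 + δ) * (M : ℝ) ^ (1 - δ / 2) := Real.rpow_add hm0 _ _
      _ ≤ X * (M : ℝ) ^ (1 - δ / 2) := mul_le_mul_of_nonneg_right h.x1 (by positivity)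
  · have h1 : ((M : ℝ) ^ (1 + δ)) ^ ((1 : ℝ) / 3) ≤ X ^ ((1 : ℝ) / 3) :=
      Real.rpow_le_rpow (by positivity) h.x1 (by norm_num)
    rw [← Real.rpow_mul hm0.le] at h1
    calc (M : ℝ) = (M : ℝ) ^ (1 : ℝ) := (Real.rpow_one _).symm
      _ ≤ (M : ℝ) ^ ((1 + δ) * (1 / 3) + (1 - δ / 8)) :=
          Real.rpow_le_rpow_of_exponent_le hm1 (by linarith)
      _ = (M : ℝ) ^ ((1 + δ) * (1 / 3)) * (M : ℝ) ^ (1 - δ / 8) := Real.rpow_add hm0 _ _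
      _ ≤ X ^ ((1 : ℝ) / 3) * (M : ℝ) ^ (1 - δ / 8) := mul_le_mul_of_nonneg_right h1 (by positivity)

/-- the smooth factors beyond `hi` are longer than `V` -/
theorem vv_hi (h : Px κ δ k0 A M X) (hM : 1 ≤ M) (hδ : 0 < δ) (hδ1 : δ ≤ 1) :
    vv δ M X * (M : ℝ) ^ (3 * δ / 8) ≤ X * (M : ℝ) ^ (1 - δ / 8) / vv δ M X := by
  have hm1 : (1 : ℝ) ≤ M := by exact_mod_cast hM
  have hm0 : (0 : ℝ) < M := by linarith
  have hX0 : 0 ≤ X := by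
    have := h.X1 hM hδ.le
    linarith
  have hv0 : 0 < vv δ M X := lt_of_lt_of_le hm0 (vv_ge h hM hδ hδ1)
  rw [le_div_iff₀ hv0]
  calc vv δ M X * (M : ℝ) ^ (3 * δ / 8) * vv δ M X = (vv δ M X) ^ 2 * (M : ℝ) ^ (3 * δ / 8) := by ring
    _ ≤ (X * (M : ℝ) ^ (1 - δ / 2)) * (M : ℝ) ^ (3 * δ / 8) :=
        mul_le_mul_of_nonneg_right (vv_sq hX0 hM) (by positivity)
    _ = X * (M : ℝ) ^ (1 - δ / 8) := by
        rw [mul_assoc, ← Real.rpow_add hm0]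
        congr 2
        ring

theorem vv_lohi (h : Px κ δ k0 A M X) (hM : 1 ≤ M) (hδ : 0 < δ) (hδ1 : δ ≤ 1) :
    (vv δ M X * (M : ℝ) ^ (-1 + δ / 8)) * (vv δ M X * (M : ℝ) ^ (-1 + δ / 8)) ≤
      X * (M : ℝ) ^ (1 - δ / 8) / vv δ M X := by
  have hm1 : (1 : ℝ) ≤ M := by exact_mod_cast hM
  have hm0 : (0 : ℝ) < M := by linarith
  have hX0 : 0 ≤ X := by
    have := h.X1 hM hδ.le
    linarith
  have hv0 : 0 < vv δ M X := lt_of_lt_of_le hm0 (vv_ge h hM hδ hδ1)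
  rw [le_div_iff₀ hv0]
  calc _ = (vv δ M X) ^ 3 * ((M : ℝ) ^ (-1 + δ / 8) * (M : ℝ) ^ (-1 + δ / 8)) := by ring
    _ ≤ (X * (M : ℝ) ^ (3 - 3 * δ / 8)) * ((M : ℝ) ^ (-1 + δ / 8) * (M : ℝ) ^ (-1 + δ / 8)) :=
        mul_le_mul_of_nonneg_right (vv_cube hX0 hM) (by positivity)
    _ = X * (M : ℝ) ^ (1 - δ / 8) := by
        rw [mul_assoc, ← Real.rpow_add hm0, ← Real.rpow_add hm0]
        congr 2
        ring

theorem vv_lo (h : Px κ δ k0 A M X) (hM : 1 ≤ M) (hδ : 0 < δ) (hδ1 : δ ≤ 1) :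
    1 ≤ vv δ M X * (M : ℝ) ^ (-1 + δ / 8) := by
  have hm1 : (1 : ℝ) ≤ M := by exact_mod_cast hM
  have hm0 : (0 : ℝ) < M := by linarith
  calc (1 : ℝ) ≤ (M : ℝ) ^ (1 + (-1 + δ / 8)) := Real.one_le_rpow hm1 (by linarith)
    _ = (M : ℝ) * (M : ℝ) ^ (-1 + δ / 8) := by rw [Real.rpow_add hm0, Real.rpow_one]
    _ ≤ _ := mul_le_mul_of_nonneg_right (vv_ge h hM hδ hδ1) (by positivity)

theorem Px.D1 (h : Px κ δ k0 A M X) (hM : 2 ≤ M) (hδ : 0 ≤ δ) : 1 ≤ A := by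
  by_contra hc
  have hA : A = 0 := by omega
  have h1 := h.x2
  rw [hA, pow_zero] at h1
  have h2 : (2 : ℝ) ≤ M := by exact_mod_cast hM
  have h3 : (M : ℝ) ^ (1 : ℝ) ≤ (M : ℝ) ^ (1 + δ) :=
    Real.rpow_le_rpow_of_exponent_le (by linarith) (by linarith)
  rw [Real.rpow_one] at h3
  have := h.x1
  linarith

theorem vv_D (h : Px κ δ k0 A M X) (hM : 2 ≤ M) (hδ : 0 ≤ δ) : vv δ M X ≤ (M : ℝ) ^ A := by
  have hm1 : (1 : ℝ) ≤ M := by exact_mod_cast (by omega : 1 ≤ M)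
  have hm0 : (0 : ℝ) < M := by linarith
  have hX1 : 1 ≤ X := h.X1 (by omega) hδ
  have h0 : 0 ≤ vv δ M X := le_min (Real.sqrt_nonneg _) (by positivity)
  have h1 := h.D1 hM hδ
  have h2 : (M : ℝ) ^ (1 - δ / 2) ≤ M := by
    conv_rhs => rw [← Real.rpow_one (M : ℝ)]
    exact Real.rpow_le_rpow_of_exponent_le hm1 (by linarith)
  have h3 : (vv δ M X) ^ 2 ≤ ((M : ℝ) ^ A) ^ 2 := by
    calc (vv δ M X) ^ 2 ≤ X * (M : ℝ) ^ (1 - δ / 2) := vv_sq (by linarith) (by omega)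
      _ ≤ (M : ℝ) ^ A * M := mul_le_mul h.x2 h2 (by positivity) (by positivity)
      _ ≤ (M : ℝ) ^ A * (M : ℝ) ^ A := by
          refine mul_le_mul_of_nonneg_left ?_ (by positivity)
          calc (M : ℝ) = (M : ℝ) ^ 1 := (pow_one _).symm
            _ ≤ _ := pow_le_pow_right₀ hm1 h1
      _ = _ := by ring
  exact le_of_sq_le_sq h3 (by positivity)

/-- `lo^3 <= X` -/
theorem vv_lo3 (_hX : 0 ≤ X) (hM : 1 ≤ M) :
    vv δ M X * (M : ℝ) ^ (-1 + δ / 8) ≤ X ^ ((1 : ℝ) / 3) := by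
  have hm1 : (1 : ℝ) ≤ M := by exact_mod_cast hM
  have hm0 : (0 : ℝ) < M := by linarith
  calc vv δ M X * (M : ℝ) ^ (-1 + δ / 8) ≤
        (X ^ ((1 : ℝ) / 3) * (M : ℝ) ^ (1 - δ / 8)) * (M : ℝ) ^ (-1 + δ / 8) :=
        mul_le_mul_of_nonneg_right (min_le_right _ _) (by positivity)
    _ = X ^ ((1 : ℝ) / 3) * ((M : ℝ) ^ (1 - δ / 8) * (M : ℝ) ^ (-1 + δ / 8)) := by ring
    _ = X ^ ((1 : ℝ) / 3) := by
        rw [← Real.rpow_add hm0]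
        have : 1 - δ / 8 + (-1 + δ / 8) = 0 := by ring
        rw [this, Real.rpow_zero, mul_one]

/-- `hi >= X^(2/3)` -/
theorem vv_hi3 (hX : 0 < X) (hM : 1 ≤ M) (hV : 0 < vv δ M X) :
    X ^ ((2 : ℝ) / 3) ≤ X * (M : ℝ) ^ (1 - δ / 8) / vv δ M X := by
  have hm1 : (1 : ℝ) ≤ M := by exact_mod_cast hM
  have hm0 : (0 : ℝ) < M := by linarith
  rw [le_div_iff₀ hV]
  calc X ^ ((2 : ℝ) / 3) * vv δ M X ≤ X ^ ((2 : ℝ) / 3) * (X ^ ((1 : ℝ) / 3) * (M : ℝ) ^ (1 - δ / 8)) :=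
        mul_le_mul_of_nonneg_left (min_le_right _ _) (by positivity)
    _ = X * (M : ℝ) ^ (1 - δ / 8) := by
        rw [← mul_assoc, ← Real.rpow_add hX]
        norm_num

/-- the scale `X/H` is admissible -/
theorem vv_scale (h : Px κ δ k0 A M X) (hM : 1 ≤ M) (hδ : 0 < δ) (H : ℝ)
    (hH : (M : ℝ) ^ δ * max (Real.sqrt (X / M)) (X ^ ((2 : ℝ) / 3) / M) ≤ H) :
    X * (M : ℝ) ^ (3 * δ / 4) / H ≤ vv δ M X := by
  have hm1 : (1 : ℝ) ≤ M := by exact_mod_cast hM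
  have hm0 : (0 : ℝ) < M := by linarith
  have hX1 : 1 ≤ X := h.X1 hM hδ.le
  have hX0 : 0 < X := by linarith
  have h1 : (M : ℝ) ^ δ * Real.sqrt (X / M) ≤ H :=
    (mul_le_mul_of_nonneg_left (le_max_left _ _) (by positivity)).trans hH
  have h2 : (M : ℝ) ^ δ * (X ^ ((2 : ℝ) / 3) / M) ≤ H :=
    (mul_le_mul_of_nonneg_left (le_max_right _ _) (by positivity)).trans hH
  have hH0 : 0 < H := lt_of_lt_of_le (by positivity) h2
  apply le_min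
  · rw [div_le_iff₀ hH0]
    have e1 : Real.sqrt (X * (M : ℝ) ^ (1 - δ / 2)) * ((M : ℝ) ^ δ * Real.sqrt (X / M)) =
        X * (M : ℝ) ^ (3 * δ / 4) := by
      have e2 : Real.sqrt (X * (M : ℝ) ^ (1 - δ / 2)) * Real.sqrt (X / M) =
          Real.sqrt ((X * (M : ℝ) ^ (-(δ / 4))) ^ 2) := by
        rw [← Real.sqrt_mul (by positivity)]
        congr 1
        have e3 : ((M : ℝ) ^ (-(δ / 4))) ^ 2 = (M : ℝ) ^ (-(δ / 2)) := by
          rw [← Real.rpow_natCast, ← Real.rpow_mul hm0.le]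
          congr 1
          push_cast
          ring
        have e4 : (M : ℝ) ^ (1 - δ / 2) = (M : ℝ) * (M : ℝ) ^ (-(δ / 2)) := by
          rw [sub_eq_add_neg, Real.rpow_add hm0, Real.rpow_one]
        rw [mul_pow, e3, e4]
        field_simp
      rw [Real.sqrt_sq (by positivity)] at e2
      calc _ = (Real.sqrt (X * (M : ℝ) ^ (1 - δ / 2)) * Real.sqrt (X / M)) * (M : ℝ) ^ δ := by ring
        _ = X * ((M : ℝ) ^ (-(δ / 4)) * (M : ℝ) ^ δ) := by rw [e2]; ring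
        _ = _ := by
            rw [← Real.rpow_add hm0]
            congr 2
            ring
    rw [← e1]
    exact mul_le_mul_of_nonneg_left h1 (Real.sqrt_nonneg _)
  · rw [div_le_iff₀ hH0]
    have e1 : X = X ^ ((1 : ℝ) / 3) * X ^ ((2 : ℝ) / 3) := by
      rw [← Real.rpow_add hX0]
      norm_num
    calc X * (M : ℝ) ^ (3 * δ / 4) = X ^ ((1 : ℝ) / 3) * X ^ ((2 : ℝ) / 3) * (M : ℝ) ^ (3 * δ / 4) := by
          rw [← e1]
      _ ≤ X ^ ((1 : ℝ) / 3) * X ^ ((2 : ℝ) / 3) * ((M : ℝ) ^ (1 - δ / 8) * (M : ℝ) ^ δ * (M : ℝ) ^ (-1 : ℝ)) := by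
          refine mul_le_mul_of_nonneg_left ?_ (by positivity)
          rw [← Real.rpow_add hm0, ← Real.rpow_add hm0]
          exact Real.rpow_le_rpow_of_exponent_le hm1 (by linarith)
      _ = X ^ ((1 : ℝ) / 3) * (M : ℝ) ^ (1 - δ / 8) * ((M : ℝ) ^ δ * (X ^ ((2 : ℝ) / 3) / M)) := by
          rw [Real.rpow_neg_one]
          ring
      _ ≤ _ := mul_le_mul_of_nonneg_left h2 (by positivity)

end Pool.Agent.H98.PR
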