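import Pool.Agent.H98.PR.Wn
import Pool.Agent.H98.PR.Par

/-!
# [H98 PR PP] From `Λ` to primes

PROOF. All `n` of the sum are `<= X + H <= 2X <= M^(A+1)`. Primes: `Λ(p) = log p <= (A+1) log M`. Not primes: if `n` lies in the windows of `m1 < m2`
(`M <= D m1`), then `λ (m2^κ - m1^κ) < H`, `m2^κ - m1^κ >= κ m1^κ (m2-m1)/M` and `λ m1^κ >= X D^(-k0)`, so each `n` occurs at most
`1 + D^k0 κ^(-1) H M/X` times; `Σ_{n<=2X, not prime} Λ(n) <= C (2X)^(1/2)`, together `<= (c/2) H M` as `H M >= (X M)^(1/2)` and `X >= M` is large.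
-/

namespace Pool.Agent.H98.PR

open Finset

/-- number of windows containing `n` -/
private lemma win_cnt (κ X H : ℝ) (k0 D M n : ℕ) (hκ : 0 < κ) (hk : κ ≤ k0) (hX : 0 < X)
    (hH : 0 ≤ H) (hD : 1 ≤ D) (hM : 1 ≤ M) :
    ((((Icc 1 M).filter (fun m => M ≤ D * m)).filter
      fun m => n ∈ wn κ (X / (M : ℝ) ^ κ) H m).card : ℝ) ≤
      1 + (D : ℝ) ^ k0 / κ * (H * M / X) := by
  set R := ((Icc 1 M).filter (fun m => M ≤ D * m)).filter
      fun m => n ∈ wn κ (X / (M : ℝ) ^ κ) H m with hR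
  have hM0 : (0 : ℝ) < M := by exact_mod_cast hM
  have hD1 : (1 : ℝ) ≤ D := by exact_mod_cast hD
  have hD0 : (0 : ℝ) < D := by linarith
  have hMk : 0 < (M : ℝ) ^ κ := Real.rpow_pos_of_pos hM0 _
  rcases R.eq_empty_or_nonempty with h | h
  · rw [h]
    simp only [card_empty, Nat.cast_zero]
    positivity
  set a := R.min' h with ha
  set b := R.max' h with hb
  have hab : a ≤ b := Finset.min'_le_max' R h
  have hsub : R ⊆ Icc a b := fun m hm =>
    mem_Icc.2 ⟨Finset.min'_le R m hm, Finset.le_max' R m hm⟩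
  have hcard : R.card ≤ b - a + 1 := by
    refine (card_le_card hsub).trans ?_
    rw [Nat.card_Icc]
    omega
  have ha' := mem_filter.1 (Finset.min'_mem R h)
  have hb' := mem_filter.1 (Finset.max'_mem R h)
  rw [← ha] at ha'
  rw [← hb] at hb'
  rw [mem_filter, mem_Icc, mem_wn (by positivity) hH] at ha' hb'
  obtain ⟨⟨⟨ha1, ha2⟩, ha3⟩, ha4, ha5⟩ := ha'
  obtain ⟨⟨⟨hb1, hb2⟩, hb3⟩, hb4, hb5⟩ := hb'
  have ha0 : (0 : ℝ) < a := by exact_mod_cast ha1
  have hb0 : (0 : ℝ) < b := by exact_mod_cast hb1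
  have habR : (a : ℝ) ≤ b := by exact_mod_cast hab
  have hbM : (b : ℝ) ≤ M := by exact_mod_cast hb2
  have hak : 0 < (a : ℝ) ^ κ := Real.rpow_pos_of_pos ha0 _
  have h1 : X / (M : ℝ) ^ κ * ((b : ℝ) ^ κ - (a : ℝ) ^ κ) ≤ H := by
    rw [mul_sub]
    linarith
  have h2 : (a : ℝ) ^ κ * (κ * (((b : ℝ) - a) / M)) ≤ (b : ℝ) ^ κ - (a : ℝ) ^ κ := by
    have e1 : (b : ℝ) ^ κ = (a : ℝ) ^ κ * Real.exp (κ * Real.log (b / a)) := by
      rw [mul_comm κ, ← Real.rpow_def_of_pos (by positivity),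
        ← Real.mul_rpow ha0.le (by positivity)]
      congr 1
      field_simp
    have e2 := Real.add_one_le_exp (κ * Real.log (b / a))
    have e3 : ((b : ℝ) - a) / M ≤ Real.log (b / a) := by
      have h3 := Real.one_sub_inv_le_log_of_pos (show 0 < (b : ℝ) / a by positivity)
      rw [inv_div] at h3
      refine le_trans ?_ h3
      have h4 : 1 - (a : ℝ) / b = ((b : ℝ) - a) / b := by field_simp
      rw [h4]
      gcongr
    have e4 : κ * (((b : ℝ) - a) / M) ≤ Real.exp (κ * Real.log (b / a)) - 1 := by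
      have := mul_le_mul_of_nonneg_left e3 hκ.le
      linarith
    rw [e1]
    have := mul_le_mul_of_nonneg_left e4 hak.le
    linarith
  have h3 : (M : ℝ) ^ κ ≤ (D : ℝ) ^ k0 * (a : ℝ) ^ κ := by
    have h4 : (M : ℝ) ≤ D * a := by exact_mod_cast ha3
    calc (M : ℝ) ^ κ ≤ ((D : ℝ) * a) ^ κ := Real.rpow_le_rpow hM0.le h4 hκ.le
      _ = (D : ℝ) ^ κ * (a : ℝ) ^ κ := by
          rw [Real.mul_rpow hD0.le ha0.le]
      _ ≤ (D : ℝ) ^ (k0 : ℝ) * (a : ℝ) ^ κ := by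
          gcongr
      _ = _ := by rw [Real.rpow_natCast]
  have h5 : (b : ℝ) - a ≤ (D : ℝ) ^ k0 / κ * (H * M / X) := by
    have hba : 0 ≤ (b : ℝ) - a := by linarith
    have h6 : X * ((b : ℝ) ^ κ - (a : ℝ) ^ κ) ≤ H * (M : ℝ) ^ κ := by
      rw [div_mul_eq_mul_div, div_le_iff₀ hMk] at h1
      exact h1
    have h7 : X * ((a : ℝ) ^ κ * (κ * (((b : ℝ) - a) / M))) ≤
        H * ((D : ℝ) ^ k0 * (a : ℝ) ^ κ) :=
      (mul_le_mul_of_nonneg_left h2 hX.le).trans (h6.trans (mul_le_mul_of_nonneg_left h3 hH))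
    have h8 : X * (κ * (((b : ℝ) - a) / M)) ≤ H * (D : ℝ) ^ k0 := by
      by_contra hcon
      push Not at hcon
      have := mul_lt_mul_of_pos_right hcon hak
      linarith
    have h10 : (D : ℝ) ^ k0 / κ * (H * M / X) = (H * (D : ℝ) ^ k0) * M / (κ * X) := by
      field_simp
    rw [h10, le_div_iff₀ (by positivity)]
    have h11 : ((b : ℝ) - a) * (κ * X) = (X * (κ * (((b : ℝ) - a) / M))) * M := by
      field_simp
    rw [h11]
    exact mul_le_mul_of_nonneg_right h8 hM0.le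
  have h6 : ((R.card : ℕ) : ℝ) ≤ (b : ℝ) - a + 1 := by
    have h7 : ((R.card : ℕ) : ℝ) ≤ ((b - a + 1 : ℕ) : ℝ) := by exact_mod_cast hcard
    rw [Nat.cast_add, Nat.cast_sub hab, Nat.cast_one] at h7
    exact h7
  linarith

open ArithmeticFunction in
private lemma nonprime_sum (κ lam H B : ℝ) (X2 : ℕ) (S : Finset ℕ)
    (hX : ∀ m ∈ S, ∀ n ∈ wn κ lam H m, 1 ≤ n ∧ n ≤ X2)
    (hB : ∀ n, (((S.filter fun m => n ∈ wn κ lam H m).card : ℕ) : ℝ) ≤ B) :
    ∑ m ∈ S, ∑ n ∈ (wn κ lam H m).filter (fun n => ¬ n.Prime), vonMangoldt n ≤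
      B * ∑ n ∈ (Ioc 0 X2).filter (fun n => ¬ n.Prime), vonMangoldt n := by
  have h1 : ∀ m ∈ S,
      ∑ n ∈ (wn κ lam H m).filter (fun n => ¬ n.Prime), vonMangoldt n =
      ∑ n ∈ (Ioc 0 X2).filter (fun n => ¬ n.Prime),
        if n ∈ wn κ lam H m then vonMangoldt n else 0 := by
    intro m hm
    rw [← Finset.sum_filter]
    refine Finset.sum_congr ?_ fun _ _ => rfl
    ext n
    simp only [mem_filter, mem_Ioc]
    constructor
    · rintro ⟨h3, h5⟩
      have h6 := hX m hm n h3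
      exact ⟨⟨⟨by omega, h6.2⟩, h5⟩, h3⟩
    · rintro ⟨⟨_, h5⟩, h3⟩
      exact ⟨h3, h5⟩
  rw [Finset.sum_congr rfl h1, Finset.sum_comm, Finset.mul_sum]
  refine Finset.sum_le_sum fun n _ => ?_
  rw [← Finset.sum_filter, Finset.sum_const, nsmul_eq_mul]
  exact mul_le_mul_of_nonneg_right (hB n) vonMangoldt_nonneg

theorem pp (κ δ : ℝ) (k0 A D : ℕ) (hκ : 0 < κ) (hδ : 0 < δ) (hD : 1 ≤ D) (c : ℝ) (hc : 0 < c) :
    ∃ M1 : ℕ, ∀ M : ℕ, M1 ≤ M → ∀ X : ℝ, Px κ δ k0 A M X →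
    ∀ H : ℝ, (M : ℝ) ^ δ * max (Real.sqrt (X / M)) (X ^ ((2 : ℝ) / 3) / M) ≤ H → H ≤ X →
    c * H * M ≤ ∑ m ∈ (Icc 1 M).filter (fun m => M ≤ D * m),
      ∑ n ∈ wn κ (X / (M : ℝ) ^ κ) H m, ArithmeticFunction.vonMangoldt n →
    c / (2 * (A + 1)) * (H / Real.log M) * M ≤
      ∑ m ∈ Icc 1 M, ((((wn κ (X / (M : ℝ) ^ κ) H m).filter Nat.Prime).card : ℕ) : ℝ) := by
  classical
  obtain ⟨C, hC⟩ := Chebyshev.psi_sub_theta_le_mul_sqrt
  set C' : ℝ := |C| + 1 with hC'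
  have hC'0 : 0 < C' := by have := abs_nonneg C; linarith
  have hCC : C ≤ C' := by have := le_abs_self C; linarith
  set q : ℝ := 8 * C' * max 1 ((D : ℝ) ^ k0 / κ) / c with hq
  have hD1 : (1 : ℝ) ≤ D := by exact_mod_cast hD
  have hm1 : (1 : ℝ) ≤ max 1 ((D : ℝ) ^ k0 / κ) := le_max_left _ _
  have hm2 : (D : ℝ) ^ k0 / κ ≤ max 1 ((D : ℝ) ^ k0 / κ) := le_max_right _ _
  have hq0 : 0 < q := by positivity
  refine ⟨max 2 ⌈q ^ 2⌉₊, fun M hM X hX H hH1 hH2 h => ?_⟩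
  have hM2 : 2 ≤ M := (le_max_left _ _).trans hM
  have hM2' : (2 : ℝ) ≤ M := by exact_mod_cast hM2
  have hM0 : (0 : ℝ) < M := by linarith
  have hMq : q ^ 2 ≤ (M : ℝ) := by
    have h1 := Nat.le_ceil (q ^ 2)
    have h2 : (⌈q ^ 2⌉₊ : ℝ) ≤ M := by
      have : ⌈q ^ 2⌉₊ ≤ M := (le_max_right _ _).trans hM
      exact_mod_cast this
    linarith
  have hX1 : 1 ≤ X := hX.X1 (by omega) hδ.le
  have hX0 : 0 < X := by linarith
  have hXM : (M : ℝ) ≤ X := by
    refine le_trans ?_ hX.x1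
    conv_lhs => rw [← Real.rpow_one (M : ℝ)]
    exact Real.rpow_le_rpow_of_exponent_le (by linarith) (by linarith)
  have hMk : 0 < (M : ℝ) ^ κ := Real.rpow_pos_of_pos hM0 _
  have hHs : Real.sqrt (X / M) ≤ H := by
    have h1 : (1 : ℝ) ≤ (M : ℝ) ^ δ := Real.one_le_rpow (by linarith) hδ.le
    have h2 : Real.sqrt (X / M) ≤ max (Real.sqrt (X / M)) (X ^ ((2 : ℝ) / 3) / M) := le_max_left _ _
    have h3 : 0 ≤ max (Real.sqrt (X / M)) (X ^ ((2 : ℝ) / 3) / M) := (Real.sqrt_nonneg _).trans h2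
    nlinarith
  have hH0 : 0 < H := lt_of_lt_of_le (Real.sqrt_pos.2 (by positivity)) hHs
  -- square roots
  set sM := Real.sqrt M with hsM
  set sX := Real.sqrt X with hsX
  have hsM2 : sM ^ 2 = M := Real.sq_sqrt hM0.le
  have hsX2 : sX ^ 2 = X := Real.sq_sqrt hX0.le
  have hsM0 : 0 < sM := Real.sqrt_pos.2 hM0
  have hsX0 : 0 < sX := Real.sqrt_pos.2 hX0
  have hqM : q ≤ sM := Real.le_sqrt_of_sq_le hMq
  have hqX : q ≤ sX := hqM.trans (Real.sqrt_le_sqrt hXM)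
  have hHM : sX * sM ≤ H * M := by
    have h1 : Real.sqrt (X / M) = sX / sM := Real.sqrt_div' _ hM0.le
    rw [h1, div_le_iff₀ hsM0] at hHs
    calc sX * sM ≤ (H * sM) * sM := mul_le_mul_of_nonneg_right hHs hsM0.le
      _ = H * sM ^ 2 := by ring
      _ = H * M := by rw [hsM2]
  -- the size of n
  set S := (Icc 1 M).filter (fun m => M ≤ D * m) with hS
  set lam : ℝ := X / (M : ℝ) ^ κ with hlam
  have hlam0 : 0 ≤ lam := by positivity
  have hn2 : ∀ m ∈ S, ∀ n ∈ wn κ lam H m, 1 ≤ n ∧ (n : ℝ) ≤ 2 * X := by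
    intro m hm n hn
    rw [mem_wn hlam0 hH0.le] at hn
    have hm1 := mem_Icc.1 (mem_filter.1 hm).1
    have hm0 : (0 : ℝ) < m := by exact_mod_cast hm1.1
    have hmM : (m : ℝ) ≤ M := by exact_mod_cast hm1.2
    have h1 : lam * (m : ℝ) ^ κ ≤ X := by
      rw [hlam, div_mul_eq_mul_div, div_le_iff₀ hMk]
      exact mul_le_mul_of_nonneg_left (Real.rpow_le_rpow hm0.le hmM hκ.le) hX0.le
    constructor
    · have h2 : (0 : ℝ) < n := lt_of_le_of_lt (by positivity) hn.1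
      exact_mod_cast h2
    · linarith
  have hnp := nonprime_sum κ lam H (1 + (D : ℝ) ^ k0 / κ * (H * M / X)) ⌊2 * X⌋₊ S
    (fun m hm n hn => ⟨(hn2 m hm n hn).1, Nat.le_floor (hn2 m hm n hn).2⟩)
    (fun n => win_cnt κ X H k0 D M n hκ hX.k2 hX0 hH0.le hD (by omega))
  have hpsi : ∑ n ∈ (Ioc 0 ⌊2 * X⌋₊).filter (fun n => ¬ n.Prime),
      ArithmeticFunction.vonMangoldt n ≤ C' * (2 * sX) := by
    have h1 := Chebyshev.psi_sub_theta_eq_sum_not_prime (2 * X)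
    rw [← h1]
    refine (hC _).trans ?_
    have h2 : Real.sqrt (2 * X) ≤ 2 * sX := by
      rw [Real.sqrt_le_left (by positivity), mul_pow, hsX2]
      linarith
    exact mul_le_mul hCC h2 (Real.sqrt_nonneg _) hC'0.le
  have hnp2 : ∑ m ∈ S, ∑ n ∈ (wn κ lam H m).filter (fun n => ¬ n.Prime),
      ArithmeticFunction.vonMangoldt n ≤ c / 2 * H * M := by
    refine hnp.trans ((mul_le_mul_of_nonneg_left hpsi (by positivity)).trans ?_)
    have h1 : 8 * C' * max 1 ((D : ℝ) ^ k0 / κ) = c * q := by rw [hq]; field_simp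
    have h2 : 8 * C' ≤ c * q := by
      rw [← h1]
      nlinarith
    have h3 : 8 * C' * ((D : ℝ) ^ k0 / κ) ≤ c * q := by
      rw [← h1]
      gcongr
    have t1 : C' * (2 * sX) ≤ c / 4 * (H * M) := by
      calc C' * (2 * sX) = 1 / 4 * (8 * C') * sX := by ring
        _ ≤ 1 / 4 * (c * q) * sX := by gcongr
        _ ≤ 1 / 4 * (c * sM) * sX := by gcongr
        _ = c / 4 * (sX * sM) := by ring
        _ ≤ _ := by gcongr
    have t2 : (D : ℝ) ^ k0 / κ * (H * M / X) * (C' * (2 * sX)) ≤ c / 4 * (H * M) := by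
      have e1 : (D : ℝ) ^ k0 / κ * (H * M / X) * (C' * (2 * sX)) =
          1 / 4 * (8 * C' * ((D : ℝ) ^ k0 / κ)) * (H * M) * (sX / X) := by ring
      have e2 : sX / X = 1 / sX := by
        rw [← hsX2]
        field_simp
      rw [e1, e2]
      calc 1 / 4 * (8 * C' * ((D : ℝ) ^ k0 / κ)) * (H * M) * (1 / sX) ≤
          1 / 4 * (c * q) * (H * M) * (1 / sX) := by gcongr
        _ ≤ 1 / 4 * (c * sX) * (H * M) * (1 / sX) := by gcongr
        _ = c / 4 * (H * M) := by field_simp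
    calc (1 + (D : ℝ) ^ k0 / κ * (H * M / X)) * (C' * (2 * sX)) =
        C' * (2 * sX) + (D : ℝ) ^ k0 / κ * (H * M / X) * (C' * (2 * sX)) := by ring
      _ ≤ c / 4 * (H * M) + c / 4 * (H * M) := add_le_add t1 t2
      _ = _ := by ring
  -- primes
  have hlogM : 0 < Real.log M := Real.log_pos (by linarith)
  have hpr : ∀ m ∈ S,
      ∑ n ∈ (wn κ lam H m).filter Nat.Prime, ArithmeticFunction.vonMangoldt n ≤
      (A + 1) * Real.log M * ((((wn κ lam H m).filter Nat.Prime).card : ℕ) : ℝ) := by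
    intro m hm
    have h1 : ∀ n ∈ (wn κ lam H m).filter Nat.Prime,
        ArithmeticFunction.vonMangoldt n ≤ (A + 1) * Real.log M := by
      intro n hn
      rw [mem_filter] at hn
      rw [ArithmeticFunction.vonMangoldt_apply_prime hn.2]
      have h2 := (hn2 m hm n hn.1).2
      have h3 : (n : ℝ) ≤ (M : ℝ) ^ (A + 1) := by
        calc (n : ℝ) ≤ 2 * X := h2
          _ ≤ M * (M : ℝ) ^ A := mul_le_mul hM2' hX.x2 hX0.le hM0.le
          _ = (M : ℝ) ^ (A + 1) := by ring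
      have h4 : (0 : ℝ) < n := by exact_mod_cast hn.2.pos
      calc Real.log n ≤ Real.log ((M : ℝ) ^ (A + 1)) := Real.log_le_log h4 h3
        _ = (A + 1) * Real.log M := by rw [Real.log_pow]; push_cast; ring
    refine (Finset.sum_le_card_nsmul _ _ _ h1).trans_eq ?_
    rw [nsmul_eq_mul, mul_comm]
  have hsplit : ∑ m ∈ S, ∑ n ∈ wn κ lam H m, ArithmeticFunction.vonMangoldt n =
      ∑ m ∈ S, ∑ n ∈ (wn κ lam H m).filter Nat.Prime,
        ArithmeticFunction.vonMangoldt n +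
      ∑ m ∈ S, ∑ n ∈ (wn κ lam H m).filter (fun n => ¬ n.Prime),
        ArithmeticFunction.vonMangoldt n := by
    rw [← Finset.sum_add_distrib]
    exact Finset.sum_congr rfl fun m _ => (Finset.sum_filter_add_sum_filter_not _ _ _).symm
  have hpr2 := Finset.sum_le_sum hpr
  rw [← Finset.mul_sum] at hpr2
  rw [hsplit] at h
  have hmono : ∑ m ∈ S, ((((wn κ lam H m).filter Nat.Prime).card : ℕ) : ℝ) ≤
      ∑ m ∈ Icc 1 M, ((((wn κ lam H m).filter Nat.Prime).card : ℕ) : ℝ) :=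
    sum_le_sum_of_subset_of_nonneg (filter_subset _ _) fun _ _ _ => Nat.cast_nonneg _
  refine le_trans ?_ hmono
  have hA : (0 : ℝ) < (A : ℝ) + 1 := by positivity
  have h10 : c / (2 * (A + 1)) * (H / Real.log M) * M =
      (c / 2 * H * M) / ((A + 1) * Real.log M) := by
    field_simp
  rw [h10, div_le_iff₀ (by positivity)]
  linarith

end Pool.Agent.H98.PR
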