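import Pool.Agent.H98.PR.Fm
import Pool.Agent.H98.PR.Pp
import Pool.Agent.H24.LJ.Pairs

/-!
# [H98 PR FIN] The theorem

PROOF. `fm`, `pp`: `c (H/log M) M <= Σ_{m<=M} π(wn m)`; Brun-Titchmarsh (`H24.LJ.pi_loc`): `π(wn m) <= C H/log H <= (C/δ) H/log M`, as `H >= M^δ`. Hence
(`posprop`) at least `c' M` of the `m` have `π(wn m) >= c' H/log M`. The rest is a change of parameters: `δ = min ε 1`, `X = λ M^κ`, `X^ε <= M <= X^(1-ε)`.
-/

namespace Pool.Agent.H98.PR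

open Finset

/-- Brun-Titchmarsh for the windows -/
theorem bt : ∃ C : ℝ, 0 < C ∧ ∀ (κ lam H : ℝ) (m : ℕ), 0 ≤ lam → 2 ≤ H →
    ((((wn κ lam H m).filter Nat.Prime).card : ℕ) : ℝ) ≤ C * (H / Real.log H) := by
  obtain ⟨C, hC, h⟩ := Pool.Agent.H24.LJ.pi_loc
  refine ⟨2 * C, by positivity, fun κ lam H m hl hH => ?_⟩
  have hH0 : 0 < H := by linarith
  have hx : 0 ≤ lam * (m : ℝ) ^ κ := mul_nonneg hl (Real.rpow_nonneg (Nat.cast_nonneg m) _)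
  have hf1 : (⌊H⌋₊ : ℝ) ≤ H := Nat.floor_le hH0.le
  have hf2 : H < (⌊H⌋₊ : ℝ) + 1 := Nat.lt_floor_add_one H
  have hf3 : 2 ≤ ⌊H⌋₊ := Nat.le_floor (by exact_mod_cast hH)
  have hsub : wn κ lam H m ⊆ Ioc ⌊lam * (m : ℝ) ^ κ⌋₊ (⌊lam * (m : ℝ) ^ κ⌋₊ + (⌊H⌋₊ + 1)) := by
    unfold wn
    apply Ioc_subset_Ioc_right
    have h1 : (⌊lam * (m : ℝ) ^ κ + H⌋₊ : ℝ) ≤ lam * (m : ℝ) ^ κ + H :=
      Nat.floor_le (by linarith)
    have h2 := Nat.lt_floor_add_one (lam * (m : ℝ) ^ κ)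
    have h3 : (⌊lam * (m : ℝ) ^ κ + H⌋₊ : ℝ) <
        ((⌊lam * (m : ℝ) ^ κ⌋₊ + (⌊H⌋₊ + 1) + 1 : ℕ) : ℝ) := by
      push_cast
      linarith
    have h4 : ⌊lam * (m : ℝ) ^ κ + H⌋₊ < ⌊lam * (m : ℝ) ^ κ⌋₊ + (⌊H⌋₊ + 1) + 1 := by
      exact_mod_cast h3
    omega
  have h1 : ((((wn κ lam H m).filter Nat.Prime).card : ℕ) : ℝ) ≤
      C * ((⌊H⌋₊ + 1 : ℕ) : ℝ) / Real.log ((⌊H⌋₊ + 1 : ℕ) : ℝ) := by
    refine le_trans ?_ (h ⌊lam * (m : ℝ) ^ κ⌋₊ (⌊H⌋₊ + 1) (by omega))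
    exact_mod_cast card_le_card (filter_subset_filter _ hsub)
  refine h1.trans ?_
  have hlog : 0 < Real.log H := Real.log_pos (by linarith)
  have hlog2 : Real.log H ≤ Real.log ((⌊H⌋₊ + 1 : ℕ) : ℝ) := by
    apply Real.log_le_log hH0
    push_cast
    exact hf2.le
  have h2 : ((⌊H⌋₊ + 1 : ℕ) : ℝ) ≤ 2 * H := by
    push_cast
    linarith
  calc C * ((⌊H⌋₊ + 1 : ℕ) : ℝ) / Real.log ((⌊H⌋₊ + 1 : ℕ) : ℝ) ≤ C * (2 * H) / Real.log H := by
        gcongr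
    _ = 2 * C * (H / Real.log H) := by ring

private theorem posprop (M : ℕ) (f : ℕ → ℝ) (Y c C : ℝ) (hY : 0 < Y) (hc : 0 < c) (hC : 0 < C)
    (hf : ∀ m ∈ Icc 1 M, f m ≤ C * Y) (hs : c * Y * M ≤ ∑ m ∈ Icc 1 M, f m) :
    c / (2 * C) * M ≤ ((((Icc 1 M).filter fun m => c / 2 * Y ≤ f m).card : ℕ) : ℝ) := by
  classical
  rw [← Finset.sum_filter_add_sum_filter_not (Icc 1 M) (fun m => c / 2 * Y ≤ f m)] at hs
  have h1 : ∑ m ∈ (Icc 1 M).filter (fun m => c / 2 * Y ≤ f m), f m ≤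
      ((((Icc 1 M).filter fun m => c / 2 * Y ≤ f m).card : ℕ) : ℝ) * (C * Y) := by
    have := Finset.sum_le_card_nsmul ((Icc 1 M).filter (fun m => c / 2 * Y ≤ f m)) f (C * Y)
      (fun m hm => hf m (mem_filter.1 hm).1)
    rwa [nsmul_eq_mul] at this
  have h2 : ∑ m ∈ (Icc 1 M).filter (fun m => ¬ c / 2 * Y ≤ f m), f m ≤ M * (c / 2 * Y) := by
    have h3 := Finset.sum_le_card_nsmul ((Icc 1 M).filter (fun m => ¬ c / 2 * Y ≤ f m)) f (c / 2 * Y)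
      (fun m hm => (not_le.1 (mem_filter.1 hm).2).le)
    rw [nsmul_eq_mul] at h3
    refine h3.trans ?_
    have h4 : (((Icc 1 M).filter (fun m => ¬ c / 2 * Y ≤ f m)).card : ℝ) ≤ M := by
      have : ((Icc 1 M).filter (fun m => ¬ c / 2 * Y ≤ f m)).card ≤ M := by
        refine (card_le_card (filter_subset _ _)).trans ?_
        rw [Nat.card_Icc]
        omega
      exact_mod_cast this
    exact mul_le_mul_of_nonneg_right h4 (by positivity)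
  generalize ((((Icc 1 M).filter fun m => c / 2 * Y ≤ f m).card : ℕ) : ℝ) = g at *
  have h5 : c / 2 * M * Y ≤ g * C * Y := by
    have e1 : c * Y * M = c / 2 * M * Y + M * (c / 2 * Y) := by ring
    linarith
  have h6 : c / 2 * M ≤ g * C := le_of_mul_le_mul_right h5 hY
  have h7 : c / (2 * C) * M = (c / 2 * M) / C := by ring
  rw [h7, div_le_iff₀ hC]
  exact h6

/-- `π(b) - π(a)` as a cardinality -/
theorem pi_sub (a b : ℕ) (h : a ≤ b) : (Nat.primeCounting b : ℝ) - Nat.primeCounting a =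
    (((Ioc a b).filter Nat.Prime).card : ℝ) := by
  have h1 : Nat.primeCounting b = Nat.primeCounting a + ((Ioc a b).filter Nat.Prime).card := by
    unfold Nat.primeCounting Nat.primeCounting'
    rw [Nat.count_eq_card_filter_range, Nat.count_eq_card_filter_range, ← card_union_of_disjoint]
    · congr 1
      ext n
      simp only [mem_filter, mem_union, mem_range, mem_Ioc]
      constructor
      · rintro ⟨h2, h3⟩
        by_cases h4 : n < a + 1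
        · exact Or.inl ⟨h4, h3⟩
        · exact Or.inr ⟨⟨by omega, by omega⟩, h3⟩
      · rintro (⟨h2, h3⟩ | ⟨⟨h2, h3⟩, h4⟩)
        · exact ⟨by omega, h3⟩
        · exact ⟨by omega, h4⟩
    · rw [Finset.disjoint_left]
      intro n h2 h3
      simp only [mem_filter, mem_range, mem_Ioc] at h2 h3
      omega
  rw [h1]
  push_cast
  ring

theorem fin_card (κ : ℝ) (hκ : 0 < κ) (ε : ℝ) (hε : 0 < ε) : ∃ c : ℝ, 0 < c ∧ ∃ X0 : ℝ,
    ∀ (lam : ℝ) (M : ℕ) (X : ℝ), X = lam * (M : ℝ) ^ κ → X0 ≤ X → X ^ ε ≤ M →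
    (M : ℝ) ≤ X ^ (1 - ε) → ∀ H : ℝ,
    X ^ ε * max (Real.sqrt (X / M)) (X ^ ((2 : ℝ) / 3) / M) ≤ H → H ≤ X →
    0 ≤ H ∧ c * M ≤ ((((Icc 1 M).filter fun m : ℕ => c * (H / Real.log X) ≤
      (((Ioc ⌊lam * (m : ℝ) ^ κ⌋₊ ⌊lam * (m : ℝ) ^ κ + H⌋₊).filter Nat.Prime).card : ℝ)).card :
        ℕ) : ℝ) := by
  classical
  obtain ⟨k0, hk0⟩ := exists_nat_ge κ
  obtain ⟨A, hA⟩ := exists_nat_ge (1 / ε)
  set δ : ℝ := min ε 1 with hδd
  have hδ : 0 < δ := lt_min hε one_pos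
  have hδ1 : δ ≤ 1 := min_le_right _ _
  have hδε : δ ≤ ε := min_le_left _ _
  obtain ⟨c1, hc1, D, hD, M1, h1⟩ := fm κ δ k0 A hκ hδ hδ1
  obtain ⟨M2, h2⟩ := pp κ δ k0 A D hκ hδ hD c1 hc1
  obtain ⟨C, hC, h3⟩ := bt
  set c2 : ℝ := c1 / (2 * (A + 1)) with hc2
  have hc20 : 0 < c2 := by positivity
  set C2 : ℝ := C / δ with hC2
  have hC20 : 0 < C2 := by positivity
  obtain ⟨M3, hM3⟩ := exists_nat_ge ((2 : ℝ) ^ (1 / δ))
  obtain ⟨B, hB⟩ : ∃ B : ℕ, B = max (max M1 M2) (max M3 2) := ⟨_, rfl⟩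
  refine ⟨min (c2 / 2) (c2 / (2 * C2)), lt_min (by positivity) (by positivity),
    max 1 ((B : ℝ) ^ (1 / ε)), ?_⟩
  intro lam M X hX hX0 hX1 hX2 H hH1 hH2
  have hX1' : 1 ≤ X := (le_max_left _ _).trans hX0
  have hXpos : 0 < X := by linarith
  have hBM : B ≤ M := by
    have e1 : ((B : ℝ) ^ (1 / ε)) ^ ε ≤ X ^ ε :=
      Real.rpow_le_rpow (by positivity) ((le_max_right _ _).trans hX0) hε.le
    rw [← Real.rpow_mul (Nat.cast_nonneg B), one_div_mul_cancel hε.ne', Real.rpow_one] at e1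
    exact_mod_cast e1.trans hX1
  have hMM1 : M1 ≤ M := by rw [hB] at hBM; exact (le_max_left _ _).trans ((le_max_left _ _).trans hBM)
  have hMM2 : M2 ≤ M := by rw [hB] at hBM; exact (le_max_right _ _).trans ((le_max_left _ _).trans hBM)
  have hMM3 : M3 ≤ M := by rw [hB] at hBM; exact (le_max_left _ _).trans ((le_max_right _ _).trans hBM)
  have hM2 : 2 ≤ M := by rw [hB] at hBM; exact (le_max_right _ _).trans ((le_max_right _ _).trans hBM)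
  have hMR : (2 : ℝ) ≤ M := by exact_mod_cast hM2
  have hM0 : (0 : ℝ) < M := by linarith
  have hMk : 0 < (M : ℝ) ^ κ := Real.rpow_pos_of_pos hM0 _
  have hlam : lam = X / (M : ℝ) ^ κ := by rw [hX]; field_simp
  have hlam0 : 0 ≤ lam := by rw [hlam]; positivity
  have hMX : (M : ℝ) ≤ X := by
    refine hX2.trans ?_
    conv_rhs => rw [← Real.rpow_one X]
    exact Real.rpow_le_rpow_of_exponent_le hX1' (by linarith)
  have hPx : Px κ δ k0 A M X := by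
    refine ⟨hκ, hk0, ?_, ?_⟩
    · have e1 : (M : ℝ) ^ (1 + δ) ≤ (X ^ (1 - ε)) ^ (1 + δ) :=
        Real.rpow_le_rpow hM0.le hX2 (by linarith)
      rw [← Real.rpow_mul hXpos.le] at e1
      refine e1.trans ?_
      conv_rhs => rw [← Real.rpow_one X]
      apply Real.rpow_le_rpow_of_exponent_le hX1'
      nlinarith
    · have e1 : (X ^ ε) ^ (1 / ε) ≤ (M : ℝ) ^ (1 / ε) :=
        Real.rpow_le_rpow (by positivity) hX1 (by positivity)
      rw [← Real.rpow_mul hXpos.le, mul_one_div_cancel hε.ne', Real.rpow_one] at e1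
      refine e1.trans ?_
      rw [← Real.rpow_natCast]
      exact Real.rpow_le_rpow_of_exponent_le (by linarith) hA
  have hmax0 : (1 : ℝ) ≤ max (Real.sqrt (X / M)) (X ^ ((2 : ℝ) / 3) / M) := by
    refine le_trans ?_ (le_max_left _ _)
    rw [Real.one_le_sqrt, one_le_div hM0]
    exact hMX
  have hMδ : (M : ℝ) ^ δ ≤ X ^ ε := by
    calc (M : ℝ) ^ δ ≤ X ^ δ := Real.rpow_le_rpow hM0.le hMX hδ.le
      _ ≤ X ^ ε := Real.rpow_le_rpow_of_exponent_le hX1' hδε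
  have hH1' : (M : ℝ) ^ δ * max (Real.sqrt (X / M)) (X ^ ((2 : ℝ) / 3) / M) ≤ H :=
    (mul_le_mul_of_nonneg_right hMδ (by linarith)).trans hH1
  have hMδ0 : 0 < (M : ℝ) ^ δ := Real.rpow_pos_of_pos hM0 _
  have hHM : (M : ℝ) ^ δ ≤ H := by
    refine le_trans ?_ hH1'
    nlinarith
  have hMδ2 : (2 : ℝ) ≤ (M : ℝ) ^ δ := by
    have e1 : (2 : ℝ) ^ (1 / δ) ≤ M := hM3.trans (by exact_mod_cast hMM3)
    have e2 := Real.rpow_le_rpow (by positivity) e1 hδ.le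
    rwa [← Real.rpow_mul (by norm_num), one_div_mul_cancel hδ.ne', Real.rpow_one] at e2
  have hH2' : 2 ≤ H := hMδ2.trans hHM
  have hH0 : 0 < H := by linarith
  have hlogM : 0 < Real.log M := Real.log_pos (by linarith)
  have hlogX : Real.log M ≤ Real.log X := Real.log_le_log hM0 hMX
  have hlogH : δ * Real.log M ≤ Real.log H := by
    rw [← Real.log_rpow hM0]
    exact Real.log_le_log hMδ0 hHM
  have hY : 0 < H / Real.log M := by positivity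
  have s1 := h2 M hMM2 X hPx H hH1' hH2 (h1 M hMM1 X hPx H hH1' hH2)
  rw [← hlam] at s1
  have s2 := posprop M (fun m => ((((wn κ lam H m).filter Nat.Prime).card : ℕ) : ℝ))
    (H / Real.log M) c2 C2 hY hc20 hC20 (fun m _ => by
      refine (h3 κ lam H m hlam0 hH2').trans ?_
      calc C * (H / Real.log H) ≤ C * (H / (δ * Real.log M)) := by gcongr
        _ = C2 * (H / Real.log M) := by rw [hC2]; field_simp) s1
  refine ⟨hH0.le, (mul_le_mul_of_nonneg_right (min_le_right (c2 / 2) (c2 / (2 * C2)))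
    hM0.le).trans (s2.trans ?_)⟩
  have s3 : ((Icc 1 M).filter fun m => c2 / 2 * (H / Real.log M) ≤
      ((((wn κ lam H m).filter Nat.Prime).card : ℕ) : ℝ)) ⊆
      ((Icc 1 M).filter fun m : ℕ => min (c2 / 2) (c2 / (2 * C2)) * (H / Real.log X) ≤
      (((Ioc ⌊lam * (m : ℝ) ^ κ⌋₊ ⌊lam * (m : ℝ) ^ κ + H⌋₊).filter Nat.Prime).card : ℝ)) := by
    intro m hm
    rw [mem_filter] at hm ⊢
    refine ⟨hm.1, ?_⟩
    refine le_trans ?_ hm.2
    have e1 : H / Real.log X ≤ H / Real.log M := by gcongr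
    have e2 : 0 ≤ H / Real.log X := div_nonneg hH0.le (by linarith)
    exact mul_le_mul (min_le_left _ _) e1 e2 (by positivity)
  exact_mod_cast card_le_card s3

theorem fin_gen (κ : ℝ) (hκ : 0 < κ) (ε : ℝ) (hε : 0 < ε) : ∃ c : ℝ, 0 < c ∧ ∃ X0 : ℝ,
    ∀ (lam : ℝ) (M : ℕ) (X : ℝ), X = lam * (M : ℝ) ^ κ → X0 ≤ X → X ^ ε ≤ M →
    (M : ℝ) ≤ X ^ (1 - ε) → ∀ H : ℝ,
    X ^ ε * max (Real.sqrt (X / M)) (X ^ ((2 : ℝ) / 3) / M) ≤ H → H ≤ X →
    c * M ≤ ((((Icc 1 M).filter fun m : ℕ => c * (H / Real.log X) ≤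
      (Nat.primeCounting ⌊lam * (m : ℝ) ^ κ + H⌋₊ : ℝ) -
        Nat.primeCounting ⌊lam * (m : ℝ) ^ κ⌋₊).card : ℕ) : ℝ) := by
  obtain ⟨c, hc, X0, h⟩ := fin_card κ hκ ε hε
  refine ⟨c, hc, X0, fun lam M X hX hX0 hX1 hX2 H hH1 hH2 => ?_⟩
  obtain ⟨hH0, h1⟩ := h lam M X hX hX0 hX1 hX2 H hH1 hH2
  refine h1.trans (le_of_eq ?_)
  congr 2
  refine Finset.filter_congr fun m _ => ?_
  rw [pi_sub _ _ (Nat.floor_le_floor (by linarith))]

/-- The case of the points `m^κ`. -/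
theorem fin_pow (κ : ℝ) (hκ : 1 < κ) (ε : ℝ) (hε : 0 < ε) : ∃ c : ℝ, 0 < c ∧ ∃ M0 : ℕ,
    ∀ M : ℕ, M0 ≤ M → ∀ H : ℝ,
    ((M : ℝ) ^ κ) ^ (max ((1 - 1 / κ) / 2) (2 / 3 - 1 / κ) + ε) ≤ H → H ≤ (M : ℝ) ^ κ →
    c * M ≤ ((((Icc 1 M).filter fun m : ℕ => c * (H / Real.log ((M : ℝ) ^ κ)) ≤
      (Nat.primeCounting ⌊(m : ℝ) ^ κ + H⌋₊ : ℝ) -
        Nat.primeCounting ⌊(m : ℝ) ^ κ⌋₊).card : ℕ) : ℝ) := by
  have hκ0 : 0 < κ := by linarith
  have hκi : 1 / κ < 1 := by rw [div_lt_one hκ0]; exact hκ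
  have hκi0 : 0 < 1 / κ := by positivity
  set ε' : ℝ := min ε (min (1 / κ) (1 - 1 / κ)) with hε'
  have he0 : 0 < ε' := lt_min hε (lt_min hκi0 (by linarith))
  have he1 : ε' ≤ ε := min_le_left _ _
  have he2 : ε' ≤ 1 / κ := (min_le_right _ _).trans (min_le_left _ _)
  have he3 : ε' ≤ 1 - 1 / κ := (min_le_right _ _).trans (min_le_right _ _)
  obtain ⟨c, hc, X0, h⟩ := fin_gen κ hκ0 ε' he0
  have hlim : Filter.Tendsto (fun M : ℕ => (M : ℝ) ^ κ) Filter.atTop Filter.atTop :=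
    (tendsto_rpow_atTop hκ0).comp tendsto_natCast_atTop_atTop
  obtain ⟨M0, hM0⟩ := Filter.eventually_atTop.1 (hlim.eventually_ge_atTop X0)
  refine ⟨c, hc, max M0 1, fun M hM H hH1 hH2 => ?_⟩
  have hMM0 : M0 ≤ M := (le_max_left _ _).trans hM
  have hM1 : 1 ≤ M := (le_max_right _ _).trans hM
  have hMR : (1 : ℝ) ≤ M := by exact_mod_cast hM1
  have hMp : (0 : ℝ) < M := by linarith
  have hX1 : 1 ≤ (M : ℝ) ^ κ := Real.one_le_rpow hMR hκ0.le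
  have hXp : 0 < (M : ℝ) ^ κ := by linarith
  have hMX : (M : ℝ) = ((M : ℝ) ^ κ) ^ (1 / κ) := by
    rw [← Real.rpow_mul hMp.le, mul_one_div_cancel hκ0.ne', Real.rpow_one]
  have key := h 1 M ((M : ℝ) ^ κ) (by rw [one_mul]) (hM0 M hMM0)
    (by
      conv_rhs => rw [hMX]
      exact Real.rpow_le_rpow_of_exponent_le hX1 he2)
    (by
      conv_lhs => rw [hMX]
      exact Real.rpow_le_rpow_of_exponent_le hX1 (by linarith)) H
    (by
      refine le_trans ?_ hH1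
      set X : ℝ := (M : ℝ) ^ κ with hXd
      have e1 : Real.sqrt (X / M) = X ^ ((1 - 1 / κ) / 2) := by
        rw [hMX, Real.sqrt_eq_rpow]
        have : X / X ^ (1 / κ) = X ^ (1 - 1 / κ) := by
          rw [Real.rpow_sub hXp, Real.rpow_one]
        rw [this, ← Real.rpow_mul hXp.le]
        congr 1
        ring
      have e2 : X ^ ((2 : ℝ) / 3) / M = X ^ (2 / 3 - 1 / κ) := by
        rw [hMX, Real.rpow_sub hXp]
      rw [e1, e2]
      have e3 : max (X ^ ((1 - 1 / κ) / 2)) (X ^ (2 / 3 - 1 / κ)) ≤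
          X ^ (max ((1 - 1 / κ) / 2) (2 / 3 - 1 / κ)) :=
        max_le (Real.rpow_le_rpow_of_exponent_le hX1 (le_max_left _ _))
          (Real.rpow_le_rpow_of_exponent_le hX1 (le_max_right _ _))
      calc X ^ ε' * max (X ^ ((1 - 1 / κ) / 2)) (X ^ (2 / 3 - 1 / κ)) ≤
          X ^ ε' * X ^ (max ((1 - 1 / κ) / 2) (2 / 3 - 1 / κ)) := by gcongr
        _ = X ^ (ε' + max ((1 - 1 / κ) / 2) (2 / 3 - 1 / κ)) := by rw [Real.rpow_add hXp]
        _ ≤ _ := Real.rpow_le_rpow_of_exponent_le hX1 (by linarith))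
    hH2
  simp only [one_mul] at key
  exact key

end Pool.Agent.H98.PR
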