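import Pool.Agent.H98.PR.Tii
import Pool.Agent.H98.PK.Ti

/-!
# [H98 PR TI] Boxes with a long smooth factor

PROOF as in PK/Ti, `η'` from `sup κ β (β/16) D`, `V = vv δ M X`. On `rng` `‖cpx‖ <= M^(1-η')`.
(a) `|t| <= V`: `2|t| <= V M^(3δ/8) <= X M^(1-δ/8)/V <= 2^(e i0)` (`vv_hi`), `smo`: the factor `i0` is `<= Cs (1+S)/|t|`, the others `<= 1+S`.
(b) `|t| > V`: `|t|/(2T) >= M^(δ/4)/2`, `exp(-(t/(2T))^2) <= exp(-M^(δ/2)/4)`.
`∫ <= Cs (1+S)^6 M^(1-η') 2 log(M^(D+1)) + 2 M^(D+1) (1+S)^6 M exp(-M^(δ/2)/4)`, `1+S <= D' (1 + log M)`.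
-/

namespace Pool.Agent.H98.PR

open Finset MeasureTheory
open Pool.Agent.H98.PK (ex tup mv Bx c1 qd norm_ex tup_card bp_triv ti_int smo)

/-- the number of factors -/
theorem size_S (k0 D r M S : ℕ) (X : ℝ) (hM : 1 ≤ M) (hX1 : 1 ≤ X) (hX : X ≤ (M : ℝ) ^ D)
    (hS : (2 : ℝ) ^ S ≤ cc k0 r * X) :
    1 + (S : ℝ) ≤ (1 + 2 * Real.log (cc k0 r) + 2 * D) * (1 + Real.log M) := by
  have hm1 : (1 : ℝ) ≤ M := by exact_mod_cast hM
  have hl : 0 ≤ Real.log M := Real.log_nonneg hm1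
  have hc : (1 : ℝ) ≤ cc k0 r := cc_pos k0 r
  have hlc : 0 ≤ Real.log (cc k0 r) := Real.log_nonneg hc
  have h1 := Real.log_le_log (by positivity) hS
  rw [Real.log_mul (by linarith) (by linarith), Real.log_pow] at h1
  have h2 := Real.log_le_log (by linarith) hX
  rw [Real.log_pow] at h2
  have h3 := Real.log_two_gt_d9
  have hD : (0 : ℝ) ≤ D := Nat.cast_nonneg D
  have hDl : 0 ≤ (D : ℝ) * Real.log M := by positivity
  have h4 : (S : ℝ) ≤ 2 * (Real.log (cc k0 r) + D * Real.log M) := by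
    have h5 : (S : ℝ) * (1 / 2) ≤ S * Real.log 2 :=
      mul_le_mul_of_nonneg_left (by linarith) (Nat.cast_nonneg S)
    linarith
  have h6 : 0 ≤ Real.log (cc k0 r) * Real.log M := by positivity
  nlinarith

theorem log_pow_le (C κ : ℝ) (k : ℕ) (hκ : 0 < κ) (hC : 0 ≤ C) : ∃ M1 : ℕ, ∀ M : ℕ, M1 ≤ M →
    C * (1 + Real.log M) ^ k ≤ (M : ℝ) ^ κ := by
  have h1 : (fun x : ℝ => 1 + Real.log x) =o[Filter.atTop] fun x : ℝ => x ^ (κ / (k + 1)) := by
    apply Asymptotics.IsLittleO.add _ (isLittleO_log_rpow_atTop (by positivity))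
    rw [Asymptotics.isLittleO_const_left]
    right
    exact tendsto_norm_atTop_atTop.comp (tendsto_rpow_atTop (by positivity))
  have h2 := h1.bound (c := 1) one_pos
  have h3 : ∀ᶠ x : ℝ in Filter.atTop, C ≤ x ^ (κ / (k + 1)) :=
    (tendsto_rpow_atTop (by positivity)).eventually_ge_atTop C
  have h4 := (tendsto_natCast_atTop_atTop (R := ℝ)).eventually (h2.and h3)
  obtain ⟨M1, hM1⟩ := Filter.eventually_atTop.1 h4
  refine ⟨max M1 1, fun M hM => ?_⟩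
  obtain ⟨h5, h6⟩ := hM1 M ((le_max_left _ _).trans hM)
  have hm1 : (1 : ℝ) ≤ M := by exact_mod_cast (le_max_right _ _).trans hM
  have hm0 : (0 : ℝ) < M := by linarith
  have hl : 0 ≤ Real.log M := Real.log_nonneg hm1
  rw [one_mul, Real.norm_of_nonneg (by positivity), Real.norm_of_nonneg (by positivity)] at h5
  calc C * (1 + Real.log M) ^ k ≤ (M : ℝ) ^ (κ / (k + 1)) * ((M : ℝ) ^ (κ / (k + 1))) ^ k :=
        mul_le_mul h6 (pow_le_pow_left₀ (by positivity) h5 k) (by positivity) (by positivity)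
    _ = ((M : ℝ) ^ (κ / (k + 1))) ^ (k + 1) := by ring
    _ = (M : ℝ) ^ κ := by
        rw [← Real.rpow_natCast, ← Real.rpow_mul hm0.le]
        congr 1
        push_cast
        field_simp

theorem exp_small (C c a : ℝ) (k : ℕ) (hc : 0 < c) (ha : 0 < a) (hC : 0 ≤ C) :
    ∃ M1 : ℕ, ∀ M : ℕ, M1 ≤ M → C * (M : ℝ) ^ k * Real.exp (-(c * (M : ℝ) ^ a)) ≤ 1 := by
  have h1 : Filter.Tendsto (fun x : ℝ => (x ^ a) ^ ((k : ℝ) / a) * Real.exp (-c * x ^ a))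
      Filter.atTop (nhds 0) :=
    (tendsto_rpow_mul_exp_neg_mul_atTop_nhds_zero ((k : ℝ) / a) c hc).comp (tendsto_rpow_atTop ha)
  have h2 := (tendsto_natCast_atTop_atTop (R := ℝ)).eventually
    (h1.eventually (ge_mem_nhds (show (0 : ℝ) < 1 / (C + 1) by positivity)))
  obtain ⟨M1, hM1⟩ := Filter.eventually_atTop.1 h2
  refine ⟨M1, fun M hM => ?_⟩
  have h3 := hM1 M hM
  have hm0 : (0 : ℝ) ≤ M := Nat.cast_nonneg M
  have h4 : ((M : ℝ) ^ a) ^ ((k : ℝ) / a) = (M : ℝ) ^ k := by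
    rw [← Real.rpow_mul hm0, mul_div_cancel₀ _ ha.ne', Real.rpow_natCast]
  rw [h4, neg_mul] at h3
  calc C * (M : ℝ) ^ k * Real.exp (-(c * (M : ℝ) ^ a)) =
        C * ((M : ℝ) ^ k * Real.exp (-(c * (M : ℝ) ^ a))) := by ring
    _ ≤ C * (1 / (C + 1)) := mul_le_mul_of_nonneg_left h3 hC
    _ ≤ 1 := by
        rw [mul_one_div, div_le_one (by positivity)]
        linarith

theorem ti (κ β δ : ℝ) (k0 D r : ℕ) (hκ : 0 < κ) (hβ : 0 < β) (hδ : 40 * β ≤ δ) (hδ1 : δ ≤ 1) :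
    ∃ η : ℝ, 0 < η ∧ ∃ M1 : ℕ, ∀ M : ℕ, M1 ≤ M → ∀ X : ℝ, Px κ δ k0 D M X →
    ∀ (N : ℕ) (F : Fin r → ℕ) (P : Fin r → Finset ℕ), Bx β M N F P →
    ∀ (e : Fin 6 → ℕ) (i0 : Fin 6), 3 ≤ (i0 : ℕ) →
    X * (M : ℝ) ^ (1 - δ / 8) / vv δ M X ≤ (2 : ℝ) ^ (e i0) → 2 ^ (∑ i, e i) ≤ cc k0 r * X →
    ∀ T : ℝ, 1 ≤ T → T ≤ vv δ M X * (M : ℝ) ^ (-(δ / 4)) →
    ∫ t in rng β D M, Real.exp (-(t / (2 * T)) ^ 2) * (‖H43.SI.bp c1 e t‖ * ‖cpx κ N P t‖) ≤
      (M : ℝ) ^ (1 - η) := by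
  have hδ0 : 0 < δ := by linarith
  obtain ⟨η0, hη0, M0, hsup⟩ := sup κ β (β / 16) D hκ hβ (by positivity)
  obtain ⟨Cs, hCs, hsmo⟩ := smo
  obtain ⟨η1, hη1, hη1le, hη1le'⟩ : ∃ η1 : ℝ, 0 < η1 ∧ η1 ≤ 1 ∧ η1 ≤ η0 :=
    ⟨min η0 1, lt_min hη0 one_pos, min_le_right _ _, min_le_left _ _⟩
  have hD0 : (0 : ℝ) ≤ D := Nat.cast_nonneg D
  have hlc : 0 ≤ Real.log (cc k0 r) := Real.log_nonneg (cc_pos k0 r)
  obtain ⟨D', hD'⟩ : ∃ D' : ℝ, D' = 1 + 2 * Real.log (cc k0 r) + 2 * D := ⟨_, rfl⟩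
  have hD'0 : 1 ≤ D' := by
    rw [hD']
    linarith
  -- the conditions on `M`
  obtain ⟨M2, hM2⟩ := log_pow_le (2 * (Cs * D' ^ 6 * (2 * (D + 1)))) (η1 / 2) 7 (by positivity)
    (by positivity)
  obtain ⟨M3, hM3⟩ := exp_small (4 * D' ^ 6) (1 / 4) (δ / 2) (D + 8) (by norm_num) (by positivity)
    (by positivity)
  obtain ⟨M4, hM4⟩ := log_pow_le 2 (3 * δ / 8) 0 (by positivity) (by norm_num)
  refine ⟨η1 / 2, by positivity, max (max M0 M2) (max (max M3 M4) 1), ?_⟩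
  intro M hM X hX N F P hB e i0 hi0 hei0 hS T hT1 hT
  have hM0 : M0 ≤ M := ((le_max_left _ _).trans (le_max_left _ _)).trans hM
  have hMM2 : M2 ≤ M := ((le_max_right _ _).trans (le_max_left _ _)).trans hM
  have hMM3 : M3 ≤ M := (((le_max_left _ _).trans (le_max_left _ _)).trans (le_max_right _ _)).trans hM
  have hMM4 : M4 ≤ M := (((le_max_right _ _).trans (le_max_left _ _)).trans (le_max_right _ _)).trans hM
  have hM1 : 1 ≤ M := ((le_max_right _ _).trans (le_max_right _ _)).trans hM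
  have hM1R : (1 : ℝ) ≤ M := by exact_mod_cast hM1
  have hMpos : (0 : ℝ) < M := by linarith
  have hc1 := hM2 M hMM2
  have hc3 := hM3 M hMM3
  have hc2 := hM4 M hMM4
  rw [pow_zero, mul_one] at hc2
  have hX1 : 1 ≤ X := hX.X1 hM1 hδ0.le
  have hVM : (M : ℝ) ≤ vv δ M X := vv_ge hX hM1 hδ0 hδ1
  have hV0 : 0 < vv δ M X := by linarith
  have hVhi := vv_hi hX hM1 hδ0 hδ1
  obtain ⟨V, hVdef⟩ : ∃ V : ℝ, V = vv δ M X := ⟨_, rfl⟩
  rw [← hVdef] at hVM hV0 hVhi hei0 hT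
  have hlog0 : 0 ≤ Real.log M := Real.log_nonneg hM1R
  -- the size of `S`
  obtain ⟨S, hSdef⟩ : ∃ S : ℝ, S = ((∑ i, e i : ℕ) : ℝ) := ⟨_, rfl⟩
  have hS0 : 0 ≤ S := by rw [hSdef]; exact Nat.cast_nonneg _
  have hSle : 1 + S ≤ D' * (1 + Real.log M) := by
    rw [hSdef, hD']
    exact size_S k0 D r M _ X hM1 hX1 hX.x2 hS
  -- the bound for `cpx` on `rng`
  have hprod : (N : ℝ) * ∏ i, (F i : ℝ) ≤ M := by
    have h1 := hB.t1
    have h2 : N * ∏ i, F i ≤ M := le_trans (Nat.le_mul_of_pos_left _ (by positivity)) h1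
    exact_mod_cast h2
  have hcard : ∀ i, ((P i).card : ℝ) ≤ F i := by
    intro i
    have h1 : P i ⊆ Ioc (F i) (2 * F i) := fun p hp => Finset.mem_Ioc.2 (hB.hp i p hp)
    have h2 := Finset.card_le_card h1
    rw [Nat.card_Ioc] at h2
    have h3 : (P i).card ≤ F i := by omega
    exact_mod_cast h3
  have hcpx : ∀ t ∈ rng β D M, ‖cpx κ N P t‖ ≤ (M : ℝ) ^ (1 - η1) := by
    intro t ht
    unfold cpx
    rw [norm_mul, norm_prod]
    have h1 := hsup M hM0 N hB.n0 t ht.1 ht.2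
    have h2 : ∏ i, ‖cp κ (P i) t‖ ≤ ∏ i, (F i : ℝ) :=
      Finset.prod_le_prod (fun i _ => norm_nonneg _) fun i _ => (cp_triv κ (P i) t).trans (hcard i)
    have h3 : (M : ℝ) ^ (-η0) ≤ (M : ℝ) ^ (-η1) :=
      Real.rpow_le_rpow_of_exponent_le hM1R (by linarith)
    calc ‖cp κ (Ioc N (2 * N)) t‖ * ∏ i, ‖cp κ (P i) t‖
        ≤ (N * (M : ℝ) ^ (-η0)) * ∏ i, (F i : ℝ) :=
          mul_le_mul h1 h2 (Finset.prod_nonneg fun i _ => norm_nonneg _) (by positivity)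
      _ ≤ (N * (M : ℝ) ^ (-η1)) * ∏ i, (F i : ℝ) := by gcongr
      _ = (N * ∏ i, (F i : ℝ)) * (M : ℝ) ^ (-η1) := by ring
      _ ≤ M * (M : ℝ) ^ (-η1) := by gcongr
      _ = (M : ℝ) ^ (1 - η1) := by
          rw [sub_eq_add_neg, Real.rpow_add hMpos, Real.rpow_one]
  -- the bound for the integrand
  have hXM : (1 : ℝ) ≤ (M : ℝ) ^ (D + 1) := one_le_pow₀ hM1R
  have hsub : ∀ t ∈ rng β D M, 1 ≤ |t| ∧ |t| ≤ (M : ℝ) ^ (D + 1) := by
    intro t ht
    exact ⟨(Real.one_le_rpow hM1R (by positivity)).trans ht.1, ht.2⟩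
  have hint := ti_int ((M : ℝ) ^ (D + 1)) (Cs * (1 + S) ^ 6 * (M : ℝ) ^ (1 - η1))
    (Real.exp (-(1 / 4 * (M : ℝ) ^ (δ / 2))) * ((1 + S) ^ 6 * M)) hXM (by positivity) (by positivity)
    (rng β D M) (rng_meas β D M) hsub
    (fun t => Real.exp (-(t / (2 * T)) ^ 2) * (‖H43.SI.bp c1 e t‖ * ‖cpx κ N P t‖))
    (fun t => by positivity) (by
      intro t ht
      obtain ⟨ht1, -⟩ := hsub t ht
      have htpos : 0 < |t| := by linarith
      have hA0 : 0 ≤ Cs * (1 + S) ^ 6 * (M : ℝ) ^ (1 - η1) * |t|⁻¹ := by positivity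
      have hB0 : 0 ≤ Real.exp (-(1 / 4 * (M : ℝ) ^ (δ / 2))) * ((1 + S) ^ 6 * M) := by positivity
      have hcx := hcpx t ht
      rcases le_or_gt |t| V with h | h
      · -- the smooth factor
        have h2a : |t| ≤ (2 : ℝ) ^ (e i0) / 2 := by
          refine h.trans ?_
          rw [le_div_iff₀ (by norm_num)]
          calc V * 2 ≤ V * (M : ℝ) ^ (3 * δ / 8) := by gcongr
            _ ≤ _ := hVhi.trans hei0
        have h3 := hsmo i0 (e i0) t hi0 ht1 h2a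
        have hei : ∀ i, (1 : ℝ) + (e i : ℝ) ≤ 1 + S := by
          intro i
          rw [hSdef]
          have : e i ≤ ∑ i, e i := Finset.single_le_sum (fun _ _ => Nat.zero_le _) (Finset.mem_univ i)
          have h4 : (e i : ℝ) ≤ ((∑ i, e i : ℕ) : ℝ) := by exact_mod_cast this
          linarith
        have hbp : ‖H43.SI.bp c1 e t‖ ≤ Cs * (1 + S) ^ 6 * |t|⁻¹ := by
          unfold H43.SI.bp
          rw [norm_prod, ← Finset.mul_prod_erase Finset.univ _ (Finset.mem_univ i0)]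
          have h4 : ∏ i ∈ Finset.univ.erase i0, ‖H43.SI.pol (H43.SI.cf c1 i) (e i) t‖ ≤
              (1 + S) ^ 5 := by
            calc ∏ i ∈ Finset.univ.erase i0, ‖H43.SI.pol (H43.SI.cf c1 i) (e i) t‖ ≤
                  ∏ i ∈ (Finset.univ : Finset (Fin 6)).erase i0, (1 + S) :=
                  Finset.prod_le_prod (fun i _ => norm_nonneg _) fun i _ =>
                    (H43.SI.pw_triv c1 i (e i) t).trans (hei i)
              _ = (1 + S) ^ 5 := by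
                  rw [Finset.prod_const, Finset.card_erase_of_mem (Finset.mem_univ i0),
                    Finset.card_univ, Fintype.card_fin]
          calc ‖H43.SI.pol (H43.SI.cf c1 i0) (e i0) t‖ *
                ∏ i ∈ Finset.univ.erase i0, ‖H43.SI.pol (H43.SI.cf c1 i) (e i) t‖ ≤
                (Cs * (1 + e i0) / |t|) * (1 + S) ^ 5 :=
                mul_le_mul h3 h4 (Finset.prod_nonneg fun i _ => norm_nonneg _) (by positivity)
            _ ≤ (Cs * (1 + S) / |t|) * (1 + S) ^ 5 := by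
                have := hei i0
                gcongr
            _ = _ := by
                rw [div_eq_mul_inv]
                ring
        have hexp : Real.exp (-(t / (2 * T)) ^ 2) ≤ 1 := by
          rw [Real.exp_le_one_iff]
          have := sq_nonneg (t / (2 * T))
          linarith
        calc Real.exp (-(t / (2 * T)) ^ 2) * (‖H43.SI.bp c1 e t‖ * ‖cpx κ N P t‖)
            ≤ 1 * ((Cs * (1 + S) ^ 6 * |t|⁻¹) * (M : ℝ) ^ (1 - η1)) := by
              gcongr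
          _ = Cs * (1 + S) ^ 6 * (M : ℝ) ^ (1 - η1) * |t|⁻¹ := by ring
          _ ≤ _ := by linarith
      · -- the Gaussian
        have hexp : Real.exp (-(t / (2 * T)) ^ 2) ≤ Real.exp (-(1 / 4 * (M : ℝ) ^ (δ / 2))) := by
          rw [Real.exp_le_exp]
          have h3 : (M : ℝ) ^ (δ / 4) / 2 ≤ |t / (2 * T)| := by
            rw [abs_div, abs_of_pos (by positivity : 0 < 2 * T), le_div_iff₀ (by positivity)]
            calc (M : ℝ) ^ (δ / 4) / 2 * (2 * T) = (M : ℝ) ^ (δ / 4) * T := by ring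
              _ ≤ (M : ℝ) ^ (δ / 4) * (V * (M : ℝ) ^ (-(δ / 4))) := by gcongr
              _ = V * ((M : ℝ) ^ (δ / 4) * (M : ℝ) ^ (-(δ / 4))) := by ring
              _ = V := by
                  rw [← Real.rpow_add hMpos, add_neg_cancel, Real.rpow_zero, mul_one]
              _ ≤ |t| := h.le
          have h4 : ((M : ℝ) ^ (δ / 4) / 2) ^ 2 ≤ |t / (2 * T)| ^ 2 :=
            pow_le_pow_left₀ (by positivity) h3 2
          rw [sq_abs, div_pow, ← Real.rpow_natCast ((M : ℝ) ^ (δ / 4)) 2,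
            ← Real.rpow_mul hMpos.le] at h4
          have h5 : δ / 4 * ((2 : ℕ) : ℝ) = δ / 2 := by
            push_cast
            ring
          rw [h5] at h4
          linarith
        have hbp := bp_triv e t
        rw [← hSdef] at hbp
        have hcx' := cpx_triv κ hB t
        calc Real.exp (-(t / (2 * T)) ^ 2) * (‖H43.SI.bp c1 e t‖ * ‖cpx κ N P t‖)
            ≤ Real.exp (-(1 / 4 * (M : ℝ) ^ (δ / 2))) * ((1 + S) ^ 6 * M) := by gcongr
          _ ≤ _ := by linarith)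
  refine hint.trans ?_
  -- numerics
  have hlog3 : Real.log ((M : ℝ) ^ (D + 1)) = (D + 1) * Real.log M := by
    rw [Real.log_pow]
    push_cast
    ring
  rw [hlog3]
  have hS6 : (1 + S) ^ 6 ≤ D' ^ 6 * (1 + Real.log M) ^ 6 := by
    rw [← mul_pow]
    exact pow_le_pow_left₀ (by linarith) hSle 6
  have hfirst : Cs * (1 + S) ^ 6 * (M : ℝ) ^ (1 - η1) * (2 * ((D + 1) * Real.log M)) ≤
      (M : ℝ) ^ (1 - η1 / 2) / 2 := by
    calc Cs * (1 + S) ^ 6 * (M : ℝ) ^ (1 - η1) * (2 * ((D + 1) * Real.log M)) ≤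
          Cs * (D' ^ 6 * (1 + Real.log M) ^ 6) * (M : ℝ) ^ (1 - η1) *
            (2 * ((D + 1) * (1 + Real.log M))) := by
          gcongr
          linarith
      _ = (2 * (Cs * D' ^ 6 * (2 * (D + 1))) * (1 + Real.log M) ^ 7) * (M : ℝ) ^ (1 - η1) / 2 := by ring
      _ ≤ (M : ℝ) ^ (η1 / 2) * (M : ℝ) ^ (1 - η1) / 2 := by gcongr
      _ = (M : ℝ) ^ (1 - η1 / 2) / 2 := by
          rw [← Real.rpow_add hMpos]
          congr 2
          ring
  have hlogM : 1 + Real.log M ≤ M := by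
    have := Real.log_le_sub_one_of_pos hMpos
    linarith
  have hsecond : Real.exp (-(1 / 4 * (M : ℝ) ^ (δ / 2))) * ((1 + S) ^ 6 * M) *
      (2 * (M : ℝ) ^ (D + 1)) ≤ (M : ℝ) ^ (1 - η1 / 2) / 2 := by
    have h1 : (1 : ℝ) ≤ (M : ℝ) ^ (1 - η1 / 2) := Real.one_le_rpow hM1R (by linarith)
    calc Real.exp (-(1 / 4 * (M : ℝ) ^ (δ / 2))) * ((1 + S) ^ 6 * M) * (2 * (M : ℝ) ^ (D + 1)) ≤
          Real.exp (-(1 / 4 * (M : ℝ) ^ (δ / 2))) * ((D' ^ 6 * (1 + Real.log M) ^ 6) * M) *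
            (2 * (M : ℝ) ^ (D + 1)) := by gcongr
      _ ≤ Real.exp (-(1 / 4 * (M : ℝ) ^ (δ / 2))) * ((D' ^ 6 * (M : ℝ) ^ 6) * M) *
            (2 * (M : ℝ) ^ (D + 1)) := by gcongr
      _ = (4 * D' ^ 6 * (M : ℝ) ^ (D + 8) * Real.exp (-(1 / 4 * (M : ℝ) ^ (δ / 2)))) / 2 := by ring
      _ ≤ 1 / 2 := by linarith
      _ ≤ _ := by linarith
  calc _ ≤ (M : ℝ) ^ (1 - η1 / 2) / 2 + (M : ℝ) ^ (1 - η1 / 2) / 2 := add_le_add hfirst hsecond
    _ = _ := by ring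

end Pool.Agent.H98.PR
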