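import Pool.Agent.H98.PR.Gcn
import Pool.Agent.H98.PK.Gau

/-!
# [H98 PR GMV] Mean value theorem for the frequencies `log n - κ log m`

`A(t) = Σ_{n<=A} a_n n^(-it)`, `C(t) = Σ_{m<=Q} c_m m^(iκt)`, `|a_n| <= α`, `|c_m| <= γ`, `T > 0`, `ι >= 1`, `ι κ >= 1`:
`∫ exp(-(t/(2T))^2) |A(t)|^2 |C(t)|^2 dt <= 400 ι α^2 γ^2 (T A Q (1+log A)(1+log Q) + (AQ)^2)`.

PROOF. Expand: `|A(t) C(t)|^2 = Σ_{((n,n'),(m,m')) ∈ qd A Q} a_n conj(a_n') c_m conj(c_m') e^{-it q}`, `q = qx κ ((n,n'),(m,m'))`.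
Integrate term by term (`gau_int`, `gau`): the integral (a nonnegative real number) has absolute value
`<= Σ |a_n a_n' c_m c_m'| 2√π T exp(-(T q)^2) <= α^2 γ^2 2√π T * 100 (..)` (`gcn`), and `200 √π <= 400` (`√π < 1.8`).
-/

namespace Pool.Agent.H98.PR

open Finset MeasureTheory
open Pool.Agent.H98.PK (ex qd gau gau_int)

private theorem ex_add (x y : ℝ) : ex (x + y) = ex x * ex y := by
  unfold ex
  rw [← Complex.exp_add]
  congr 1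
  push_cast
  ring

private theorem ex_conj (x : ℝ) : (starRingEnd ℂ) (ex x) = ex (-x) := by
  unfold ex
  rw [← Complex.exp_conj]
  congr 1
  rw [map_mul, Complex.conj_ofReal, Complex.conj_I]
  push_cast
  ring

private theorem ex_norm (x : ℝ) : ‖ex x‖ = 1 := by
  unfold ex
  exact Complex.norm_exp_ofReal_mul_I x

private theorem gmv_expand (κ : ℝ) (A Q : ℕ) (a c : ℕ → ℂ) (t : ℝ) :
    (((‖∑ n ∈ Icc 1 A, a n * ex (-(t * Real.log n))‖ *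
      ‖∑ m ∈ Icc 1 Q, c m * ex (κ * t * Real.log m)‖) ^ 2 : ℝ) : ℂ) =
      ∑ x ∈ qd A Q, (a x.1.1 * (starRingEnd ℂ) (a x.1.2) *
        (c x.2.1 * (starRingEnd ℂ) (c x.2.2))) * ex (-(t * qx κ x)) := by
  have h1 : ∀ z : ℂ, ((‖z‖ ^ 2 : ℝ) : ℂ) = z * (starRingEnd ℂ) z := fun z => by
    rw [Complex.mul_conj, Complex.normSq_eq_norm_sq]
  rw [mul_pow, Complex.ofReal_mul, h1, h1, map_sum, map_sum, sum_mul_sum, sum_mul_sum,
    ← sum_product', ← sum_product', sum_mul_sum, ← sum_product']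
  unfold qd
  refine sum_congr rfl fun x _ => ?_
  obtain ⟨⟨n, n'⟩, m, m'⟩ := x
  simp only [map_mul, ex_conj]
  have h2 : ex (-(t * qx κ ((n, n'), (m, m')))) = ex (-(t * Real.log n)) * ex (-(-(t * Real.log n'))) *
      (ex (κ * t * Real.log m) * ex (-(κ * t * Real.log m'))) := by
    rw [← ex_add, ← ex_add, ← ex_add]
    congr 1
    unfold qx
    ring
  rw [h2]
  ring

theorem gmv (κ ι : ℝ) (hκ : 0 < κ) (hι : 1 ≤ ι) (hικ : 1 ≤ ι * κ) (A Q : ℕ) (a c : ℕ → ℂ) (α γ T : ℝ) (hA : 1 ≤ A) (hQ : 1 ≤ Q) (hT : 0 < T)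
    (ha : ∀ n ∈ Icc 1 A, ‖a n‖ ≤ α) (hc : ∀ m ∈ Icc 1 Q, ‖c m‖ ≤ γ) :
    ∫ t : ℝ, Real.exp (-(t / (2 * T)) ^ 2) * (‖∑ n ∈ Icc 1 A, a n * ex (-(t * Real.log n))‖ *
      ‖∑ m ∈ Icc 1 Q, c m * ex (κ * t * Real.log m)‖) ^ 2 ≤
      400 * ι * α ^ 2 * γ ^ 2 * (T * A * Q * (1 + Real.log A) * (1 + Real.log Q) + (A * Q) ^ 2) := by
  have hα : 0 ≤ α := (norm_nonneg _).trans (ha 1 (mem_Icc.2 ⟨le_rfl, hA⟩))
  have hγ : 0 ≤ γ := (norm_nonneg _).trans (hc 1 (mem_Icc.2 ⟨le_rfl, hQ⟩))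
  obtain ⟨co, hco⟩ : ∃ co : (ℕ × ℕ) × (ℕ × ℕ) → ℂ, co = fun x =>
    a x.1.1 * (starRingEnd ℂ) (a x.1.2) * (c x.2.1 * (starRingEnd ℂ) (c x.2.2)) := ⟨_, rfl⟩
  have hcob : ∀ x ∈ qd A Q, ‖co x‖ ≤ α ^ 2 * γ ^ 2 := by
    intro x hx
    unfold qd at hx
    rw [mem_product, mem_product, mem_product] at hx
    rw [hco]
    simp only [norm_mul, RCLike.norm_conj]
    have e1 := ha _ hx.1.1
    have e2 := ha _ hx.1.2
    have e3 := hc _ hx.2.1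
    have e4 := hc _ hx.2.2
    calc ‖a x.1.1‖ * ‖a x.1.2‖ * (‖c x.2.1‖ * ‖c x.2.2‖) ≤ α * α * (γ * γ) := by gcongr
      _ = α ^ 2 * γ ^ 2 := by ring
  have h1 : ((∫ t : ℝ, Real.exp (-(t / (2 * T)) ^ 2) *
      (‖∑ n ∈ Icc 1 A, a n * ex (-(t * Real.log n))‖ *
      ‖∑ m ∈ Icc 1 Q, c m * ex (κ * t * Real.log m)‖) ^ 2 : ℝ) : ℂ) =
      ∑ x ∈ qd A Q, co x * ((2 * Real.sqrt Real.pi * T * Real.exp (-(T * qx κ x) ^ 2) : ℝ) : ℂ) := by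
    rw [← integral_complex_ofReal]
    have h2 : ∀ t : ℝ, ((Real.exp (-(t / (2 * T)) ^ 2) *
        (‖∑ n ∈ Icc 1 A, a n * ex (-(t * Real.log n))‖ *
        ‖∑ m ∈ Icc 1 Q, c m * ex (κ * t * Real.log m)‖) ^ 2 : ℝ) : ℂ) =
        ∑ x ∈ qd A Q, co x * ((Real.exp (-(t / (2 * T)) ^ 2) : ℂ) * ex (-(t * qx κ x))) := by
      intro t
      rw [Complex.ofReal_mul, gmv_expand, mul_sum]
      refine sum_congr rfl fun x _ => ?_
      rw [hco]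
      push_cast
      ring
    have h3 : (fun t : ℝ => ((Real.exp (-(t / (2 * T)) ^ 2) *
        (‖∑ n ∈ Icc 1 A, a n * ex (-(t * Real.log n))‖ *
        ‖∑ m ∈ Icc 1 Q, c m * ex (κ * t * Real.log m)‖) ^ 2 : ℝ) : ℂ)) = fun t =>
        ∑ x ∈ qd A Q, co x * ((Real.exp (-(t / (2 * T)) ^ 2) : ℂ) * ex (-(t * qx κ x))) :=
      funext h2
    have h4 : ∀ x ∈ qd A Q, Integrable
        (fun t : ℝ => co x * ((Real.exp (-(t / (2 * T)) ^ 2) : ℂ) * ex (-(t * qx κ x)))) :=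
      fun x _ => (gau_int T (qx κ x) hT).const_mul _
    calc (∫ t : ℝ, ((Real.exp (-(t / (2 * T)) ^ 2) *
        (‖∑ n ∈ Icc 1 A, a n * ex (-(t * Real.log n))‖ *
        ‖∑ m ∈ Icc 1 Q, c m * ex (κ * t * Real.log m)‖) ^ 2 : ℝ) : ℂ)) =
        ∫ t : ℝ, ∑ x ∈ qd A Q, co x * ((Real.exp (-(t / (2 * T)) ^ 2) : ℂ) * ex (-(t * qx κ x))) :=
          integral_congr_ae (Filter.Eventually.of_forall h2)
      _ = ∑ x ∈ qd A Q, ∫ t : ℝ,
          co x * ((Real.exp (-(t / (2 * T)) ^ 2) : ℂ) * ex (-(t * qx κ x))) :=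
          integral_finsetSum _ h4
      _ = _ := by
          refine sum_congr rfl fun x _ => ?_
          rw [integral_const_mul, gau T (qx κ x) hT]
  obtain ⟨I, hI⟩ : ∃ I : ℝ, I = ∫ t : ℝ, Real.exp (-(t / (2 * T)) ^ 2) *
      (‖∑ n ∈ Icc 1 A, a n * ex (-(t * Real.log n))‖ *
      ‖∑ m ∈ Icc 1 Q, c m * ex (κ * t * Real.log m)‖) ^ 2 := ⟨_, rfl⟩
  rw [← hI] at h1 ⊢
  have hsq : Real.sqrt Real.pi ≤ 2 := by
    rw [Real.sqrt_le_left (by norm_num)]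
    have := Real.pi_lt_four
    norm_num
    linarith
  have hs0 : 0 ≤ Real.sqrt Real.pi := Real.sqrt_nonneg _
  have h5 : I ≤ ‖(I : ℂ)‖ := by
    rw [Complex.norm_real]
    exact Real.le_norm_self I
  rw [h1] at h5
  have hAR : (1 : ℝ) ≤ A := by exact_mod_cast hA
  have hQR : (1 : ℝ) ≤ Q := by exact_mod_cast hQ
  have hlA : 0 ≤ Real.log A := Real.log_nonneg hAR
  have hlQ : 0 ≤ Real.log Q := Real.log_nonneg hQR
  calc I ≤ _ := h5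
    _ ≤ ∑ x ∈ qd A Q, ‖co x * ((2 * Real.sqrt Real.pi * T *
          Real.exp (-(T * qx κ x) ^ 2) : ℝ) : ℂ)‖ := norm_sum_le _ _
    _ ≤ ∑ x ∈ qd A Q, (α ^ 2 * γ ^ 2) * (4 * T * Real.exp (-(T * qx κ x) ^ 2)) := by
        refine sum_le_sum fun x hx => ?_
        rw [norm_mul, Complex.norm_real, Real.norm_of_nonneg (by positivity)]
        refine mul_le_mul (hcob x hx) ?_ (by positivity) (by positivity)
        have e1 : 2 * Real.sqrt Real.pi * T ≤ 4 * T := by nlinarith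
        exact mul_le_mul_of_nonneg_right e1 (Real.exp_pos _).le
    _ = (α ^ 2 * γ ^ 2) * (4 * T) * ∑ x ∈ qd A Q, Real.exp (-(T * qx κ x) ^ 2) := by
        rw [mul_sum]
        refine sum_congr rfl fun x _ => ?_
        ring
    _ ≤ (α ^ 2 * γ ^ 2) * (4 * T) * (100 * ι * (A * Q * (1 + Real.log A) * (1 + Real.log Q) +
          (A * Q) ^ 2 / T)) :=
        mul_le_mul_of_nonneg_left (gcn κ ι hκ hι hικ A Q T hA hQ hT) (by positivity)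
    _ = _ := by field_simp; ring

end Pool.Agent.H98.PR
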