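import Pool.Agent.H98.PR.Defs
import Pool.Agent.H98.PK.Sup

/-!
# [H98 PR SUP] Power saving for the short smooth factor, frequencies up to `M^(A+1)`

PROOF. As in PK/Sup with `s = κ|t|`, `80 M^(η1/2) <= s <= M^(A+2)` (`M` large) and `N >= M^β/2 >= M^(β/2)`: `s <= N^(2(A+2)/β)`. `sup_a` (Kusmin-Landau, `s <= N`)
and `sup_b` (Vinogradov's method, `N < s <= N^(2(A+2)/β)`) of PK are used as they are.
-/

namespace Pool.Agent.H98.PR

open Finset
open Pool.Agent.H98.PK (ex tup mv Bx c1 qd sup_a sup_b)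

private theorem sup_norm (κ : ℝ) (N : ℕ) (t : ℝ) :
    ‖cp κ (Ioc N (2 * N)) t‖ =
      ‖∑ n ∈ Ioc N (2 * N), Complex.exp (-((κ * |t|) * Real.log (n : ℝ) : ℝ) * Complex.I)‖ := by
  unfold cp ex
  rcases le_total t 0 with h | h
  · rw [abs_of_nonpos h]
    congr 1
    apply Finset.sum_congr rfl
    intro n _
    congr 2
    push_cast
    ring
  · rw [abs_of_nonneg h, ← Complex.norm_conj, map_sum]
    congr 1
    apply Finset.sum_congr rfl
    intro n _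
    rw [← Complex.exp_conj]
    congr 1
    rw [map_mul, Complex.conj_I, Complex.conj_ofReal]
    push_cast
    ring

theorem sup (κ β η1 : ℝ) (A : ℕ) (hκ : 0 < κ) (hβ : 0 < β) (hη : 0 < η1) : ∃ η : ℝ, 0 < η ∧
    ∃ M1 : ℕ, ∀ M : ℕ, M1 ≤ M →
    ∀ N : ℕ, (M : ℝ) ^ β / 2 ≤ N → ∀ t : ℝ, (M : ℝ) ^ η1 ≤ |t| → |t| ≤ (M : ℝ) ^ (A + 1) →
    ‖cp κ (Ioc N (2 * N)) t‖ ≤ N * (M : ℝ) ^ (-η) := by
  obtain ⟨c', hc', N1, hN1⟩ := sup_b (2 * (A + 2) / β)
  refine ⟨min (η1 / 2) (β * c' / 2), lt_min (by positivity) (by positivity), ?_⟩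
  have e1 : ∀ᶠ M : ℕ in Filter.atTop, 80 / κ ≤ (M : ℝ) ^ (η1 / 2) :=
    ((tendsto_rpow_atTop (show 0 < η1 / 2 by positivity)).comp
      tendsto_natCast_atTop_atTop).eventually_ge_atTop _
  have e2 : ∀ᶠ M : ℕ in Filter.atTop, (2 + N1 : ℝ) ≤ (M : ℝ) ^ (β / 2) :=
    ((tendsto_rpow_atTop (show 0 < β / 2 by positivity)).comp
      tendsto_natCast_atTop_atTop).eventually_ge_atTop _
  have e3 : ∀ᶠ M : ℕ in Filter.atTop, κ ≤ (M : ℝ) :=
    tendsto_natCast_atTop_atTop.eventually_ge_atTop _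
  obtain ⟨M1, hM1⟩ := Filter.eventually_atTop.1 (e1.and (e2.and e3))
  refine ⟨max M1 3, fun M hM N hN t ht1 ht2 => ?_⟩
  obtain ⟨h27, h2, hκM⟩ := hM1 M ((le_max_left _ _).trans hM)
  have hM3 : 3 ≤ M := (le_max_right _ _).trans hM
  have hM3' : (3 : ℝ) ≤ M := by exact_mod_cast hM3
  have hMp : (0 : ℝ) < M := by linarith
  have hM1' : (1 : ℝ) ≤ M := by linarith
  have hN1c : (0 : ℝ) ≤ N1 := Nat.cast_nonneg _
  have hMβ : (M : ℝ) ^ β = (M : ℝ) ^ (β / 2) * (M : ℝ) ^ (β / 2) := by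
    rw [← Real.rpow_add hMp]
    congr 1
    ring
  have hNβ : (M : ℝ) ^ (β / 2) ≤ N := by
    rw [hMβ] at hN
    nlinarith
  have hNN1 : N1 ≤ N := by
    have : (N1 : ℝ) ≤ N := by linarith
    exact_mod_cast this
  have hN2 : (2 : ℝ) ≤ N := by linarith
  have hNp : (0 : ℝ) < N := by linarith
  have hN1n : 1 ≤ N := by
    have : (1 : ℝ) ≤ N := by linarith
    exact_mod_cast this
  have hMη : (M : ℝ) ^ η1 = (M : ℝ) ^ (η1 / 2) * (M : ℝ) ^ (η1 / 2) := by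
    rw [← Real.rpow_add hMp]
    congr 1
    ring
  have ht80 : 80 * (M : ℝ) ^ (η1 / 2) ≤ κ * |t| := by
    rw [hMη] at ht1
    have h6 : 80 / κ * (M : ℝ) ^ (η1 / 2) ≤ |t| :=
      (mul_le_mul_of_nonneg_right h27 (by positivity)).trans ht1
    have h7 := mul_le_mul_of_nonneg_left h6 hκ.le
    refine le_trans (le_of_eq ?_) h7
    field_simp
  have hs1 : 1 ≤ κ * |t| := by
    have h6 : 1 ≤ (M : ℝ) ^ (η1 / 2) := Real.one_le_rpow hM1' (by positivity)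
    linarith
  rw [sup_norm κ]
  rcases le_or_gt (κ * |t|) N with hs | hs
  · refine (sup_a N (2 * N) (κ * |t|) hs1 hN1n le_rfl hs).trans ?_
    have h3 : (M : ℝ) ^ (-(η1 / 2)) ≤ (M : ℝ) ^ (-(min (η1 / 2) (β * c' / 2))) :=
      Real.rpow_le_rpow_of_exponent_le hM1' (neg_le_neg (min_le_left _ _))
    refine le_trans ?_ (mul_le_mul_of_nonneg_left h3 hNp.le)
    rw [← mul_div_assoc, div_le_iff₀ (by linarith), Real.rpow_neg hMp.le]
    have h4 : 0 < (M : ℝ) ^ (η1 / 2) := by positivity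
    calc (80 : ℝ) * N = N * ((M : ℝ) ^ (η1 / 2))⁻¹ * (80 * (M : ℝ) ^ (η1 / 2)) := by
          field_simp
      _ ≤ N * ((M : ℝ) ^ (η1 / 2))⁻¹ * (1 + κ * |t|) :=
          mul_le_mul_of_nonneg_left (by linarith) (by positivity)
  · have h3 : κ * |t| ≤ (N : ℝ) ^ (2 * ((A : ℝ) + 2) / β) := by
      have h4 : (M : ℝ) ^ ((A : ℝ) + 2) ≤ (N : ℝ) ^ (2 * ((A : ℝ) + 2) / β) := by
        have h5 : ((M : ℝ) ^ (β / 2)) ^ (2 * ((A : ℝ) + 2) / β) = (M : ℝ) ^ ((A : ℝ) + 2) := by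
          rw [← Real.rpow_mul hMp.le]
          congr 1
          field_simp
        rw [← h5]
        exact Real.rpow_le_rpow (by positivity) hNβ (by positivity)
      refine le_trans ?_ h4
      have h6 : (M : ℝ) ^ ((A : ℝ) + 2) = M * (M : ℝ) ^ (A + 1) := by
        rw [show (A : ℝ) + 2 = ((A + 2 : ℕ) : ℝ) by push_cast; ring, Real.rpow_natCast]
        ring
      rw [h6]
      exact mul_le_mul hκM ht2 (abs_nonneg t) hMp.le
    refine (hN1 N hNN1 _ hs h3).trans ?_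
    refine mul_le_mul_of_nonneg_left ?_ hNp.le
    have h4 : (M : ℝ) ^ (-(β * c' / 2)) ≤ (M : ℝ) ^ (-(min (η1 / 2) (β * c' / 2))) :=
      Real.rpow_le_rpow_of_exponent_le hM1' (neg_le_neg (min_le_right _ _))
    refine le_trans ?_ h4
    have h5 : (M : ℝ) ^ (-(β * c' / 2)) = ((M : ℝ) ^ (β / 2)) ^ (-c') := by
      rw [← Real.rpow_mul hMp.le]
      congr 1
      ring
    rw [h5]
    exact Real.rpow_le_rpow_of_nonpos (by positivity) hNβ (by linarith)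

end Pool.Agent.H98.PR
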