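import Pool.Agent.H98.PR.Defs

/-!
# [H98 PR TRIV] Trivial bounds
-/

namespace Pool.Agent.H98.PR

open Finset
open Pool.Agent.H98.PK (ex tup mv Bx c1 qd norm_ex tup_card)

theorem cp_triv (κ : ℝ) (P : Finset ℕ) (t : ℝ) : ‖cp κ P t‖ ≤ (P.card : ℝ) := by
  unfold cp
  refine (norm_sum_le _ _).trans (le_of_eq ?_)
  rw [sum_congr rfl fun p _ => norm_ex _, sum_const, nsmul_eq_mul, mul_one]

theorem cpx_triv (κ : ℝ) {β : ℝ} {r M N : ℕ} {F : Fin r → ℕ} {P : Fin r → Finset ℕ}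
    (h : Bx β M N F P) (t : ℝ) : ‖cpx κ N P t‖ ≤ (M : ℝ) := by
  unfold cpx
  rw [norm_mul, norm_prod]
  have h1 : ‖cp κ (Ioc N (2 * N)) t‖ ≤ (N : ℝ) := by
    refine (cp_triv _ _ t).trans (le_of_eq ?_)
    rw [Nat.card_Ioc, two_mul, Nat.add_sub_cancel]
  have h2 : ∏ i, ‖cp κ (P i) t‖ ≤ ∏ i, ((P i).card : ℝ) :=
    prod_le_prod (fun i _ => norm_nonneg _) fun i _ => cp_triv _ _ t
  have h3 : (N : ℝ) * ∏ i, ((P i).card : ℝ) ≤ M := by exact_mod_cast (tup_card h).2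
  exact (mul_le_mul h1 h2 (prod_nonneg fun i _ => norm_nonneg _) (Nat.cast_nonneg _)).trans h3

end Pool.Agent.H98.PR
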