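import Mathlib

/-!
# [H98 PR GRD] A grid of Gaussians

`T ω >= 40 L`, `L >= 1`, grid points `ω/4 + l/T`, `0 <= l < ⌊T ω/4⌋` (they are in `[ω/4, ω/2]`). (1) the sum of the Gaussians is `<= 4` everywhere;
(2) outside `(0, ω]` it is `<= 10 L exp(-100 L^2)` (`y exp(-y^2)` decreases for `y >= 1`, `y = T ω/4 >= 10 L`).
-/

namespace Pool.Agent.H98.PR

open Finset

private theorem grd_geo (S : Finset ℕ) (g : ℕ → ℕ) (hg : Set.InjOn g S) :
    ∑ l ∈ S, (1 / 2 : ℝ) ^ (g l) ≤ 2 := by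
  classical
  rw [← Finset.sum_image (s := S) (g := g) (f := fun k => (1 / 2 : ℝ) ^ k) hg]
  exact (Summable.sum_le_tsum _ (fun k _ => by positivity) summable_geometric_two).trans
    (le_of_eq tsum_geometric_two)

private theorem grd_exp (t : ℝ) (k : ℕ) (h : (k : ℝ) ≤ t) : Real.exp (-t ^ 2) ≤ (1 / 2 : ℝ) ^ k := by
  have hk : (k : ℝ) ≤ (k : ℝ) ^ 2 := by
    rcases Nat.eq_zero_or_pos k with h0 | h0
    · rw [h0]; norm_num
    · have : (1 : ℝ) ≤ k := by exact_mod_cast h0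
      nlinarith
  have hk0 : (0 : ℝ) ≤ k := Nat.cast_nonneg k
  have h1 : (k : ℝ) ≤ t ^ 2 := by nlinarith
  have h2 : Real.exp (-t ^ 2) ≤ Real.exp (-(k : ℝ)) := Real.exp_le_exp.2 (by linarith)
  refine h2.trans ?_
  have h3 : Real.exp (-(k : ℝ)) = (Real.exp (-1)) ^ k := by
    rw [← Real.exp_nat_mul]
    congr 1
    ring
  rw [h3]
  refine pow_le_pow_left₀ (Real.exp_pos _).le ?_ k
  rw [Real.exp_neg, one_div]
  refine inv_anti₀ (by norm_num) ?_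
  have := Real.add_one_le_exp (1 : ℝ)
  linarith

private theorem grd_sum (n : ℕ) (y : ℝ) : ∑ l ∈ range n, Real.exp (-(y - l) ^ 2) ≤ 4 := by
  classical
  rw [← Finset.sum_filter_add_sum_filter_not (range n) (fun l : ℕ => (l : ℤ) ≤ ⌊y⌋)]
  have hf1 := Int.floor_le y
  have hf2 := Int.lt_floor_add_one y
  have h1 : ∑ l ∈ (range n).filter (fun l : ℕ => (l : ℤ) ≤ ⌊y⌋), Real.exp (-(y - l) ^ 2) ≤ 2 := by
    refine (Finset.sum_le_sum fun l hl => ?_).trans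
      (grd_geo ((range n).filter (fun l : ℕ => (l : ℤ) ≤ ⌊y⌋)) (fun l => (⌊y⌋ - l).toNat) ?_)
    · have hl' := (Finset.mem_filter.1 hl).2
      refine grd_exp _ _ ?_
      have h2 : (((⌊y⌋ - l).toNat : ℕ) : ℝ) = ((⌊y⌋ - l : ℤ) : ℝ) := by
        have : (((⌊y⌋ - l).toNat : ℕ) : ℤ) = ⌊y⌋ - l := Int.toNat_of_nonneg (by omega)
        exact_mod_cast congrArg (fun z : ℤ => (z : ℝ)) this
      rw [h2]
      push_cast
      linarith
    · intro a ha b hb hab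
      have ha' := (Finset.mem_filter.1 ha).2
      have hb' := (Finset.mem_filter.1 hb).2
      simp only at hab
      omega
  have h2 : ∑ l ∈ (range n).filter (fun l : ℕ => ¬ (l : ℤ) ≤ ⌊y⌋), Real.exp (-(y - l) ^ 2) ≤ 2 := by
    refine (Finset.sum_le_sum fun l hl => ?_).trans
      (grd_geo ((range n).filter (fun l : ℕ => ¬ (l : ℤ) ≤ ⌊y⌋)) (fun l => ((l : ℤ) - ⌊y⌋ - 1).toNat) ?_)
    · have hl' := (Finset.mem_filter.1 hl).2
      have h3 : (y - l) ^ 2 = ((l : ℝ) - y) ^ 2 := by ring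
      rw [h3]
      refine grd_exp _ _ ?_
      have h2 : ((((l : ℤ) - ⌊y⌋ - 1).toNat : ℕ) : ℝ) = (((l : ℤ) - ⌊y⌋ - 1 : ℤ) : ℝ) := by
        have : ((((l : ℤ) - ⌊y⌋ - 1).toNat : ℕ) : ℤ) = (l : ℤ) - ⌊y⌋ - 1 :=
          Int.toNat_of_nonneg (by omega)
        exact_mod_cast congrArg (fun z : ℤ => (z : ℝ)) this
      rw [h2]
      push_cast
      linarith
    · intro a ha b hb hab
      have ha' := (Finset.mem_filter.1 ha).2
      have hb' := (Finset.mem_filter.1 hb).2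
      simp only at hab
      omega
  linarith

theorem grd1 (T ω x : ℝ) (hT : 0 < T) :
    ∑ l ∈ range ⌊T * ω / 4⌋₊, Real.exp (-(T * (x - (ω / 4 + l / T))) ^ 2) ≤ 4 := by
  refine le_trans (le_of_eq (Finset.sum_congr rfl fun l _ => ?_))
    (grd_sum ⌊T * ω / 4⌋₊ (T * (x - ω / 4)))
  congr 3
  field_simp
  ring

theorem grd3 (T ω : ℝ) (hT : 0 < T) (hω : 0 < ω) (l : ℕ) (hl : l ∈ range ⌊T * ω / 4⌋₊) :
    ω / 4 + l / T ≤ ω / 2 := by
  have h1 : (l : ℝ) ≤ T * ω / 4 := by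
    have h2 := Finset.mem_range.1 hl
    have h3 : (l : ℝ) ≤ (⌊T * ω / 4⌋₊ : ℝ) := by exact_mod_cast h2.le
    exact h3.trans (Nat.floor_le (by positivity))
  have h4 : (l : ℝ) / T ≤ ω / 4 := by
    rw [div_le_iff₀ hT]
    linarith
  linarith

private theorem grd_dec (a y : ℝ) (ha : 1 ≤ a) (hay : a ≤ y) :
    y * Real.exp (-y ^ 2) ≤ a * Real.exp (-a ^ 2) := by
  have ha0 : 0 < a := by linarith
  have h1 : y / a ≤ Real.exp (y ^ 2 - a ^ 2) := by
    have h2 := Real.add_one_le_exp (y ^ 2 - a ^ 2)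
    refine le_trans ?_ h2
    rw [div_le_iff₀ ha0]
    have h3 : 0 ≤ (y - a) * (a * (y + a) - 1) := by
      apply mul_nonneg (by linarith)
      nlinarith
    nlinarith
  have h4 : Real.exp (-a ^ 2) = Real.exp (y ^ 2 - a ^ 2) * Real.exp (-y ^ 2) := by
    rw [← Real.exp_add]
    congr 1
    ring
  have h5 := Real.exp_pos (-y ^ 2)
  rw [h4]
  rw [div_le_iff₀ ha0] at h1
  calc y * Real.exp (-y ^ 2) ≤ (Real.exp (y ^ 2 - a ^ 2) * a) * Real.exp (-y ^ 2) :=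
        mul_le_mul_of_nonneg_right h1 h5.le
    _ = _ := by ring

theorem grd2 (L T ω x : ℝ) (hL : 1 ≤ L) (hT : 0 < T) (hω : 0 < ω) (hTω : 40 * L ≤ T * ω)
    (hx : x ≤ 0 ∨ ω < x) :
    ∑ l ∈ range ⌊T * ω / 4⌋₊, Real.exp (-(T * (x - (ω / 4 + l / T))) ^ 2) ≤
      10 * L * Real.exp (-(100 * L ^ 2)) := by
  have hy : 10 * L ≤ T * ω / 4 := by linarith
  have h1 : ∀ l ∈ range ⌊T * ω / 4⌋₊, Real.exp (-(T * (x - (ω / 4 + l / T))) ^ 2) ≤
      Real.exp (-(T * ω / 4) ^ 2) := by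
    intro l hl
    have h2 := grd3 T ω hT hω l hl
    have h3 : 0 ≤ (l : ℝ) / T := by positivity
    apply Real.exp_le_exp.2
    have h4 : (ω / 4) ^ 2 ≤ (x - (ω / 4 + l / T)) ^ 2 := by
      rcases hx with hx | hx
      · nlinarith
      · nlinarith
    have h5 : (T * ω / 4) ^ 2 ≤ (T * (x - (ω / 4 + l / T))) ^ 2 := by
      rw [mul_pow, show T * ω / 4 = T * (ω / 4) by ring, mul_pow]
      exact mul_le_mul_of_nonneg_left h4 (sq_nonneg T)
    linarith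
  have h6 := Finset.sum_le_sum h1
  refine h6.trans ?_
  rw [Finset.sum_const, Finset.card_range, nsmul_eq_mul]
  have h7 : (⌊T * ω / 4⌋₊ : ℝ) ≤ T * ω / 4 := Nat.floor_le (by positivity)
  have h8 := grd_dec (10 * L) (T * ω / 4) (by linarith) hy
  have h9 : (10 * L) ^ 2 = 100 * L ^ 2 := by ring
  rw [h9] at h8
  exact (mul_le_mul_of_nonneg_right h7 (Real.exp_pos _).le).trans h8

theorem grd4 (L T ω : ℝ) (hL : 1 ≤ L) (hTω : 40 * L ≤ T * ω) :
    9 / 40 * (T * ω) ≤ (⌊T * ω / 4⌋₊ : ℝ) := by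
  have := Nat.lt_floor_add_one (T * ω / 4)
  linarith

end Pool.Agent.H98.PR
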