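import Pool.Agent.H98.PR.Defs

/-!
# [H98 PR WN] Windows behind the points `λ m^κ` (complete)
-/

namespace Pool.Agent.H98.PR

open Finset

/-- the naturals `n` with `λ m^κ < n <= λ m^κ + H` -/
noncomputable def wn (κ lam H : ℝ) (m : ℕ) : Finset ℕ :=
  Ioc ⌊lam * (m : ℝ) ^ κ⌋₊ ⌊lam * (m : ℝ) ^ κ + H⌋₊

theorem mem_wn {κ lam H : ℝ} {m n : ℕ} (hl : 0 ≤ lam) (hH : 0 ≤ H) :
    n ∈ wn κ lam H m ↔ lam * (m : ℝ) ^ κ < n ∧ (n : ℝ) ≤ lam * (m : ℝ) ^ κ + H := by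
  have h0 : 0 ≤ lam * (m : ℝ) ^ κ := mul_nonneg hl (Real.rpow_nonneg (Nat.cast_nonneg m) _)
  unfold wn
  rw [mem_Ioc, Nat.floor_lt h0, Nat.le_floor_iff (by linarith)]

end Pool.Agent.H98.PR
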