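import Pool.Agent.H98.PR.Mpr
import Pool.Agent.H98.PR.Low
import Pool.Agent.H98.PR.Grd
import Pool.Agent.H98.PR.Wn

/-!
# [H98 PR WIN] Windows behind the points `λ m^κ` of the numbers of one box

PROOF. `L = log M`, `ω = H/(2X)` (`<= 1/2`), `T = max(40 L/ω, M^(β/4))`; `M` large. `T <= V M^(-δ/4)`: `40 L/ω = 80 L X/H <= V M^(-δ/4)` is the hypothesis on
`H`, and `V >= M`. `Bd = N ∏ #(P i) >= M/L^(r+1)`. Grid `τ_l = tl + ω/4 + l/T`, `l < n0 = ⌊Tω/4⌋`, `n0 >= (9/40) T ω` (`grd4`). `Nm = 2^(3 bh) <= 8 C1 X`.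
LOWER: `mpr`, `low`: `T WR(T,τ_l) >= c0 Bd - M^(1-η) >= c0 Bd/2`, so `Σ_l WR(T,τ_l) >= (9/80) c0 ω Bd`.
UPPER: `ξ = log n - κ log(mv x) - tl`. `Σ_l WR(T,τ_l) = Σ_n Λ(n)/n Σ_x Σ_l exp(-(T(ξ-(ω/4+l/T)))^2) <= 4 Σ_{(n,x): 0<ξ<=ω} Λ(n)/n + Nm M 10 L exp(-100 L^2)`,
the last term is `<= (1/80) c0 ω Bd`. Hence `Σ_{(n,x): 0<ξ<=ω} Λ(n)/n >= (1/40) c0 ω Bd`. Finally `0 < ξ <= ω` gives
`λ m^κ < n <= λ m^κ e^ω <= λ m^κ (1+2ω) <= λ m^κ + 2ωX = λ m^κ + H`, and `Λ(n)/n <= Λ(n)/(λ m^κ) <= D^k0 Λ(n)/X`, `D = 2^(r+2)`.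
-/

namespace Pool.Agent.H98.PR

open Finset Filter
open Pool.Agent.H98.PK (ex tup mv Bx c1 qd mv_bounds tup_card)

theorem win_ev (k : ℕ) (C a : ℝ) (ha : 0 < a) :
    ∀ᶠ M : ℕ in atTop, C * (Real.log M) ^ k ≤ (M : ℝ) ^ a := by
  have h1 := isLittleO_log_rpow_rpow_atTop (k : ℝ) ha
  have h2 : ∀ᶠ x : ℝ in atTop, |C| * (Real.log x) ^ k ≤ x ^ a := by
    have h3 := h1.def (show (0 : ℝ) < 1 / (|C| + 1) by positivity)
    filter_upwards [h3, eventually_ge_atTop 1] with x hx hx1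
    have hl : 0 ≤ Real.log x := Real.log_nonneg hx1
    rw [Real.norm_of_nonneg (by positivity), Real.norm_of_nonneg (by positivity),
      Real.rpow_natCast] at hx
    have h4 : 0 ≤ (Real.log x) ^ k := by positivity
    have h5 : (|C| + 1) * (Real.log x) ^ k ≤ x ^ a := by
      calc (|C| + 1) * (Real.log x) ^ k ≤ (|C| + 1) * (1 / (|C| + 1) * x ^ a) := by gcongr
        _ = x ^ a := by field_simp
    linarith
  have h3 := tendsto_natCast_atTop_atTop.eventually h2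
  filter_upwards [h3, eventually_ge_atTop 1] with M hM hM1
  have hl : 0 ≤ Real.log M := Real.log_nonneg (by exact_mod_cast hM1)
  have h4 : 0 ≤ (Real.log M) ^ k := by positivity
  calc C * (Real.log M) ^ k ≤ |C| * (Real.log M) ^ k := by gcongr; exact le_abs_self C
    _ ≤ _ := hM

private theorem win_mem (κ X ω : ℝ) (M m n : ℕ) (hκ : 0 ≤ κ) (hX : 0 < X) (hM : 1 ≤ M) (hm : 1 ≤ m)
    (hmM : m ≤ M) (hn : 1 ≤ n) (hω0 : 0 < ω) (hω1 : ω ≤ 1 / 2)
    (h0 : 0 < Real.log n - κ * Real.log m - tl κ M X)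
    (h1 : Real.log n - κ * Real.log m - tl κ M X ≤ ω) :
    n ∈ wn κ (X / (M : ℝ) ^ κ) (2 * ω * X) m := by
  have hm0 : (0 : ℝ) < m := by exact_mod_cast hm
  have hM0 : (0 : ℝ) < M := by exact_mod_cast hM
  have hn0 : (0 : ℝ) < n := by exact_mod_cast hn
  have hMk : 0 < (M : ℝ) ^ κ := Real.rpow_pos_of_pos hM0 _
  have hmk : 0 < (m : ℝ) ^ κ := Real.rpow_pos_of_pos hm0 _
  have hl : κ * Real.log m + tl κ M X = Real.log (X / (M : ℝ) ^ κ * (m : ℝ) ^ κ) := by
    rw [Real.log_mul (by positivity) hmk.ne', Real.log_div hX.ne' hMk.ne', Real.log_rpow hM0,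
      Real.log_rpow hm0, tl]
    ring
  rw [mem_wn (by positivity) (by positivity)]
  set y : ℝ := X / (M : ℝ) ^ κ * (m : ℝ) ^ κ with hy
  have hy0 : 0 < y := by positivity
  have hyX : y ≤ X := by
    rw [hy, div_mul_eq_mul_div, div_le_iff₀ hMk]
    have : (m : ℝ) ^ κ ≤ (M : ℝ) ^ κ :=
      Real.rpow_le_rpow hm0.le (by exact_mod_cast hmM) hκ
    exact mul_le_mul_of_nonneg_left this hX.le
  constructor
  · have h2 : Real.log y < Real.log n := by linarith
    exact (Real.log_lt_log_iff hy0 hn0).mp h2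
  · have h2 : Real.log n ≤ Real.log y + ω := by linarith
    have h3 : (n : ℝ) ≤ y * Real.exp ω := by
      rw [← Real.exp_log hn0]
      calc Real.exp (Real.log n) ≤ Real.exp (Real.log y + ω) := Real.exp_le_exp.mpr h2
        _ = y * Real.exp ω := by
          rw [Real.exp_add, Real.exp_log hy0]
    have h4 : Real.exp ω ≤ 1 + 2 * ω := by
      have h5 := Real.abs_exp_sub_one_sub_id_le (x := ω) (by rw [abs_of_pos hω0]; linarith)
      have h6 := (abs_le.mp h5).2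
      nlinarith
    calc (n : ℝ) ≤ y * Real.exp ω := h3
      _ ≤ y * (1 + 2 * ω) := by gcongr
      _ = y + 2 * ω * y := by ring
      _ ≤ y + 2 * ω * X := by gcongr

/-- the error term is small -/
private theorem win_err (A r : ℕ) (C8 c0 M L X ω Bd Nm q D : ℝ) (hc0 : 0 < c0) (hM : 3 ≤ M)
    (hC8 : 1 ≤ C8) (hL1 : 1 ≤ L) (hexpL : Real.exp L = M) (hX1 : 1 ≤ X) (hXA : X ≤ M ^ A)
    (hω : 1 / (2 * X) ≤ ω)
    (h1 : Nm ≤ C8 * X) (hNm0 : 0 ≤ Nm) (h20 : 0 ≤ q) (h2 : q ≤ M)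
    (hD : D = 10 * L * Real.exp (-(100 * L ^ 2))) (hBd : M / L ^ (r + 1) ≤ Bd)
    (hE4 : 1600 * C8 / c0 * L ^ (r + 2) ≤ M) (hE5 : 2 * (A : ℝ) + 2 ≤ 100 * L) :
    Nm * (q * D) ≤ 1 / 80 * c0 * ω * Bd := by
  have hM0 : 0 < M := by linarith
  have hL0 : 0 < L := by linarith
  have hX0 : 0 < X := by linarith
  have hω0 : 0 < ω := lt_of_lt_of_le (by positivity) hω
  have h3 : Real.exp (-(100 * L ^ 2)) ≤ 1 / M ^ (2 * A + 2) := by
    have h4 : Real.exp (-(100 * L ^ 2)) ≤ Real.exp (-(((2 * A + 2 : ℕ) : ℝ) * L)) := by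
      apply Real.exp_le_exp.mpr
      push_cast
      nlinarith
    refine h4.trans (le_of_eq ?_)
    rw [Real.exp_neg, one_div]
    congr 1
    rw [Real.exp_nat_mul, hexpL]
  have h3' : 1 / M ^ (2 * A + 2) ≤ 1 / (X ^ 2 * M ^ 2) := by
    apply one_div_le_one_div_of_le (by positivity)
    rw [pow_add, pow_mul']
    gcongr
  have h5 : 1 / (2 * X) * (M / L ^ (r + 1)) ≤ ω * Bd :=
    mul_le_mul hω hBd (by positivity) hω0.le
  have h8 : Nm * (q * D) ≤ (C8 * X) * (M * (10 * L * (1 / (X ^ 2 * M ^ 2)))) := by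
    rw [hD]
    have := h3.trans h3'
    gcongr
  have h9 : (C8 * X) * (M * (10 * L * (1 / (X ^ 2 * M ^ 2)))) ≤
      1 / 80 * c0 * (1 / (2 * X) * (M / L ^ (r + 1))) := by
    have h10 : 1600 * C8 * L ^ (r + 2) ≤ c0 * M := by
      calc 1600 * C8 * L ^ (r + 2) =
          c0 * (1600 * C8 / c0 * L ^ (r + 2)) := by field_simp
        _ ≤ c0 * M := by gcongr
    have e1 : (C8 * X) * (M * (10 * L * (1 / (X ^ 2 * M ^ 2)))) = 10 * C8 * L / (X * M) := by
      field_simp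
    have e2 : 1 / 80 * c0 * (1 / (2 * X) * (M / L ^ (r + 1))) =
        c0 * M / (160 * X * L ^ (r + 1)) := by
      field_simp
      norm_num
    rw [e1, e2, div_le_div_iff₀ (by positivity) (by positivity)]
    calc 10 * C8 * L * (160 * X * L ^ (r + 1)) =
        (1600 * C8 * L ^ (r + 2)) * X := by ring
      _ ≤ (c0 * M) * X := by gcongr
      _ = c0 * M * (X * 1) := by ring
      _ ≤ c0 * M * (X * M) := by gcongr; linarith
  calc Nm * (q * D) ≤ _ := h8
    _ ≤ _ := h9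
    _ ≤ 1 / 80 * c0 * (ω * Bd) := by gcongr
    _ = _ := by ring

theorem win (κ β δ : ℝ) (k0 A r : ℕ) (hκ : 0 < κ) (hβ : 0 < β) (hδ : 40 * β ≤ δ) (hδ1 : δ ≤ 1) :
    ∃ c : ℝ, 0 < c ∧ ∃ M1 : ℕ, ∀ M : ℕ, M1 ≤ M → ∀ X : ℝ, Px κ δ k0 A M X →
    ∀ (N : ℕ) (F : Fin r → ℕ) (P : Fin r → Finset ℕ), Bx β M N F P →
    ∀ H : ℝ, (M : ℝ) ^ δ * max (Real.sqrt (X / M)) (X ^ ((2 : ℝ) / 3) / M) ≤ H → H ≤ X →
    (M : ℝ) / (Real.log M) ^ (r + 1) ≤ N * ∏ i, ((P i).card : ℝ) →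
    c * H * (N * ∏ i, ((P i).card : ℝ)) ≤ ∑ x ∈ tup N P, ∑ n ∈ wn κ (X / (M : ℝ) ^ κ) H (mv x),
      ArithmeticFunction.vonMangoldt n := by
  have hδ0 : 0 < δ := by linarith
  obtain ⟨η, hη, M1, hmpr⟩ := mpr κ β δ k0 A r hκ hβ hδ hδ1
  obtain ⟨c0, hc0, M2, hlow⟩ := low κ β δ k0 A r hκ hβ hδ0.le
  obtain ⟨C8, hC8d⟩ : ∃ C8 : ℝ, C8 = 8 * (cc k0 r : ℝ) := ⟨_, rfl⟩
  have hC8 : 1 ≤ C8 := by
    have := cc_pos k0 r
    linarith
  have hE2 := win_ev 1 80 (δ / 2) (by linarith)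
  have hE3 := win_ev (r + 1) (2 / c0) η hη
  have hE4 := win_ev (r + 2) (1600 * C8 / c0) 1 one_pos
  have hE5 : ∀ᶠ M : ℕ in atTop, 2 * (A : ℝ) + 2 ≤ 100 * Real.log M := by
    have h1 : Tendsto (fun M : ℕ => Real.log M) atTop atTop :=
      Real.tendsto_log_atTop.comp tendsto_natCast_atTop_atTop
    filter_upwards [h1.eventually_ge_atTop ((2 * (A : ℝ) + 2) / 100)] with M hM
    linarith
  obtain ⟨M3, hM3⟩ := eventually_atTop.mp (hE2.and (hE3.and (hE4.and hE5)))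
  obtain ⟨Dk, hDk⟩ : ∃ Dk : ℝ, Dk = (2 : ℝ) ^ ((r + 2) * k0) := ⟨_, rfl⟩
  have hDk0 : 0 < Dk := by rw [hDk]; positivity
  refine ⟨c0 / (80 * Dk), by positivity, max (max M1 M2) (max M3 3), ?_⟩
  intro M hM X hX N F P hbx H hH1 hH2 hBd
  have hMM1 : M1 ≤ M := (le_max_left _ _).trans ((le_max_left _ _).trans hM)
  have hMM2 : M2 ≤ M := (le_max_right _ _).trans ((le_max_left _ _).trans hM)
  have hMM3 : M3 ≤ M := (le_max_left _ _).trans ((le_max_right _ _).trans hM)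
  have hM3' : 3 ≤ M := (le_max_right _ _).trans ((le_max_right _ _).trans hM)
  obtain ⟨hE2, hE3, hE4, hE5⟩ := hM3 M hMM3
  have hMR : (3 : ℝ) ≤ M := by exact_mod_cast hM3'
  have hM0 : (0 : ℝ) < M := by linarith
  have hX1 : 1 ≤ X := hX.X1 (by omega) hδ0.le
  have hX0 : 0 < X := by linarith
  have hXM : (M : ℝ) ≤ X := by
    refine le_trans ?_ hX.x1
    conv_lhs => rw [← Real.rpow_one (M : ℝ)]
    exact Real.rpow_le_rpow_of_exponent_le (by linarith) (by linarith)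
  have hV := vv_scale hX (by omega) hδ0 H hH1
  have hVM := vv_ge hX (by omega) hδ0 hδ1
  set L := Real.log M with hL
  have hL1 : 1 ≤ L := by
    rw [hL, Real.le_log_iff_exp_le hM0]
    have := Real.exp_one_lt_d9
    linarith
  have hL0 : 0 < L := by linarith
  have hexpL : Real.exp L = M := Real.exp_log hM0
  have hH1' : 1 ≤ H := by
    refine le_trans ?_ hH1
    have h1 : (1 : ℝ) ≤ (M : ℝ) ^ δ := Real.one_le_rpow (by linarith) hδ0.le
    have h2 : (1 : ℝ) ≤ max (Real.sqrt (X / M)) (X ^ ((2 : ℝ) / 3) / M) := by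
      refine le_trans ?_ (le_max_left _ _)
      rw [Real.one_le_sqrt, one_le_div hM0]
      exact hXM
    nlinarith
  have hH0 : 0 < H := by linarith
  set ω : ℝ := H / (2 * X) with hω
  have hω0 : 0 < ω := by positivity
  have hKω : 2 * ω * X = H := by rw [hω]; field_simp
  have hω1 : ω ≤ 1 / 2 := by
    rw [hω, div_le_iff₀ (by positivity)]
    linarith
  have hω2 : 1 / (2 * X) ≤ ω := by
    rw [hω]
    gcongr
  set T : ℝ := max (40 * L / ω) ((M : ℝ) ^ (β / 4)) with hT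
  have hT0 : 0 < T := lt_of_lt_of_le (by positivity) (le_max_left _ _)
  have hTω : 40 * L ≤ T * ω := by
    have : 40 * L / ω ≤ T := le_max_left _ _
    rwa [div_le_iff₀ hω0] at this
  have hTlow : (M : ℝ) ^ (β / 4) ≤ T := le_max_right _ _
  have hThigh : T ≤ vv δ M X * (M : ℝ) ^ (-(δ / 4)) := by
    apply max_le
    · have h1 : 40 * L / ω = 80 * L * (X / H) := by
        rw [hω]; field_simp; norm_num
      rw [h1]
      have h2 : X / H * (M : ℝ) ^ (3 * δ / 4) ≤ vv δ M X := by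
        refine le_trans (le_of_eq ?_) hV
        ring
      rw [pow_one] at hE2
      calc 80 * L * (X / H) ≤ (M : ℝ) ^ (δ / 2) * (X / H) := by gcongr
        _ = (X / H * (M : ℝ) ^ (3 * δ / 4)) * (M : ℝ) ^ (-(δ / 4)) := by
            rw [mul_assoc, ← Real.rpow_add hM0, mul_comm]
            congr 2
            ring
        _ ≤ _ := by gcongr
    · calc (M : ℝ) ^ (β / 4) ≤ (M : ℝ) ^ (1 + -(δ / 4)) :=
            Real.rpow_le_rpow_of_exponent_le (by linarith) (by linarith)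
        _ = M * (M : ℝ) ^ (-(δ / 4)) := by rw [Real.rpow_add hM0, Real.rpow_one]
        _ ≤ _ := by gcongr
  set Bd : ℝ := N * ∏ i, ((P i).card : ℝ) with hBdd
  have hBd0 : 0 < Bd := lt_of_lt_of_le (by positivity) hBd
  set n0 : ℕ := ⌊T * ω / 4⌋₊ with hn0
  have hn09 : 9 / 40 * (T * ω) ≤ n0 := grd4 L T ω hL1 hTω
  set τ : ℕ → ℝ := fun l => ω / 4 + l / T with hτ
  have hτ0 : ∀ l, 0 ≤ τ l := fun l => by simp only [hτ]; positivity
  have hτ1 : ∀ l ∈ range n0, τ l ≤ 1 := by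
    intro l hl
    have := grd3 T ω hT0 hω0 l (by rw [← hn0]; exact hl)
    simp only [hτ]
    linarith
  set Nm : ℕ := 2 ^ (3 * bh k0 r X) with hNm
  set tt : ℝ := tl κ M X with htt
  have hNmX : (Nm : ℝ) ≤ C8 * X := by
    rw [hNm, hC8d]
    have := bh_le k0 r X hX1
    push_cast
    linarith
  clear_value Nm n0 Bd T ω L
  -- LOWER
  have hlower : ∀ l ∈ range n0, c0 / 2 * Bd / T ≤
      WR κ ArithmeticFunction.vonMangoldt Nm N P T (tt + τ l) := by
    intro l hl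
    have h1 := hmpr M hMM1 X hX N F P hbx T hTlow hThigh (tt + τ l) (by linarith [hτ0 l])
      (by linarith [hτ1 l hl])
    have h2 := hlow M hMM2 X hX N F P hbx (tt + τ l) (by linarith [hτ0 l])
      (by linarith [hτ1 l hl])
    rw [← hNm] at h1 h2
    rw [← hBdd] at h2
    have h3 := (abs_le.mp h1).1
    have h4 : (M : ℝ) ^ (1 - η) ≤ c0 / 2 * Bd := by
      have h5 : (M : ℝ) ^ (1 - η) ≤ c0 / 2 * ((M : ℝ) / L ^ (r + 1)) := by
        rw [Real.rpow_sub hM0, Real.rpow_one, div_le_iff₀ (by positivity)]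
        have h6 : L ^ (r + 1) ≤ c0 / 2 * (M : ℝ) ^ η := by
          calc L ^ (r + 1) = c0 / 2 * (2 / c0 * L ^ (r + 1)) := by field_simp
            _ ≤ c0 / 2 * (M : ℝ) ^ η := by gcongr
        calc (M : ℝ) = (M : ℝ) / L ^ (r + 1) * L ^ (r + 1) := by field_simp
          _ ≤ (M : ℝ) / L ^ (r + 1) * (c0 / 2 * (M : ℝ) ^ η) := by gcongr
          _ = _ := by ring
      refine h5.trans ?_
      gcongr
    rw [div_le_iff₀ hT0]
    have h5 : c0 / 2 * Bd = c0 * Bd - c0 / 2 * Bd := by ring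
    rw [h5]
    linarith
  have hlowsum : 9 / 80 * c0 * ω * Bd ≤ ∑ l ∈ range n0,
      WR κ ArithmeticFunction.vonMangoldt Nm N P T (tt + τ l) := by
    calc 9 / 80 * c0 * ω * Bd = 9 / 40 * (T * ω) * (c0 / 2 * Bd / T) := by
          field_simp; ring
      _ ≤ n0 * (c0 / 2 * Bd / T) := by gcongr
      _ = ∑ l ∈ range n0, c0 / 2 * Bd / T := by rw [sum_const, card_range, nsmul_eq_mul]
      _ ≤ _ := sum_le_sum hlower
  -- UPPER
  obtain ⟨D, hD⟩ : ∃ D : ℝ, D = 10 * L * Real.exp (-(100 * L ^ 2)) := ⟨_, rfl⟩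
  have hD0 : 0 ≤ D := by rw [hD]; positivity
  set ξ : ℕ → ℕ × (Fin r → ℕ) → ℝ := fun n x => Real.log n - κ * Real.log (mv x) - tt with hξ
  have hLam : ∀ n : ℕ, 0 ≤ (ArithmeticFunction.vonMangoldt n : ℝ) / n := fun n =>
    div_nonneg ArithmeticFunction.vonMangoldt_nonneg (Nat.cast_nonneg n)
  have hLam1 : ∀ n ∈ Icc 1 Nm, (ArithmeticFunction.vonMangoldt n : ℝ) / n ≤ 1 := by
    intro n hn
    rw [mem_Icc] at hn
    have hn0 : (0 : ℝ) < n := by exact_mod_cast hn.1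
    rw [div_le_one hn0]
    refine ArithmeticFunction.vonMangoldt_le_log.trans ?_
    have := Real.log_le_sub_one_of_pos hn0
    linarith
  have hinner : ∀ n x, ∑ l ∈ range n0, Real.exp (-(T * (ξ n x - τ l)) ^ 2) ≤
      4 * (if 0 < ξ n x ∧ ξ n x ≤ ω then (1 : ℝ) else 0) + D := by
    intro n x
    split_ifs with h
    · have := grd1 T ω (ξ n x) hT0
      rw [← hn0] at this
      simp only [hτ]
      linarith
    · have h' : ξ n x ≤ 0 ∨ ω < ξ n x := by
        by_contra hcon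
        push Not at hcon
        exact h ⟨hcon.1, hcon.2⟩
      have := grd2 L T ω (ξ n x) hL1 hT0 hω0 hTω h'
      rw [← hn0] at this
      simp only [hτ]
      rw [hD]
      linarith
  have hupper : ∑ l ∈ range n0, WR κ ArithmeticFunction.vonMangoldt Nm N P T (tt + τ l) ≤
      4 * (∑ n ∈ Icc 1 Nm, (ArithmeticFunction.vonMangoldt n : ℝ) / n *
        ∑ x ∈ tup N P, (if 0 < ξ n x ∧ ξ n x ≤ ω then (1 : ℝ) else 0)) +
      (Nm : ℝ) * (((tup N P).card : ℝ) * D) := by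
    have h1 : ∑ l ∈ range n0, WR κ ArithmeticFunction.vonMangoldt Nm N P T (tt + τ l) =
        ∑ n ∈ Icc 1 Nm, (ArithmeticFunction.vonMangoldt n : ℝ) / n *
          ∑ x ∈ tup N P, ∑ l ∈ range n0, Real.exp (-(T * (ξ n x - τ l)) ^ 2) := by
      unfold WR
      rw [sum_comm]
      apply sum_congr rfl
      intro n _
      rw [← mul_sum]
      congr 1
      rw [sum_comm]
      apply sum_congr rfl
      intro x _
      apply sum_congr rfl
      intro l _
      simp only [hξ]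
      congr 4
      ring
    rw [h1]
    calc ∑ n ∈ Icc 1 Nm, (ArithmeticFunction.vonMangoldt n : ℝ) / n *
          ∑ x ∈ tup N P, ∑ l ∈ range n0, Real.exp (-(T * (ξ n x - τ l)) ^ 2)
        ≤ ∑ n ∈ Icc 1 Nm, (ArithmeticFunction.vonMangoldt n : ℝ) / n *
          ∑ x ∈ tup N P, (4 * (if 0 < ξ n x ∧ ξ n x ≤ ω then (1 : ℝ) else 0) + D) := by
          apply sum_le_sum
          intro n _
          apply mul_le_mul_of_nonneg_left _ (hLam n)
          exact sum_le_sum fun x _ => hinner n x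
      _ = 4 * (∑ n ∈ Icc 1 Nm, (ArithmeticFunction.vonMangoldt n : ℝ) / n *
            ∑ x ∈ tup N P, (if 0 < ξ n x ∧ ξ n x ≤ ω then (1 : ℝ) else 0)) +
          ∑ n ∈ Icc 1 Nm, (ArithmeticFunction.vonMangoldt n : ℝ) / n *
            (((tup N P).card : ℝ) * D) := by
          rw [mul_sum, ← sum_add_distrib]
          apply sum_congr rfl
          intro n _
          rw [sum_add_distrib, ← mul_sum, sum_const, nsmul_eq_mul]
          ring
      _ ≤ 4 * (∑ n ∈ Icc 1 Nm, (ArithmeticFunction.vonMangoldt n : ℝ) / n *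
            ∑ x ∈ tup N P, (if 0 < ξ n x ∧ ξ n x ≤ ω then (1 : ℝ) else 0)) +
          (Nm : ℝ) * (((tup N P).card : ℝ) * D) := by
          apply add_le_add le_rfl
          rw [← sum_mul]
          apply mul_le_mul_of_nonneg_right _ (mul_nonneg (Nat.cast_nonneg _) hD0)
          calc ∑ n ∈ Icc 1 Nm, (ArithmeticFunction.vonMangoldt n : ℝ) / n ≤ ∑ n ∈ Icc 1 Nm, (1 : ℝ) :=
                sum_le_sum hLam1
            _ = Nm := by rw [sum_const, nsmul_eq_mul, Nat.card_Icc]; simp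
  -- the error term
  have herr : (Nm : ℝ) * (((tup N P).card : ℝ) * D) ≤ 1 / 80 * c0 * ω * Bd := by
    have h2 : ((tup N P).card : ℝ) ≤ M := by
      have h3 := tup_card hbx
      have h4 : (tup N P).card ≤ M := by rw [h3.1]; exact h3.2
      exact Nat.cast_le.mpr h4
    rw [Real.rpow_one] at hE4
    exact win_err A r C8 c0 M L X ω Bd Nm _ D hc0 hMR hC8 hL1 hexpL hX1 hX.x2 hω2 hNmX
      (Nat.cast_nonneg _) (Nat.cast_nonneg _) h2 hD hBd hE4 hE5
  -- the count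
  set R := ∑ x ∈ tup N P, ∑ n ∈ wn κ (X / (M : ℝ) ^ κ) H (mv x),
      (ArithmeticFunction.vonMangoldt n : ℝ) with hR
  have hκ0 : 0 ≤ κ := hκ.le
  have hcount : (∑ n ∈ Icc 1 Nm, (ArithmeticFunction.vonMangoldt n : ℝ) / n *
        ∑ x ∈ tup N P, (if 0 < ξ n x ∧ ξ n x ≤ ω then (1 : ℝ) else 0)) ≤
      Dk / X * R := by
    have h1 : (∑ n ∈ Icc 1 Nm, (ArithmeticFunction.vonMangoldt n : ℝ) / n *
        ∑ x ∈ tup N P, (if 0 < ξ n x ∧ ξ n x ≤ ω then (1 : ℝ) else 0)) =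
        ∑ x ∈ tup N P, ∑ n ∈ (Icc 1 Nm).filter (fun n => 0 < ξ n x ∧ ξ n x ≤ ω),
          (ArithmeticFunction.vonMangoldt n : ℝ) / n := by
      simp_rw [mul_sum]
      rw [sum_comm]
      apply sum_congr rfl
      intro x _
      rw [sum_filter]
      apply sum_congr rfl
      intro n _
      split_ifs <;> simp
    rw [h1, hR, mul_sum]
    apply sum_le_sum
    intro x hx
    obtain ⟨hm1, hm2, hm3⟩ := mv_bounds hbx x hx
    have hmr : (0 : ℝ) < mv x := by exact_mod_cast hm1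
    calc ∑ n ∈ (Icc 1 Nm).filter (fun n => 0 < ξ n x ∧ ξ n x ≤ ω),
          (ArithmeticFunction.vonMangoldt n : ℝ) / n
        ≤ ∑ n ∈ wn κ (X / (M : ℝ) ^ κ) H (mv x), (ArithmeticFunction.vonMangoldt n : ℝ) / n := by
          apply sum_le_sum_of_subset_of_nonneg
          · intro n hn
            rw [mem_filter, mem_Icc] at hn
            rw [← hKω]
            exact win_mem κ X ω M (mv x) n hκ0 hX0 (by omega) hm1 hm3 hn.1.1 hω0 hω1
              hn.2.1 hn.2.2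
          · intro n _ _
            exact hLam n
      _ ≤ ∑ n ∈ wn κ (X / (M : ℝ) ^ κ) H (mv x),
            Dk / X * (ArithmeticFunction.vonMangoldt n : ℝ) := by
          apply sum_le_sum
          intro n hn
          rw [mem_wn (by positivity) hH0.le] at hn
          have hn1 := hn.1
          have h2 : (M : ℝ) ≤ 2 ^ (r + 2) * mv x := by exact_mod_cast hm2
          have hMk : 0 < (M : ℝ) ^ κ := Real.rpow_pos_of_pos hM0 _
          have hmk : 0 < ((mv x : ℕ) : ℝ) ^ κ := Real.rpow_pos_of_pos hmr _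
          have h3 : (M : ℝ) ^ κ ≤ Dk * ((mv x : ℕ) : ℝ) ^ κ := by
            calc (M : ℝ) ^ κ ≤ (2 ^ (r + 2) * ((mv x : ℕ) : ℝ)) ^ κ :=
                  Real.rpow_le_rpow hM0.le h2 hκ0
              _ = ((2 : ℝ) ^ (r + 2)) ^ κ * ((mv x : ℕ) : ℝ) ^ κ := by
                  rw [Real.mul_rpow (by positivity) hmr.le]
              _ ≤ ((2 : ℝ) ^ (r + 2)) ^ (k0 : ℝ) * ((mv x : ℕ) : ℝ) ^ κ := by
                  gcongr
                  · exact one_le_pow₀ (by norm_num)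
                  · exact hX.k2
              _ = Dk * ((mv x : ℕ) : ℝ) ^ κ := by
                  rw [hDk, Real.rpow_natCast, ← pow_mul]
          have h4 : X ≤ Dk * n := by
            calc X = X / (M : ℝ) ^ κ * (M : ℝ) ^ κ := by field_simp
              _ ≤ X / (M : ℝ) ^ κ * (Dk * ((mv x : ℕ) : ℝ) ^ κ) := by gcongr
              _ = Dk * (X / (M : ℝ) ^ κ * ((mv x : ℕ) : ℝ) ^ κ) := by ring
              _ ≤ Dk * n := by gcongr
          have hn0 : (0 : ℝ) < n := lt_trans (by positivity) hn1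
          have h5 : 1 / (n : ℝ) ≤ Dk / X := by
            rw [div_le_div_iff₀ hn0 hX0]
            linarith
          calc (ArithmeticFunction.vonMangoldt n : ℝ) / n =
              1 / (n : ℝ) * (ArithmeticFunction.vonMangoldt n : ℝ) := by ring
            _ ≤ _ := mul_le_mul_of_nonneg_right h5 ArithmeticFunction.vonMangoldt_nonneg
      _ = _ := by rw [← mul_sum]
  have hfin : 1 / 40 * c0 * ω * Bd ≤ Dk / X * R := by
    linarith
  calc c0 / (80 * Dk) * H * Bd = X / Dk * (1 / 40 * c0 * ω * Bd) := by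
        rw [← hKω]; field_simp; norm_num
    _ ≤ X / Dk * (Dk / X * R) := by gcongr
    _ = R := by field_simp

end Pool.Agent.H98.PR
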