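import Pool.Agent.H98.PR.Defs
import Pool.Agent.H98.PK.Gau
import Pool.Agent.H43.SI.Poly

/-!
# [H98 PR TRF] Transform formula for `W` of a box function

`T W(bf e)(T,τ) = (1/(2√π)) ∫ exp(-(t/(2T))^2) e^{iτt} bp e t cpx κ N P t dt` if `2^(Σ e) <= Nm`, `T > 0`, all elements of the `P i` are `>= 1`;
and the integrand is integrable.

PROOF. `bp c1 e t = Σ_{n<=2^S} bf(n) n^(-(1+it)) = Σ_{n<=2^S} (bf(n)/n) ex(-(t log n))` (`SI.bf_poly`; `n^(-(1+it)) = n^(-1) ex(-(t log n))`), and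
the range may be extended to `n <= Nm` (`bf(n) = 0` for `n > 2^S`, `SI.bf_supp`). `cpx κ N P t = Σ_{x∈tup N P} ex(κ t log(mv x))`
(`Finset.prod_univ_sum`, `ex (a+b) = ex a ex b`, `log` of the product; all factors are `>= 1`). So the integrand is the finite sum over `n <= Nm`,
`x ∈ tup N P` of `(bf(n)/n) exp(-(t/(2T))^2) ex(-(t ξ))`, `ξ = log n - κ log(mv x) - τ`. Integrate term by term with `gau_int`, `gau`:
`Σ (bf(n)/n) 2√π T exp(-(Tξ)^2)`.
-/

namespace Pool.Agent.H98.PR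

open Finset MeasureTheory
open Pool.Agent.H98.PK (ex tup mv Bx c1 qd gau gau_int)

private theorem trf_add (a b : ℝ) : ex (a + b) = ex a * ex b := by
  unfold ex
  rw [← Complex.exp_add]
  congr 1
  push_cast
  ring

private theorem trf_sum {ι : Type*} (s : Finset ι) (a : ι → ℝ) :
    ex (∑ i ∈ s, a i) = ∏ i ∈ s, ex (a i) := by
  classical
  induction s using Finset.induction_on with
  | empty =>
    rw [sum_empty, prod_empty]
    unfold ex
    rw [Complex.ofReal_zero, zero_mul, Complex.exp_zero]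
  | insert i s hi ih => rw [sum_insert hi, prod_insert hi, trf_add, ih]

private theorem trf_cpow (n : ℕ) (hn : 1 ≤ n) (t : ℝ) :
    (n : ℂ) ^ (-(1 + (t : ℂ) * Complex.I)) = (n : ℂ)⁻¹ * ex (-(t * Real.log n)) := by
  have h0 : (n : ℂ) ≠ 0 := by exact_mod_cast (by omega : n ≠ 0)
  rw [neg_add, Complex.cpow_add _ _ h0, Complex.cpow_neg_one]
  congr 1
  rw [Complex.cpow_def_of_ne_zero h0, ← Complex.natCast_log]
  unfold ex
  congr 1
  push_cast
  ring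

private theorem trf_bp (e : Fin 6 → ℕ) (Nm : ℕ) (hS : 2 ^ (∑ i, e i) ≤ Nm) (t : ℝ) :
    H43.SI.bp c1 e t = ∑ n ∈ Icc 1 Nm, H43.SI.bf c1 e n / n * ex (-(t * Real.log n)) := by
  rw [← H43.SI.bf_poly, ← sum_subset (Icc_subset_Icc_right hS)]
  · refine sum_congr rfl fun n hn => ?_
    rw [trf_cpow n (mem_Icc.1 hn).1, div_eq_mul_inv, mul_assoc]
  · intro n _ hn
    have h1 : H43.SI.bf c1 e n = 0 := by
      by_contra h
      have h2 := H43.SI.bf_supp c1 e n h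
      exact hn (mem_Icc.2 ⟨h2.1, h2.2.1⟩)
    rw [h1, zero_div, zero_mul]

private theorem trf_cpx (κ : ℝ) {r : ℕ} (N : ℕ) (P : Fin r → Finset ℕ) (t : ℝ) :
    cpx κ N P t = ∑ x ∈ tup N P, ex (κ * t * (Real.log x.1 + ∑ i, Real.log (x.2 i))) := by
  unfold cpx tup cp
  rw [sum_product, prod_univ_sum, sum_mul_sum]
  refine sum_congr rfl fun m _ => sum_congr rfl fun y _ => ?_
  rw [mul_add, trf_add, mul_sum, trf_sum]

private theorem trf_pt (κ : ℝ) {ι : Type*} (f : ℕ → ℂ) (Nm : ℕ) (X : Finset ι) (l : ι → ℝ) (g : ℂ)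
    (t τ : ℝ) :
    g * (ex (t * τ) * (∑ n ∈ Icc 1 Nm, f n / n * ex (-(t * Real.log n))) *
      ∑ x ∈ X, ex (κ * t * l x)) =
      ∑ n ∈ Icc 1 Nm, ∑ x ∈ X, f n / n * (g * ex (-(t * (Real.log n - κ * l x - τ)))) := by
  rw [mul_sum (Icc 1 Nm), sum_mul (Icc 1 Nm), mul_sum (Icc 1 Nm)]
  refine sum_congr rfl fun n _ => ?_
  rw [mul_sum, mul_sum]
  refine sum_congr rfl fun x _ => ?_
  have h1 : -(t * (Real.log n - κ * l x - τ)) = t * τ + (-(t * Real.log n) + κ * t * l x) := by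
    ring
  rw [h1, trf_add, trf_add]
  ring

private theorem trf_fun (κ : ℝ) {r : ℕ} (e : Fin 6 → ℕ) (Nm N : ℕ) (P : Fin r → Finset ℕ) (T τ : ℝ)
    (hS : 2 ^ (∑ i, e i) ≤ Nm) :
    (fun t : ℝ => (Real.exp (-(t / (2 * T)) ^ 2) : ℂ) *
      (ex (t * τ) * H43.SI.bp c1 e t * cpx κ N P t)) =
    fun t : ℝ => ∑ n ∈ Icc 1 Nm, ∑ x ∈ tup N P, H43.SI.bf c1 e n / n *
      ((Real.exp (-(t / (2 * T)) ^ 2) : ℂ) * ex (-(t * (Real.log n -
        κ * (Real.log x.1 + ∑ i, Real.log (x.2 i)) - τ)))) := by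
  funext t
  rw [trf_bp e Nm hS, trf_cpx]
  exact trf_pt κ (fun n => H43.SI.bf c1 e n) Nm (tup N P)
    (fun x => Real.log x.1 + ∑ i, Real.log (x.2 i)) _ t τ


theorem trf_int (κ : ℝ) {r : ℕ} (e : Fin 6 → ℕ) (N : ℕ) (P : Fin r → Finset ℕ) (T τ : ℝ) (hT : 0 < T) :
    Integrable (fun t : ℝ => (Real.exp (-(t / (2 * T)) ^ 2) : ℂ) *
      (ex (t * τ) * H43.SI.bp c1 e t * cpx κ N P t)) := by
  rw [trf_fun κ e (2 ^ (∑ i, e i)) N P T τ le_rfl]
  refine integrable_finsetSum _ fun n _ => integrable_finsetSum _ fun x _ => ?_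
  exact (gau_int T _ hT).const_mul _

theorem trf (κ : ℝ) {r : ℕ} (e : Fin 6 → ℕ) (Nm N : ℕ) (P : Fin r → Finset ℕ) (T τ : ℝ) (hT : 0 < T)
    (hS : 2 ^ (∑ i, e i) ≤ Nm) (hP : ∀ i, ∀ p ∈ P i, 1 ≤ p) :
    (T : ℂ) * W κ (fun n => H43.SI.bf c1 e n) Nm N P T τ =
      ((1 / (2 * Real.sqrt Real.pi) : ℝ) : ℂ) * ∫ t : ℝ, (Real.exp (-(t / (2 * T)) ^ 2) : ℂ) *
        (ex (t * τ) * H43.SI.bp c1 e t * cpx κ N P t) := by
  rw [trf_fun κ e Nm N P T τ hS, integral_finsetSum _ fun n _ =>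
    integrable_finsetSum _ fun x _ => (gau_int T _ hT).const_mul _]
  unfold W
  rw [mul_sum, mul_sum]
  refine sum_congr rfl fun n _ => ?_
  rw [integral_finsetSum _ fun x _ => (gau_int T _ hT).const_mul _, mul_sum, mul_sum, mul_sum]
  refine sum_congr rfl fun x hx => ?_
  unfold tup at hx
  rw [mem_product, mem_Ioc, Fintype.mem_piFinset] at hx
  have hl : Real.log (mv x) = Real.log x.1 + ∑ i, Real.log (x.2 i) := by
    unfold mv
    have h1 : ((x.1 : ℕ) : ℝ) ≠ 0 := by exact_mod_cast (by omega : x.1 ≠ 0)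
    have h2 : ∀ i, ((x.2 i : ℕ) : ℝ) ≠ 0 := by
      intro i
      have := hP i _ (hx.2 i)
      exact_mod_cast (by omega : x.2 i ≠ 0)
    rw [Nat.cast_mul, Nat.cast_prod, Real.log_mul h1 (prod_ne_zero_iff.2 fun i _ => h2 i),
      Real.log_prod fun i _ => h2 i]
  rw [integral_const_mul, gau T _ hT, hl]
  have hpi : (Real.sqrt Real.pi : ℂ) ≠ 0 := by
    exact_mod_cast (Real.sqrt_pos.2 Real.pi_pos).ne'
  push_cast
  field_simp

end Pool.Agent.H98.PR
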