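import Pool.Agent.H98.PR.Ti
import Pool.Agent.H98.PR.Trf

/-!
# [H98 PR BXE] One box: scale `T` against scale `T0 = M^(β/4)`

PROOF as in PK/Bxe. `2^S <= C1 X <= 2^(3 bh) = Nm` (`bh_ge`). `trf` for `T` and `T0`. (1) `|t| < M^(β/16)`: trivial bounds. (2) `rng β D M`: `cmb` with
`lo = V M^(-1+δ/8) <= X^(1/3) <= X/C1 <= 2^S`, `hi = X M^(1-δ/8)/V >= X^(2/3)`: `tii` or a factor `2^(e i) > hi`; `i < 3` is impossible as
`2^(3 e i) <= 2^(3 bh) <= 8 C1 X < X^2` (`bh_le`), so `ti`. (3) `|t| > M^(D+1) >= M T`: Gaussian decay.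
-/

namespace Pool.Agent.H98.PR

open Finset MeasureTheory
open Pool.Agent.H98.PK (ex tup mv Bx c1 qd norm_ex bp_triv cmb)

private theorem bxe_w (t T T0 : ℝ) (hT0 : 0 < T0) (hT : T0 ≤ T) :
    0 ≤ Real.exp (-(t / (2 * T)) ^ 2) - Real.exp (-(t / (2 * T0)) ^ 2) ∧
    Real.exp (-(t / (2 * T)) ^ 2) - Real.exp (-(t / (2 * T0)) ^ 2) ≤
      Real.exp (-(t / (2 * T)) ^ 2) ∧
    Real.exp (-(t / (2 * T)) ^ 2) - Real.exp (-(t / (2 * T0)) ^ 2) ≤ (t / (2 * T0)) ^ 2 := by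
  have hT1 : 0 < T := by linarith
  have h1 : (t / (2 * T)) ^ 2 ≤ (t / (2 * T0)) ^ 2 := by
    rw [div_pow, div_pow]
    apply div_le_div_of_nonneg_left (sq_nonneg _) (by positivity)
    exact pow_le_pow_left₀ (by positivity) (by linarith) 2
  have h2 : Real.exp (-(t / (2 * T0)) ^ 2) ≤ Real.exp (-(t / (2 * T)) ^ 2) :=
    Real.exp_le_exp.2 (by linarith)
  have h3 := Real.exp_pos (-(t / (2 * T0)) ^ 2)
  have h4 : Real.exp (-(t / (2 * T)) ^ 2) ≤ 1 := Real.exp_le_one_iff.2 (by nlinarith [sq_nonneg (t / (2 * T))])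
  have h5 := Real.add_one_le_exp (-(t / (2 * T0)) ^ 2)
  exact ⟨by linarith, by linarith, by linarith⟩

private theorem bxe_int (T0 T A D m Y : ℝ) (hT0 : 0 < T0) (hT : T0 ≤ T) (hA : 0 < A) (hm : 0 < m)
    (hTm : m * T ≤ Y) (φ : ℝ → ℝ) (h0 : ∀ t, 0 ≤ φ t) (hD : ∀ t, φ t ≤ D)
    (hi : Integrable (fun t => Real.exp (-(t / (2 * T)) ^ 2) * φ t)) :
    ∫ t : ℝ, |Real.exp (-(t / (2 * T)) ^ 2) - Real.exp (-(t / (2 * T0)) ^ 2)| * φ t ≤
      A ^ 3 * D / (2 * T0 ^ 2) +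
      (∫ t in {t : ℝ | A ≤ |t| ∧ |t| ≤ Y}, Real.exp (-(t / (2 * T)) ^ 2) * φ t) +
      6 * T * (D * Real.exp (-(m ^ 2 / 8))) := by
  have hT1 : 0 < T := by linarith
  have hD0 : 0 ≤ D := (h0 0).trans (hD 0)
  set R : Set ℝ := {t : ℝ | A ≤ |t| ∧ |t| ≤ Y} with hR
  have hRm : MeasurableSet R :=
    (measurableSet_le measurable_const measurable_norm).inter
      (measurableSet_le measurable_norm measurable_const)
  have hb : 0 < 1 / (8 * T ^ 2) := by positivity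
  set g1 : ℝ → ℝ := (Set.Ioo (-A) A).indicator (fun _ => (A / (2 * T0)) ^ 2 * D) with hg1
  set g2 : ℝ → ℝ := R.indicator (fun t => Real.exp (-(t / (2 * T)) ^ 2) * φ t) with hg2
  set g3 : ℝ → ℝ := fun t => D * Real.exp (-(m ^ 2 / 8)) * Real.exp (-(1 / (8 * T ^ 2)) * t ^ 2)
    with hg3
  have hI1 : Integrable g1 := by
    rw [hg1, integrable_indicator_iff measurableSet_Ioo]
    exact integrableOn_const (by simp)
  have hI2 : Integrable g2 := hi.indicator hRm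
  have hI3 : Integrable g3 := (integrable_exp_neg_mul_sq hb).const_mul _
  have hle : ∀ t : ℝ, |Real.exp (-(t / (2 * T)) ^ 2) - Real.exp (-(t / (2 * T0)) ^ 2)| * φ t ≤
      g1 t + g2 t + g3 t := by
    intro t
    obtain ⟨w1, w2, w3⟩ := bxe_w t T T0 hT0 hT
    rw [abs_of_nonneg w1]
    have hp1 : 0 ≤ g1 t := Set.indicator_nonneg (fun _ _ => by positivity) t
    have hp2 : 0 ≤ g2 t :=
      Set.indicator_nonneg (fun x _ => mul_nonneg (Real.exp_pos _).le (h0 x)) t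
    have hp3 : 0 ≤ g3 t := by
      rw [hg3]
      positivity
    rcases lt_or_ge |t| A with h | h
    · have hmem : t ∈ Set.Ioo (-A) A := abs_lt.1 h
      have e1 : g1 t = (A / (2 * T0)) ^ 2 * D := by
        rw [hg1, Set.indicator_of_mem hmem]
      have e2 : (t / (2 * T0)) ^ 2 ≤ (A / (2 * T0)) ^ 2 := by
        rw [div_pow, div_pow]
        apply div_le_div_of_nonneg_right _ (by positivity)
        rw [← sq_abs t]
        exact pow_le_pow_left₀ (abs_nonneg _) h.le 2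
      have e3 : (Real.exp (-(t / (2 * T)) ^ 2) - Real.exp (-(t / (2 * T0)) ^ 2)) * φ t ≤
          (A / (2 * T0)) ^ 2 * D :=
        mul_le_mul (w3.trans e2) (hD t) (h0 t) (by positivity)
      rw [e1]
      linarith
    · rcases le_or_gt |t| (Y) with h' | h'
      · have hmem : t ∈ R := ⟨h, h'⟩
        have e1 : g2 t = Real.exp (-(t / (2 * T)) ^ 2) * φ t := by
          rw [hg2, Set.indicator_of_mem hmem]
        have e3 : (Real.exp (-(t / (2 * T)) ^ 2) - Real.exp (-(t / (2 * T0)) ^ 2)) * φ t ≤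
            Real.exp (-(t / (2 * T)) ^ 2) * φ t := mul_le_mul_of_nonneg_right w2 (h0 t)
        rw [e1]
        linarith
      · have e3 : (Real.exp (-(t / (2 * T)) ^ 2) - Real.exp (-(t / (2 * T0)) ^ 2)) * φ t ≤
            Real.exp (-(t / (2 * T)) ^ 2) * D := mul_le_mul w2 (hD t) (h0 t) (Real.exp_pos _).le
        have e4 : Real.exp (-(t / (2 * T)) ^ 2) ≤
            Real.exp (-(m ^ 2 / 8)) * Real.exp (-(1 / (8 * T ^ 2)) * t ^ 2) := by
          rw [← Real.exp_add]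
          apply Real.exp_le_exp.2
          have e7 : m ^ 2 * T ^ 2 ≤ t ^ 2 := by
            rw [← sq_abs t, ← mul_pow]
            exact pow_le_pow_left₀ (by positivity) (hTm.trans h'.le) 2
          have e8 : m ^ 2 / 8 ≤ t ^ 2 / (8 * T ^ 2) := by
            rw [div_le_div_iff₀ (by norm_num) (by positivity)]
            nlinarith
          have e9 : (t / (2 * T)) ^ 2 = t ^ 2 / (8 * T ^ 2) + t ^ 2 / (8 * T ^ 2) := by
            field_simp
            ring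
          have e10 : 1 / (8 * T ^ 2) * t ^ 2 = t ^ 2 / (8 * T ^ 2) := by ring
          rw [e9]
          have : -(1 / (8 * T ^ 2)) * t ^ 2 = - (t ^ 2 / (8 * T ^ 2)) := by
            rw [← e10]
            ring
          rw [this]
          linarith
        have e11 : Real.exp (-(t / (2 * T)) ^ 2) * D ≤ g3 t := by
          have := mul_le_mul_of_nonneg_right e4 hD0
          rw [hg3]
          calc Real.exp (-(t / (2 * T)) ^ 2) * D ≤
              Real.exp (-(m ^ 2 / 8)) * Real.exp (-(1 / (8 * T ^ 2)) * t ^ 2) * D := this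
            _ = D * Real.exp (-(m ^ 2 / 8)) * Real.exp (-(1 / (8 * T ^ 2)) * t ^ 2) := by ring
        linarith
  have hmono : ∫ t : ℝ, |Real.exp (-(t / (2 * T)) ^ 2) - Real.exp (-(t / (2 * T0)) ^ 2)| * φ t ≤
      ∫ t : ℝ, (g1 t + g2 t + g3 t) :=
    integral_mono_of_nonneg
      (Filter.Eventually.of_forall fun t => mul_nonneg (abs_nonneg _) (h0 t))
      ((hI1.add hI2).add hI3) (Filter.Eventually.of_forall hle)
  refine hmono.trans ?_
  have hs : ∫ t : ℝ, (g1 t + g2 t + g3 t) = (∫ t, g1 t) + (∫ t, g2 t) + ∫ t, g3 t := by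
    have := integral_add (hI1.add hI2) hI3
    simp only [Pi.add_apply] at this
    rw [this, integral_add hI1 hI2]
  rw [hs]
  have k1 : ∫ t, g1 t = A ^ 3 * D / (2 * T0 ^ 2) := by
    rw [hg1, integral_indicator measurableSet_Ioo, setIntegral_const, smul_eq_mul,
      Measure.real, Real.volume_Ioo, ENNReal.toReal_ofReal (by linarith)]
    field_simp
    ring
  have k2 : ∫ t, g2 t = ∫ t in R, Real.exp (-(t / (2 * T)) ^ 2) * φ t := by
    rw [hg2, integral_indicator hRm]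
  have k3 : ∫ t, g3 t ≤ 6 * T * (D * Real.exp (-(m ^ 2 / 8))) := by
    rw [hg3, integral_const_mul, integral_gaussian]
    have e1 : Real.sqrt (Real.pi / (1 / (8 * T ^ 2))) ≤ 6 * T := by
      rw [show Real.pi / (1 / (8 * T ^ 2)) = 8 * Real.pi * T ^ 2 by field_simp]
      rw [show (6 : ℝ) * T = Real.sqrt ((6 * T) ^ 2) by rw [Real.sqrt_sq (by positivity)]]
      apply Real.sqrt_le_sqrt
      have hpi : 8 * Real.pi ≤ 36 := by
        have := Real.pi_lt_d2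
        linarith
      calc 8 * Real.pi * T ^ 2 ≤ 36 * T ^ 2 := mul_le_mul_of_nonneg_right hpi (sq_nonneg T)
        _ = (6 * T) ^ 2 := by ring
    calc D * Real.exp (-(m ^ 2 / 8)) * Real.sqrt (Real.pi / (1 / (8 * T ^ 2))) ≤
        D * Real.exp (-(m ^ 2 / 8)) * (6 * T) := by gcongr
      _ = 6 * T * (D * Real.exp (-(m ^ 2 / 8))) := by ring
  rw [k1, k2]
  linarith

private theorem bxe_sqrtpi : 1 / (2 * Real.sqrt Real.pi) ≤ 1 / 3 := by
  have h : (3 / 2 : ℝ) ≤ Real.sqrt Real.pi := by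
    rw [show (3 / 2 : ℝ) = Real.sqrt ((3 / 2) ^ 2) by rw [Real.sqrt_sq (by norm_num)]]
    apply Real.sqrt_le_sqrt
    have := Real.pi_gt_three
    norm_num
    linarith
  apply one_div_le_one_div_of_le (by norm_num)
  linarith

theorem bxe (κ β δ : ℝ) (k0 D r : ℕ) (hκ : 0 < κ) (hβ : 0 < β) (hδ : 40 * β ≤ δ) (hδ1 : δ ≤ 1) :
    ∃ η : ℝ, 0 < η ∧ ∃ M1 : ℕ, ∀ M : ℕ, M1 ≤ M → ∀ X : ℝ, Px κ δ k0 D M X →
    ∀ (N : ℕ) (F : Fin r → ℕ) (P : Fin r → Finset ℕ), Bx β M N F P →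
    ∀ e ∈ H43.SI.boxes (bh k0 r X) (3 * bh k0 r X), X ≤ cc k0 r * 2 ^ (∑ i, e i) →
    2 ^ (∑ i, e i) ≤ cc k0 r * X → ∀ T : ℝ, (M : ℝ) ^ (β / 4) ≤ T →
    T ≤ vv δ M X * (M : ℝ) ^ (-(δ / 4)) → ∀ τ : ℝ,
    ‖(T : ℂ) * W κ (fun n => H43.SI.bf c1 e n) (2 ^ (3 * bh k0 r X)) N P T τ -
      (((M : ℝ) ^ (β / 4) : ℝ) : ℂ) *
        W κ (fun n => H43.SI.bf c1 e n) (2 ^ (3 * bh k0 r X)) N P ((M : ℝ) ^ (β / 4)) τ‖ ≤
      (M : ℝ) ^ (1 - η) := by
  obtain ⟨η1, hη1, M1, hM1⟩ := tii κ β δ k0 D r hκ hβ hδ hδ1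
  obtain ⟨η2, hη2, M2, hM2⟩ := ti κ β δ k0 D r hκ hβ hδ hδ1
  have hlc : 0 ≤ Real.log (cc k0 r) := Real.log_nonneg (cc_pos k0 r)
  obtain ⟨D', hD'⟩ : ∃ D' : ℝ, D' = 1 + 2 * Real.log (cc k0 r) + 2 * D := ⟨_, rfl⟩
  have hD'0 : 1 ≤ D' := by
    rw [hD']
    have : (0 : ℝ) ≤ D := Nat.cast_nonneg D
    linarith
  obtain ⟨M3, hM3⟩ := log_pow_le (D' ^ 6) (β / 16) 6 (by positivity) (by positivity)
  obtain ⟨M4, hM4⟩ := exp_small 6 (1 / 8) 2 (D + 2) (by norm_num) (by norm_num) (by norm_num)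
  have hβ1 : β ≤ 1 / 40 := by linarith
  have hδ0 : 0 < δ := by linarith
  refine ⟨min (min η1 η2) (β / 8), lt_min (lt_min hη1 hη2) (by positivity),
    max (max M1 M2) (max (max M3 M4) (9 * (cc k0 r) ^ 2 + 2)), ?_⟩
  intro M hM X hX N F P hB e he hS1 hS2 T hT0 hT2 τ
  have hMM1 : M1 ≤ M := le_trans (le_trans (le_max_left _ _) (le_max_left _ _)) hM
  have hMM2 : M2 ≤ M := le_trans (le_trans (le_max_right _ _) (le_max_left _ _)) hM
  have hMM3 : M3 ≤ M := le_trans (le_trans (le_trans (le_max_left _ _) (le_max_left _ _))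
    (le_max_right _ _)) hM
  have hMM4 : M4 ≤ M := le_trans (le_trans (le_trans (le_max_right _ _) (le_max_left _ _))
    (le_max_right _ _)) hM
  have hMM5 : 9 * (cc k0 r) ^ 2 + 2 ≤ M := le_trans (le_trans (le_max_right _ _) (le_max_right _ _)) hM
  have hM2' : 2 ≤ M := by omega
  have hMone : 1 ≤ M := by omega
  have hMR1 : (1 : ℝ) ≤ M := by exact_mod_cast hMone
  have hMR0 : (0 : ℝ) < M := by linarith
  have hC1 : (1 : ℝ) ≤ cc k0 r := cc_pos k0 r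
  have hX1 : 1 ≤ X := hX.X1 hMone hδ0.le
  have hX0 : 0 < X := by linarith
  have hXM : (M : ℝ) ≤ X := by
    refine le_trans ?_ hX.x1
    conv_lhs => rw [← Real.rpow_one (M : ℝ)]
    exact Real.rpow_le_rpow_of_exponent_le hMR1 (by linarith)
  have hXC : 9 * (cc k0 r : ℝ) ^ 2 ≤ X := by
    have h1 : 9 * (cc k0 r : ℝ) ^ 2 ≤ M := by exact_mod_cast (by omega : 9 * (cc k0 r) ^ 2 ≤ M)
    linarith
  have hV0 : 0 < vv δ M X := by
    have := vv_ge hX hMone hδ0 hδ1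
    linarith
  set η : ℝ := min (min η1 η2) (β / 8) with hη
  have hηb : η ≤ β / 8 := min_le_right _ _
  have hηa : η ≤ η1 := (min_le_left _ _).trans (min_le_left _ _)
  have hηc : η ≤ η2 := (min_le_left _ _).trans (min_le_right _ _)
  set T0 : ℝ := (M : ℝ) ^ (β / 4) with hT0def
  have hT01 : 1 ≤ T0 := Real.one_le_rpow hMR1 (by positivity)
  have hT00 : 0 < T0 := by linarith
  have hT1 : 1 ≤ T := by linarith
  have hTpos : 0 < T := by linarith
  set S : ℕ := ∑ i, e i with hSdef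
  -- the size of the polynomials
  have hD1 : (1 + (S : ℝ)) ^ 6 ≤ (M : ℝ) ^ (β / 16) := by
    refine le_trans ?_ (hM3 M hMM3)
    have h1 := size_S k0 D r M S X hMone hX1 hX.x2 hS2
    rw [← hD'] at h1
    rw [← mul_pow]
    exact pow_le_pow_left₀ (by positivity) h1 6
  set E : ℝ := (M : ℝ) ^ (1 + β / 16) with hEdef
  have hphi : ∀ t : ℝ, ‖H43.SI.bp c1 e t‖ * ‖cpx κ N P t‖ ≤ E := by
    intro t
    have h1 : ‖H43.SI.bp c1 e t‖ ≤ (M : ℝ) ^ (β / 16) := (bp_triv e t).trans hD1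
    have h2 := cpx_triv κ hB t
    calc ‖H43.SI.bp c1 e t‖ * ‖cpx κ N P t‖ ≤ (M : ℝ) ^ (β / 16) * M :=
          mul_le_mul h1 h2 (norm_nonneg _) (Real.rpow_nonneg hMR0.le _)
      _ = E := by
          rw [hEdef, add_comm 1 (β / 16), Real.rpow_add hMR0, Real.rpow_one]
  -- the transform formulas
  have hNm : 2 ^ S ≤ 2 ^ (3 * bh k0 r X) := by
    have h1 : (2 : ℝ) ^ S ≤ 2 ^ (3 * bh k0 r X) := hS2.trans (bh_ge k0 r X hX1)
    exact_mod_cast h1
  have hP1 : ∀ i, ∀ p ∈ P i, 1 ≤ p := by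
    intro i p hp
    have := (hB.hp i p hp).1
    omega
  have htrf := trf κ e (2 ^ (3 * bh k0 r X)) N P T τ hTpos hNm hP1
  have htrf0 := trf κ e (2 ^ (3 * bh k0 r X)) N P T0 τ hT00 hNm hP1
  have hint := trf_int κ e N P T τ hTpos
  have hint0 := trf_int κ e N P T0 τ hT00
  rw [htrf, htrf0, ← mul_sub, ← integral_sub hint hint0, norm_mul]
  have hnorm : ∀ t : ℝ, ‖(Real.exp (-(t / (2 * T)) ^ 2) : ℂ) *
      (ex (t * τ) * H43.SI.bp c1 e t * cpx κ N P t) - (Real.exp (-(t / (2 * T0)) ^ 2) : ℂ) *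
      (ex (t * τ) * H43.SI.bp c1 e t * cpx κ N P t)‖ =
      |Real.exp (-(t / (2 * T)) ^ 2) - Real.exp (-(t / (2 * T0)) ^ 2)| *
        (‖H43.SI.bp c1 e t‖ * ‖cpx κ N P t‖) := by
    intro t
    rw [← sub_mul, ← Complex.ofReal_sub, norm_mul, Complex.norm_real, Real.norm_eq_abs, norm_mul,
      norm_mul, norm_ex, one_mul]
  have hintn : Integrable (fun t : ℝ => Real.exp (-(t / (2 * T)) ^ 2) *
      (‖H43.SI.bp c1 e t‖ * ‖cpx κ N P t‖)) := by
    refine (hint.norm).congr (Filter.Eventually.of_forall fun t => ?_)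
    simp only
    rw [norm_mul, Complex.norm_real, Real.norm_of_nonneg (Real.exp_pos _).le, norm_mul,
      norm_mul, norm_ex, one_mul]
  have hTV : T ≤ (M : ℝ) ^ D := by
    refine le_trans ?_ (vv_D hX hM2' hδ0.le)
    refine hT2.trans ?_
    exact mul_le_of_le_one_right hV0.le
      (Real.rpow_le_one_of_one_le_of_nonpos hMR1 (by linarith))
  have hTm : (M : ℝ) * T ≤ (M : ℝ) ^ (D + 1) := by
    rw [pow_succ, mul_comm]
    exact mul_le_mul_of_nonneg_right hTV hMR0.le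
  have hmain := bxe_int T0 T ((M : ℝ) ^ (β / 16)) E M ((M : ℝ) ^ (D + 1)) hT00 hT0
    (Real.rpow_pos_of_pos hMR0 _) hMR0 hTm
    (fun t => ‖H43.SI.bp c1 e t‖ * ‖cpx κ N P t‖)
    (fun t => mul_nonneg (norm_nonneg _) (norm_nonneg _)) hphi hintn
  have hn1 : ‖∫ t : ℝ, ((Real.exp (-(t / (2 * T)) ^ 2) : ℂ) *
      (ex (t * τ) * H43.SI.bp c1 e t * cpx κ N P t) - (Real.exp (-(t / (2 * T0)) ^ 2) : ℂ) *
      (ex (t * τ) * H43.SI.bp c1 e t * cpx κ N P t))‖ ≤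
      ∫ t : ℝ, |Real.exp (-(t / (2 * T)) ^ 2) - Real.exp (-(t / (2 * T0)) ^ 2)| *
        (‖H43.SI.bp c1 e t‖ * ‖cpx κ N P t‖) := by
    refine (norm_integral_le_integral_norm _).trans (le_of_eq ?_)
    exact integral_congr_ae (Filter.Eventually.of_forall hnorm)
  -- the three bounds
  have b1 : ((M : ℝ) ^ (β / 16)) ^ 3 * E / (2 * T0 ^ 2) ≤ (M : ℝ) ^ (1 - η) := by
    have h1 : ((M : ℝ) ^ (β / 16)) ^ 3 * E / (2 * T0 ^ 2) =
        (M : ℝ) ^ (1 - β / 4) / 2 := by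
      have e1 : ((M : ℝ) ^ (β / 16)) ^ 3 = (M : ℝ) ^ (3 * β / 16) := by
        rw [← Real.rpow_natCast, ← Real.rpow_mul hMR0.le]
        congr 1
        push_cast
        ring
      have e2 : T0 ^ 2 = (M : ℝ) ^ (β / 2) := by
        rw [hT0def, ← Real.rpow_natCast, ← Real.rpow_mul hMR0.le]
        congr 1
        push_cast
        ring
      have e3 : (M : ℝ) ^ (3 * β / 16) * (M : ℝ) ^ (1 + β / 16) =
          (M : ℝ) ^ (1 - β / 4) * (M : ℝ) ^ (β / 2) := by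
        rw [← Real.rpow_add hMR0, ← Real.rpow_add hMR0]
        congr 1
        ring
      rw [e1, e2, hEdef, e3]
      have e4 : (M : ℝ) ^ (β / 2) ≠ 0 := (Real.rpow_pos_of_pos hMR0 _).ne'
      field_simp
    rw [h1]
    have h2 : (M : ℝ) ^ (1 - β / 4) ≤ (M : ℝ) ^ (1 - η) :=
      Real.rpow_le_rpow_of_exponent_le hMR1 (by linarith)
    have h3 : 0 ≤ (M : ℝ) ^ (1 - β / 4) := Real.rpow_nonneg hMR0.le _
    linarith
  have b3 : 6 * T * (E * Real.exp (-((M : ℝ) ^ 2 / 8))) ≤ (M : ℝ) ^ (1 - η) := by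
    have h1 : E ≤ (M : ℝ) ^ 2 := by
      rw [hEdef, ← Real.rpow_natCast]
      exact Real.rpow_le_rpow_of_exponent_le hMR1 (by push_cast; linarith)
    have h2 : 6 * T * (E * Real.exp (-((M : ℝ) ^ 2 / 8))) ≤
        6 * (M : ℝ) ^ D * ((M : ℝ) ^ 2 * Real.exp (-((M : ℝ) ^ 2 / 8))) := by
      gcongr
    have h5 := hM4 M hMM4
    rw [Real.rpow_two] at h5
    have h3 : 6 * (M : ℝ) ^ D * ((M : ℝ) ^ 2 * Real.exp (-((M : ℝ) ^ 2 / 8))) =
        6 * (M : ℝ) ^ (D + 2) * Real.exp (-(1 / 8 * (M : ℝ) ^ 2)) := by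
      rw [show -((M : ℝ) ^ 2 / 8) = -(1 / 8 * (M : ℝ) ^ 2) by ring]
      ring
    rw [h3] at h2
    have h4 : (1 : ℝ) ≤ (M : ℝ) ^ (1 - η) := Real.one_le_rpow hMR1 (by linarith)
    exact (h2.trans h5).trans h4
  have b2 : ∫ t in {t : ℝ | (M : ℝ) ^ (β / 16) ≤ |t| ∧ |t| ≤ (M : ℝ) ^ (D + 1)},
      Real.exp (-(t / (2 * T)) ^ 2) * (‖H43.SI.bp c1 e t‖ * ‖cpx κ N P t‖) ≤
      (M : ℝ) ^ (1 - η) := by
    have hlo : vv δ M X * (M : ℝ) ^ (-1 + δ / 8) ≤ (2 : ℝ) ^ (∑ i, e i) := by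
      have h1 : vv δ M X * (M : ℝ) ^ (-1 + δ / 8) ≤ X ^ ((1 : ℝ) / 3) := vv_lo3 hX0.le hMone
      have h2 : X ^ ((1 : ℝ) / 3) * cc k0 r ≤ X := by
        have h3 : (X ^ ((1 : ℝ) / 3)) ^ 3 = X := by
          rw [← Real.rpow_natCast, ← Real.rpow_mul hX0.le]
          norm_num
        have h4 : (cc k0 r : ℝ) ≤ (X ^ ((1 : ℝ) / 3)) ^ 2 := by
          by_contra hc
          push Not at hc
          have h5 : ((X ^ ((1 : ℝ) / 3)) ^ 2) ^ 3 < (cc k0 r : ℝ) ^ 3 :=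
            pow_lt_pow_left₀ hc (by positivity) (by norm_num)
          have h6 : ((X ^ ((1 : ℝ) / 3)) ^ 2) ^ 3 = X ^ 2 := by
            calc ((X ^ ((1 : ℝ) / 3)) ^ 2) ^ 3 = ((X ^ ((1 : ℝ) / 3)) ^ 3) ^ 2 := by ring
              _ = X ^ 2 := by rw [h3]
          rw [h6] at h5
          have h7 : (cc k0 r : ℝ) ^ 3 ≤ ((cc k0 r : ℝ) ^ 2) ^ 2 := by
            rw [← pow_mul]
            exact pow_le_pow_right₀ hC1 (by norm_num)
          have h8 : ((cc k0 r : ℝ) ^ 2) ^ 2 ≤ X ^ 2 :=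
            pow_le_pow_left₀ (by positivity) (by nlinarith [sq_nonneg (cc k0 r : ℝ)]) 2
          linarith
        calc X ^ ((1 : ℝ) / 3) * cc k0 r ≤ X ^ ((1 : ℝ) / 3) * (X ^ ((1 : ℝ) / 3)) ^ 2 :=
              mul_le_mul_of_nonneg_left h4 (by positivity)
          _ = (X ^ ((1 : ℝ) / 3)) ^ 3 := by ring
          _ = X := h3
      have h9 : (cc k0 r : ℝ) * X ^ ((1 : ℝ) / 3) ≤ cc k0 r * 2 ^ (∑ i, e i) := by linarith
      exact h1.trans (le_of_mul_le_mul_left h9 (by linarith))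
    rcases cmb e (vv δ M X * (M : ℝ) ^ (-1 + δ / 8)) (X * (M : ℝ) ^ (1 - δ / 8) / vv δ M X)
      (vv_lo hX hMone hδ0 hδ1) (vv_lohi hX hMone hδ0 hδ1) hlo with ⟨J, hJ1, hJ2⟩ | ⟨i, hi⟩
    · have := hM1 M hMM1 X hX N F P hB e J hS1 hS2 hJ1 hJ2 T hT1 hT2
      refine this.trans ?_
      exact Real.rpow_le_rpow_of_exponent_le hMR1 (by linarith)
    · have hi3 : 3 ≤ (i : ℕ) := by
        by_contra hcon
        push Not at hcon
        have h1 : e i ≤ bh k0 r X := by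
          unfold H43.SI.boxes at he
          rw [Fintype.mem_piFinset] at he
          have h2 := he i
          rw [if_pos hcon, Finset.mem_range] at h2
          omega
        have h2 : X ^ ((2 : ℝ) / 3) < (2 : ℝ) ^ (bh k0 r X) :=
          lt_of_le_of_lt (vv_hi3 hX0 hMone hV0)
            (lt_of_lt_of_le hi (pow_le_pow_right₀ (by norm_num) h1))
        have h3 : (X ^ ((2 : ℝ) / 3)) ^ 3 < ((2 : ℝ) ^ (bh k0 r X)) ^ 3 :=
          pow_lt_pow_left₀ h2 (by positivity) (by norm_num)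
        have h4 : (X ^ ((2 : ℝ) / 3)) ^ 3 = X * X := by
          rw [← Real.rpow_natCast, ← Real.rpow_mul hX0.le]
          norm_num
          ring
        have h5 : ((2 : ℝ) ^ (bh k0 r X)) ^ 3 = 2 ^ (3 * bh k0 r X) := by
          rw [← pow_mul]
          congr 1
          ring
        have h6 := bh_le k0 r X hX1
        rw [h4, h5] at h3
        have h7 : 8 * ((cc k0 r : ℝ) * X) ≤ X * X := by
          have : 8 * (cc k0 r : ℝ) ≤ X := by nlinarith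
          nlinarith
        linarith
      have := hM2 M hMM2 X hX N F P hB e i hi3 hi.le hS2 T hT1 hT2
      refine this.trans ?_
      exact Real.rpow_le_rpow_of_exponent_le hMR1 (by linarith)
  have hY : 0 ≤ (M : ℝ) ^ (1 - η) := Real.rpow_nonneg hMR0.le _
  have hc : ‖((1 / (2 * Real.sqrt Real.pi) : ℝ) : ℂ)‖ ≤ 1 / 3 := by
    rw [Complex.norm_real, Real.norm_of_nonneg (by positivity)]
    exact bxe_sqrtpi
  calc ‖((1 / (2 * Real.sqrt Real.pi) : ℝ) : ℂ)‖ * _ ≤ 1 / 3 * (3 * (M : ℝ) ^ (1 - η)) := by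
        apply mul_le_mul hc _ (norm_nonneg _) (by norm_num)
        linarith
    _ = (M : ℝ) ^ (1 - η) := by ring

end Pool.Agent.H98.PR
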