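import Pool.Agent.H98.PR.Defs

/-!
# [H98 PR CNT] Counting lemma: near coincidences of `n/n'` and `(m/m')^κ`, `κ > 0` real, `ι >= 1`, `ι κ >= 1`

For `A, Q >= 1`, `T > 0`: the number of `(n,n',m,m')`, `1 <= n,n' <= A`, `1 <= m,m' <= Q`, with
`|log(n/n') - κ log(m/m')| <= 1/T` is at most `A Q (1+log A)(1+log Q) + 6 ι (AQ)^2/T`.

PROOF. (a) Spacing. If `x/x' ≠ z/z'` are fractions of natural numbers, `1 <= x,x',z,z' <= R` (`R` real), then
`|log(x/x') - log(z/z')| >= 1/R^2`: let `a = x z'`, `b = x' z` be the different integers, `a > b` say; then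
`log(a/b) >= 1 - b/a = (a-b)/a >= 1/a >= 1/R^2` (`Real.one_sub_inv_le_log_of_pos`).
(b) A finite set of reals in an interval of length `λ` whose different elements have distance `>= d > 0` has at most `1 + λ/d`
elements. (Sort, or map `y -> ⌊(y - y0)/d⌋` with `y0` the minimum: injective into `{0..⌊λ/d⌋}`.)
(c) Fix `g, h >= 1` and count the quadruples with `gcd(n,n') = g`, `gcd(m,m') = h`. Put `R = A/g`, `S = Q/h` (reals, `>= 1` if
there is such a quadruple), `n = g x`, `n' = g x'`, `m = h y`, `m' = h y'` with `(x,x') = (y,y') = 1`, `x,x' <= R`, `y,y' <= S`.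
For fixed `(y,y')` the different coprime pairs `(x,x')` give different fractions `x/x'` whose logarithms are in an interval of
length `2/T`: at most `1 + 2R^2/T` pairs, by (a), (b). So at most `S^2 (1 + 2R^2/T)` quadruples (there are at most `S^2` pairs
`(y,y')`: `⌊S⌋^2`). For fixed `(x,x')` the numbers `κ log(y/y')` are in an interval of length `2/T` and have distances
`>= κ/S^2 >= 1/(ι S^2)`: at most `R^2 (1 + 2ιS^2/T)` quadruples. The minimum of the two is `<= RS + 2 ι R^2 S^2/T`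
(`min(R^2,S^2) <= RS`).
(d) Sum over `1 <= g <= A`, `1 <= h <= Q`: `Σ A/g Σ Q/h <= AQ (1+log A)(1+log Q)` (harmonic sums, `harmonic_le_one_add_log`), and
`2 A^2 Q^2/T (Σ 1/g^2)(Σ 1/h^2) <= 2*4 (AQ)^2/T`?? use `Σ_{g>=1} 1/g^2 <= π^2/6 < 1.65` (`1.65^2 * 2 < 6`; Mathlib
`hasSum_zeta_two`, `Real.pi_lt_d2`; or the elementary `Σ_{g<=A} 1/g^2 <= 1 + 1/4 + 1/9 + 1/3 <= 1.7`, `1.7^2*2 < 6`).
-/

namespace Pool.Agent.H98.PR

open Finset
open Pool.Agent.H98.PK (qd)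

private theorem cnt_sp {α : Type*} (s : Finset α) (f : α → ℝ) {c l d : ℝ} (hd : 0 < d)
    (hl : 0 ≤ l) (h1 : ∀ a ∈ s, |f a - c| ≤ l)
    (h2 : ∀ a ∈ s, ∀ b ∈ s, a ≠ b → d ≤ |f a - f b|) : (s.card : ℝ) ≤ 1 + 2 * l / d := by
  have h3 : s.card ≤ (range (⌊2 * l / d⌋₊ + 1)).card := by
    refine card_le_card_of_injOn (fun a => ⌊(f a - (c - l)) / d⌋₊) ?_ ?_
    · intro a ha
      have h4 := abs_le.1 (h1 a ha)
      rw [mem_coe, mem_range]
      apply Nat.lt_succ_of_le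
      apply Nat.floor_mono
      exact div_le_div_of_nonneg_right (by linarith) hd.le
    · intro a ha b hb hab
      by_contra hne
      have h4 := h2 a ha b hb hne
      have ha' := abs_le.1 (h1 a ha)
      have hb' := abs_le.1 (h1 b hb)
      have hx : 0 ≤ (f a - (c - l)) / d := div_nonneg (by linarith) hd.le
      have hy : 0 ≤ (f b - (c - l)) / d := div_nonneg (by linarith) hd.le
      have hab' : ⌊(f a - (c - l)) / d⌋₊ = ⌊(f b - (c - l)) / d⌋₊ := hab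
      have e1 := Nat.floor_le hx
      have e2 := Nat.lt_floor_add_one ((f a - (c - l)) / d)
      have e3 := Nat.floor_le hy
      have e4 := Nat.lt_floor_add_one ((f b - (c - l)) / d)
      rw [hab'] at e1 e2
      have h5 : |(f a - (c - l)) / d - (f b - (c - l)) / d| < 1 := by
        rw [abs_lt]
        constructor <;> linarith
      have h6 : (f a - (c - l)) / d - (f b - (c - l)) / d = (f a - f b) / d := by ring
      rw [h6, abs_div, abs_of_pos hd, div_lt_one hd] at h5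
      linarith
  rw [card_range] at h3
  have h5 : (s.card : ℝ) ≤ ((⌊2 * l / d⌋₊ + 1 : ℕ) : ℝ) := by exact_mod_cast h3
  rw [Nat.cast_add, Nat.cast_one] at h5
  have h6 := Nat.floor_le (show 0 ≤ 2 * l / d by positivity)
  linarith

private theorem cnt_log1 {a b : ℕ} (hb : 1 ≤ b) (hab : b < a) :
    1 / (a : ℝ) ≤ Real.log a - Real.log b := by
  have hb0 : (0 : ℝ) < b := by exact_mod_cast hb
  have ha0 : (0 : ℝ) < a := by exact_mod_cast (lt_of_lt_of_le (Nat.lt_of_lt_of_le Nat.zero_lt_one hb) hab.le)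
  have h1 := Real.one_sub_inv_le_log_of_pos (div_pos ha0 hb0)
  rw [Real.log_div ha0.ne' hb0.ne', inv_div] at h1
  refine le_trans ?_ h1
  have h2 : (b : ℝ) + 1 ≤ a := by exact_mod_cast hab
  have h3 : (1 : ℝ) - b / a = (a - b) / a := by
    rw [sub_div, div_self ha0.ne']
  rw [h3]
  exact div_le_div_of_nonneg_right (by linarith) ha0.le

private theorem cnt_log {a b : ℕ} {R : ℝ} (ha : 1 ≤ a) (hb : 1 ≤ b) (hab : a ≠ b)
    (haR : (a : ℝ) ≤ R) (hbR : (b : ℝ) ≤ R) : 1 / R ≤ |Real.log a - Real.log b| := by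
  have ha0 : (0 : ℝ) < a := by exact_mod_cast ha
  have hb0 : (0 : ℝ) < b := by exact_mod_cast hb
  rcases lt_or_gt_of_ne hab with h | h
  · have h1 := cnt_log1 ha h
    rw [abs_sub_comm]
    refine le_trans ?_ (h1.trans (le_abs_self _))
    exact one_div_le_one_div_of_le hb0 hbR
  · have h1 := cnt_log1 hb h
    refine le_trans ?_ (h1.trans (le_abs_self _))
    exact one_div_le_one_div_of_le ha0 haR

private theorem cnt_cop {x x' z z' : ℕ} (hx : Nat.Coprime x x') (hz : Nat.Coprime z z')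
    (hx0 : 1 ≤ x) (h : x * z' = x' * z) : x = z ∧ x' = z' := by
  have h1 : x ∣ z := hx.dvd_of_dvd_mul_left (Dvd.intro _ h)
  have h2 : z ∣ x := hz.dvd_of_dvd_mul_right (Dvd.intro_left _ h.symm)
  have h3 : x = z := Nat.dvd_antisymm h1 h2
  refine ⟨h3, ?_⟩
  rw [← h3, mul_comm x' x] at h
  exact (Nat.eq_of_mul_eq_mul_left hx0 h).symm

private theorem cnt_sep {N g : ℕ} (hg : 1 ≤ g) {p p' : ℕ × ℕ}
    (hp : p ∈ Icc 1 N ×ˢ Icc 1 N) (hp' : p' ∈ Icc 1 N ×ˢ Icc 1 N)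
    (h1 : Nat.gcd p.1 p.2 = g) (h2 : Nat.gcd p'.1 p'.2 = g) (hne : p ≠ p') :
    1 / ((N : ℝ) / g) ^ 2 ≤ |(Real.log p.1 - Real.log p.2) - (Real.log p'.1 - Real.log p'.2)| := by
  obtain ⟨x, x', hcx, hx, hx'⟩ := Nat.exists_coprime p.1 p.2
  obtain ⟨z, z', hcz, hz, hz'⟩ := Nat.exists_coprime p'.1 p'.2
  rw [h1] at hx hx'
  rw [h2] at hz hz'
  rw [mem_product, mem_Icc, mem_Icc] at hp hp'
  have hg0 : (0 : ℝ) < g := by exact_mod_cast hg
  have hpos : ∀ y q : ℕ, q = y * g → 1 ≤ q → 1 ≤ y := by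
    intro y q hq h
    rcases Nat.eq_zero_or_pos y with rfl | h'
    · rw [zero_mul] at hq
      omega
    · exact h'
  have hx1 := hpos x _ hx hp.1.1
  have hx1' := hpos x' _ hx' hp.2.1
  have hz1 := hpos z _ hz hp'.1.1
  have hz1' := hpos z' _ hz' hp'.2.1
  have hle : ∀ y q : ℕ, q = y * g → q ≤ N → (y : ℝ) ≤ (N : ℝ) / g := by
    intro y q hq h
    rw [le_div_iff₀ hg0]
    rw [hq] at h
    exact_mod_cast h
  have hxN := hle x _ hx hp.1.2
  have hxN' := hle x' _ hx' hp.2.2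
  have hzN := hle z _ hz hp'.1.2
  have hzN' := hle z' _ hz' hp'.2.2
  have hlog : ∀ y q : ℕ, q = y * g → 1 ≤ y → Real.log q = Real.log y + Real.log g := by
    intro y q hq h
    have hy0 : (0 : ℝ) < y := by exact_mod_cast h
    rw [hq, Nat.cast_mul, Real.log_mul hy0.ne' hg0.ne']
  have hne2 : x * z' ≠ x' * z := by
    intro h
    obtain ⟨e1, e2⟩ := cnt_cop hcx hcz hx1 h
    apply hne
    apply Prod.ext
    · rw [hx, hz, e1]
    · rw [hx', hz', e2]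
  have hx0 : (0 : ℝ) < x := by exact_mod_cast hx1
  have hx0' : (0 : ℝ) < x' := by exact_mod_cast hx1'
  have hz0 : (0 : ℝ) < z := by exact_mod_cast hz1
  have hz0' : (0 : ℝ) < z' := by exact_mod_cast hz1'
  have h3 : (Real.log p.1 - Real.log p.2) - (Real.log p'.1 - Real.log p'.2) =
      Real.log ((x * z' : ℕ) : ℝ) - Real.log ((x' * z : ℕ) : ℝ) := by
    rw [hlog x _ hx hx1, hlog x' _ hx' hx1', hlog z _ hz hz1, hlog z' _ hz' hz1', Nat.cast_mul,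
      Nat.cast_mul, Real.log_mul hx0.ne' hz0'.ne', Real.log_mul hx0'.ne' hz0.ne']
    ring
  rw [h3]
  refine cnt_log (Nat.one_le_iff_ne_zero.2 (Nat.mul_ne_zero (by omega) (by omega)))
    (Nat.one_le_iff_ne_zero.2 (Nat.mul_ne_zero (by omega) (by omega))) hne2 ?_ ?_
  · rw [Nat.cast_mul, sq]
    exact mul_le_mul hxN hzN' hz0'.le (by positivity)
  · rw [Nat.cast_mul, sq]
    exact mul_le_mul hxN' hzN hz0.le (by positivity)

private theorem cnt_pairs (N h : ℕ) (hh : 1 ≤ h) :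
    ((((Icc 1 N ×ˢ Icc 1 N).filter (fun p => Nat.gcd p.1 p.2 = h)).card : ℕ) : ℝ) ≤
      ((N : ℝ) / h) ^ 2 := by
  have h1 : ((Icc 1 N ×ˢ Icc 1 N).filter (fun p => Nat.gcd p.1 p.2 = h)).card ≤
      (Icc 1 (N / h) ×ˢ Icc 1 (N / h)).card := by
    refine card_le_card_of_injOn (fun p => (p.1 / h, p.2 / h)) ?_ ?_
    · intro p hp
      rw [mem_coe, mem_filter, mem_product, mem_Icc, mem_Icc] at hp
      have d1 : h ∣ p.1 := hp.2 ▸ Nat.gcd_dvd_left _ _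
      have d2 : h ∣ p.2 := hp.2 ▸ Nat.gcd_dvd_right _ _
      rw [mem_coe, mem_product, mem_Icc, mem_Icc]
      exact ⟨⟨Nat.div_pos (Nat.le_of_dvd hp.1.1.1 d1) hh, Nat.div_le_div_right hp.1.1.2⟩,
        ⟨Nat.div_pos (Nat.le_of_dvd hp.1.2.1 d2) hh, Nat.div_le_div_right hp.1.2.2⟩⟩
    · intro p hp q hq hpq
      rw [mem_coe, mem_filter] at hp hq
      have d1 : h ∣ p.1 := hp.2 ▸ Nat.gcd_dvd_left _ _
      have d2 : h ∣ p.2 := hp.2 ▸ Nat.gcd_dvd_right _ _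
      have d3 : h ∣ q.1 := hq.2 ▸ Nat.gcd_dvd_left _ _
      have d4 : h ∣ q.2 := hq.2 ▸ Nat.gcd_dvd_right _ _
      have e := Prod.ext_iff.1 hpq
      apply Prod.ext
      · rw [← Nat.div_mul_cancel d1, ← Nat.div_mul_cancel d3]
        have e1 : p.1 / h = q.1 / h := e.1
        rw [e1]
      · rw [← Nat.div_mul_cancel d2, ← Nat.div_mul_cancel d4]
        have e1 : p.2 / h = q.2 / h := e.2
        rw [e1]
  rw [card_product, Nat.card_Icc, Nat.add_sub_cancel] at h1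
  have h2 : ((((Icc 1 N ×ˢ Icc 1 N).filter (fun p => Nat.gcd p.1 p.2 = h)).card : ℕ) : ℝ) ≤
      ((N / h : ℕ) : ℝ) * ((N / h : ℕ) : ℝ) := by exact_mod_cast h1
  refine h2.trans ?_
  have h3 : ((N / h : ℕ) : ℝ) ≤ (N : ℝ) / h := Nat.cast_div_le
  rw [sq]
  exact mul_le_mul h3 h3 (Nat.cast_nonneg _) (by positivity)

private theorem cnt_one {N g : ℕ} (hN : 1 ≤ N) (hg : 1 ≤ g) {T k ι : ℝ} (hT : 0 < T) (hk0 : 0 < k)
    (hι : 0 < ι) (hk : 1 ≤ ι * k)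
    (c : ℝ) (s : Finset (ℕ × ℕ)) (hs : ∀ p ∈ s, p ∈ Icc 1 N ×ˢ Icc 1 N ∧ Nat.gcd p.1 p.2 = g ∧
      |k * (Real.log p.1 - Real.log p.2) - c| ≤ 1 / T) :
    (s.card : ℝ) ≤ 1 + 2 * ι * ((N : ℝ) / g) ^ 2 / T := by
  have hN0 : (0 : ℝ) < N := by exact_mod_cast hN
  have hg0 : (0 : ℝ) < g := by exact_mod_cast hg
  have h1 := cnt_sp s (fun p => k * (Real.log p.1 - Real.log p.2)) (c := c) (l := 1 / T)
    (d := 1 / (ι * ((N : ℝ) / g) ^ 2)) (by positivity) (by positivity) (fun p hp => (hs p hp).2.2)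
    (fun p hp q hq hpq => by
      have h2 := cnt_sep hg (hs p hp).1 (hs q hq).1 (hs p hp).2.1 (hs q hq).2.1 hpq
      have h3 : k * (Real.log p.1 - Real.log p.2) - k * (Real.log q.1 - Real.log q.2) =
          k * ((Real.log p.1 - Real.log p.2) - (Real.log q.1 - Real.log q.2)) := by ring
      show _ ≤ |k * (Real.log p.1 - Real.log p.2) - k * (Real.log q.1 - Real.log q.2)|
      rw [h3, abs_mul, abs_of_nonneg hk0.le]
      calc 1 / (ι * ((N : ℝ) / g) ^ 2) = ι⁻¹ * (1 / ((N : ℝ) / g) ^ 2) := by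
            rw [one_div, mul_inv, one_div]
        _ ≤ k * (1 / ((N : ℝ) / g) ^ 2) := by
            refine mul_le_mul_of_nonneg_right ?_ (by positivity)
            rw [inv_le_iff_one_le_mul₀ hι, mul_comm]
            exact hk
        _ ≤ _ := mul_le_mul_of_nonneg_left h2 hk0.le)
  refine h1.trans (le_of_eq ?_)
  field_simp

private theorem cnt_fib {α β : Type*} [DecidableEq β] (S : Finset α) (f : α → β) (t : Finset β)
    (hf : ∀ x ∈ S, f x ∈ t) {C D : ℝ} (hD : 0 ≤ D) (ht : (t.card : ℝ) ≤ C)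
    (h : ∀ b ∈ t, ((S.filter (fun x => f x = b)).card : ℝ) ≤ D) : (S.card : ℝ) ≤ C * D := by
  rw [card_eq_sum_card_fiberwise hf, Nat.cast_sum]
  refine (sum_le_card_nsmul _ _ _ h).trans ?_
  rw [nsmul_eq_mul]
  exact mul_le_mul_of_nonneg_right ht hD

private theorem cnt_gh {κ ι : ℝ} (hκ : 0 < κ) (hι : 1 ≤ ι) (hικ : 1 ≤ ι * κ) {A Q g h : ℕ} {T : ℝ} (hA : 1 ≤ A) (hQ : 1 ≤ Q) (hT : 0 < T)
    (hg : 1 ≤ g) (hh : 1 ≤ h) :
    ((((qd A Q).filter (fun x => |qx κ x| ≤ 1 / T)).filter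
      (fun x => (Nat.gcd x.1.1 x.1.2, Nat.gcd x.2.1 x.2.2) = (g, h))).card : ℝ) ≤
      ((A : ℝ) / g) * ((Q : ℝ) / h) + 2 * ι * ((A : ℝ) / g) ^ 2 * ((Q : ℝ) / h) ^ 2 / T := by
  obtain ⟨S, hS⟩ : ∃ S : Finset ((ℕ × ℕ) × (ℕ × ℕ)), S =
    ((qd A Q).filter (fun x => |qx κ x| ≤ 1 / T)).filter
      (fun x => (Nat.gcd x.1.1 x.1.2, Nat.gcd x.2.1 x.2.2) = (g, h)) := ⟨_, rfl⟩
  rw [← hS]
  have hm : ∀ x ∈ S, (x.1 ∈ Icc 1 A ×ˢ Icc 1 A ∧ x.2 ∈ Icc 1 Q ×ˢ Icc 1 Q) ∧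
      |qx κ x| ≤ 1 / T ∧ Nat.gcd x.1.1 x.1.2 = g ∧ Nat.gcd x.2.1 x.2.2 = h := by
    intro x hx
    rw [hS, mem_filter, mem_filter] at hx
    have h1 := Prod.ext_iff.1 hx.2
    exact ⟨mem_product.1 hx.1.1, hx.1.2, h1.1, h1.2⟩
  have hg0 : (0 : ℝ) < g := by exact_mod_cast hg
  have hh0 : (0 : ℝ) < h := by exact_mod_cast hh
  have hA0 : (0 : ℝ) < A := by exact_mod_cast hA
  have hQ0 : (0 : ℝ) < Q := by exact_mod_cast hQ
  obtain ⟨U, hU⟩ : ∃ U : ℝ, U = (A : ℝ) / g := ⟨_, rfl⟩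
  obtain ⟨V, hV⟩ : ∃ V : ℝ, V = (Q : ℝ) / h := ⟨_, rfl⟩
  have hU0 : 0 < U := by rw [hU]; positivity
  have hV0 : 0 < V := by rw [hV]; positivity
  have hι0 : 0 < ι := by linarith
  have h1 : (S.card : ℝ) ≤ V ^ 2 * (1 + 2 * ι * U ^ 2 / T) := by
    refine cnt_fib S Prod.snd
      ((Icc 1 Q ×ˢ Icc 1 Q).filter (fun p => Nat.gcd p.1 p.2 = h)) ?_ (by positivity) ?_ ?_
    · intro x hx
      have := hm x hx
      exact mem_filter.2 ⟨this.1.2, this.2.2.2⟩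
    · rw [hV]
      exact cnt_pairs Q h hh
    · intro b _
      have h2 : (S.filter (fun x => x.2 = b)).card =
          ((S.filter (fun x => x.2 = b)).image Prod.fst).card := by
        rw [card_image_of_injOn]
        intro x hx y hy hxy
        rw [mem_coe, mem_filter] at hx hy
        exact Prod.ext hxy (hx.2.trans hy.2.symm)
      rw [h2, hU]
      refine cnt_one hA hg hT one_pos hι0 (by linarith) (κ * (Real.log b.1 - Real.log b.2)) _ ?_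
      intro p hp
      obtain ⟨x, hx, rfl⟩ := mem_image.1 hp
      rw [mem_filter] at hx
      have h3 := hm x hx.1
      refine ⟨h3.1.1, h3.2.2.1, ?_⟩
      rw [← hx.2, one_mul]
      exact h3.2.1
  have h2 : (S.card : ℝ) ≤ U ^ 2 * (1 + 2 * ι * V ^ 2 / T) := by
    refine cnt_fib S Prod.fst
      ((Icc 1 A ×ˢ Icc 1 A).filter (fun p => Nat.gcd p.1 p.2 = g)) ?_ (by positivity) ?_ ?_
    · intro x hx
      have := hm x hx
      exact mem_filter.2 ⟨this.1.1, this.2.2.1⟩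
    · rw [hU]
      exact cnt_pairs A g hg
    · intro b _
      have h2 : (S.filter (fun x => x.1 = b)).card =
          ((S.filter (fun x => x.1 = b)).image Prod.snd).card := by
        rw [card_image_of_injOn]
        intro x hx y hy hxy
        rw [mem_coe, mem_filter] at hx hy
        exact Prod.ext (hx.2.trans hy.2.symm) hxy
      rw [h2, hV]
      refine cnt_one (k := κ) hQ hh hT hκ hι0 hικ (Real.log b.1 - Real.log b.2) _ ?_
      intro p hp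
      obtain ⟨x, hx, rfl⟩ := mem_image.1 hp
      rw [mem_filter] at hx
      have h3 := hm x hx.1
      refine ⟨h3.1.2, h3.2.2.2, ?_⟩
      rw [← hx.2, abs_sub_comm]
      exact h3.2.1
  rw [← hU, ← hV]
  have h3 : U ^ 2 * (1 + 2 * ι * V ^ 2 / T) = U ^ 2 + 2 * ι * U ^ 2 * V ^ 2 / T := by ring
  have h4 : V ^ 2 * (1 + 2 * ι * U ^ 2 / T) = V ^ 2 + 2 * ι * U ^ 2 * V ^ 2 / T := by ring
  rw [h4] at h1
  rw [h3] at h2
  rcases le_total U V with h5 | h5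
  · have h6 : U ^ 2 ≤ U * V := by nlinarith
    linarith
  · have h6 : V ^ 2 ≤ U * V := by nlinarith
    linarith

private theorem cnt_h1 (N : ℕ) : ∑ g ∈ Icc 1 N, (1 : ℝ) / g ≤ 1 + Real.log N := by
  have h1 := harmonic_le_one_add_log N
  rw [harmonic_eq_sum_Icc] at h1
  push_cast at h1
  refine le_trans (le_of_eq ?_) h1
  exact sum_congr rfl fun g _ => one_div _

private theorem cnt_h2 (N : ℕ) : ∑ g ∈ Icc 1 N, (1 : ℝ) / (g : ℝ) ^ 2 ≤ 17 / 10 := by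
  have h1 := sum_le_hasSum (Icc 1 N) (fun i _ => by positivity) hasSum_zeta_two
  refine h1.trans ?_
  have h2 := Real.pi_lt_d2
  have h3 := Real.pi_pos
  nlinarith

theorem cnt (κ ι : ℝ) (hκ : 0 < κ) (hι : 1 ≤ ι) (hικ : 1 ≤ ι * κ) (A Q : ℕ) (T : ℝ) (hA : 1 ≤ A) (hQ : 1 ≤ Q) (hT : 0 < T) :
    (((qd A Q).filter (fun x => |qx κ x| ≤ 1 / T)).card : ℝ) ≤
      A * Q * (1 + Real.log A) * (1 + Real.log Q) + 6 * ι * (A * Q) ^ 2 / T := by
  have hA0 : (0 : ℝ) < A := by exact_mod_cast hA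
  have hQ0 : (0 : ℝ) < Q := by exact_mod_cast hQ
  have hmaps : ∀ x ∈ (qd A Q).filter (fun x => |qx κ x| ≤ 1 / T),
      (Nat.gcd x.1.1 x.1.2, Nat.gcd x.2.1 x.2.2) ∈ Icc 1 A ×ˢ Icc 1 Q := by
    intro x hx
    rw [mem_filter, qd, mem_product, mem_product, mem_product, mem_Icc, mem_Icc, mem_Icc,
      mem_Icc] at hx
    rw [mem_product, mem_Icc, mem_Icc]
    obtain ⟨⟨⟨h1, h2⟩, ⟨h3, h4⟩⟩, _⟩ := hx
    exact ⟨⟨Nat.gcd_pos_of_pos_left _ h1.1, (Nat.gcd_le_left _ h1.1).trans h1.2⟩,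
      ⟨Nat.gcd_pos_of_pos_left _ h3.1, (Nat.gcd_le_left _ h3.1).trans h3.2⟩⟩
  rw [card_eq_sum_card_fiberwise hmaps, Nat.cast_sum]
  have h1 : ∀ p ∈ Icc 1 A ×ˢ Icc 1 Q,
      ((((qd A Q).filter (fun x => |qx κ x| ≤ 1 / T)).filter
        (fun x => (Nat.gcd x.1.1 x.1.2, Nat.gcd x.2.1 x.2.2) = p)).card : ℝ) ≤
      ((A : ℝ) * Q) * ((1 / (p.1 : ℝ)) * (1 / (p.2 : ℝ))) +
        (2 * ι * ((A : ℝ) * Q) ^ 2 / T) * ((1 / (p.1 : ℝ) ^ 2) * (1 / (p.2 : ℝ) ^ 2)) := by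
    intro p hp
    rw [mem_product, mem_Icc, mem_Icc] at hp
    refine (cnt_gh hκ hι hικ hA hQ hT hp.1.1 hp.2.1).trans (le_of_eq ?_)
    have hg0 : (0 : ℝ) < (p.1 : ℝ) := by exact_mod_cast hp.1.1
    have hh0 : (0 : ℝ) < (p.2 : ℝ) := by exact_mod_cast hp.2.1
    field_simp
  refine (sum_le_sum h1).trans ?_
  rw [sum_add_distrib, ← mul_sum, ← mul_sum, sum_product, sum_product]
  have h2 : ∑ g ∈ Icc 1 A, ∑ h ∈ Icc 1 Q, (1 / (g : ℝ)) * (1 / (h : ℝ)) =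
      (∑ g ∈ Icc 1 A, 1 / (g : ℝ)) * ∑ h ∈ Icc 1 Q, 1 / (h : ℝ) := by
    rw [sum_mul_sum]
  have h3 : ∑ g ∈ Icc 1 A, ∑ h ∈ Icc 1 Q, (1 / (g : ℝ) ^ 2) * (1 / (h : ℝ) ^ 2) =
      (∑ g ∈ Icc 1 A, 1 / (g : ℝ) ^ 2) * ∑ h ∈ Icc 1 Q, 1 / (h : ℝ) ^ 2 := by
    rw [sum_mul_sum]
  rw [h2, h3]
  have a1 := cnt_h1 A
  have a2 := cnt_h1 Q
  have b1 := cnt_h2 A
  have b2 := cnt_h2 Q
  have n1 : 0 ≤ ∑ g ∈ Icc 1 A, (1 : ℝ) / g := sum_nonneg fun _ _ => by positivity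
  have n2 : 0 ≤ ∑ g ∈ Icc 1 Q, (1 : ℝ) / g := sum_nonneg fun _ _ => by positivity
  have n3 : 0 ≤ ∑ g ∈ Icc 1 A, (1 : ℝ) / (g : ℝ) ^ 2 := sum_nonneg fun _ _ => by positivity
  have n4 : 0 ≤ ∑ g ∈ Icc 1 Q, (1 : ℝ) / (g : ℝ) ^ 2 := sum_nonneg fun _ _ => by positivity
  have c1 := mul_le_mul a1 a2 n2 (n1.trans a1)
  have c2 := mul_le_mul b1 b2 n4 (by norm_num)
  have e1 : 0 ≤ (A : ℝ) * Q := by positivity
  have hι0 : 0 < ι := by linarith
  have e2 : 0 ≤ ι * (((A : ℝ) * Q) ^ 2 / T) := by positivity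
  have d1 := mul_le_mul_of_nonneg_left c1 e1
  have d2 := mul_le_mul_of_nonneg_left c2 e2
  have f1 : 2 * ι * ((A : ℝ) * Q) ^ 2 / T = 2 * (ι * (((A : ℝ) * Q) ^ 2 / T)) := by ring
  have f2 : 6 * ι * ((A : ℝ) * Q) ^ 2 / T = 6 * (ι * (((A : ℝ) * Q) ^ 2 / T)) := by ring
  rw [f1, f2]
  nlinarith

end Pool.Agent.H98.PR
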