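import Pool.Agent.H98.PK.Triv

/-!
# Primes behind the points `λ m^κ` (H98/PR): definitions and plan

Real exponent version of H98/PK, for MP_31d0eb_nt. `κ > 0` real, `λ > 0` real, `X = λ M^κ ∈ [M^(1+δ), M^A]`. THEOREM (`Fin`): for
`M^ε max((X/M)^(1/2), X^(2/3)/M) <= H <= X` at least `c M` of the `m <= M` have at least `c H/log M` primes in `(λ m^κ, λ m^κ + H]`.

NOTATION. `L = log M`; all constants may depend on `κ, k0, A, r, β, δ` (not on `X`, `λ`); `40 β <= δ <= 1`. Boxes `Bx β M N F P`, tuples `tup`, numbers `mv` as in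
PK. `V = vv δ M X = min((X M^(1-δ/2))^(1/2), X^(1/3) M^(1-δ/8))`, `C1 = cc k0 r = 2^(k0(r+2)+9)`, Heath-Brown's identity up to `Nm = 2^(3b)`, `b = bh k0 r X`,
`C1 X <= Nm <= 8 C1 X`. Scales `T <= V M^(-δ/4)`. Shift `τ ∈ [log λ, log λ + 1]`, `log λ = log X - κ log M = tl κ M X`.
The modules Gau, Coj, Smo, Gre, Bct, Mul of PK are used as they are. Boxes `e` with `2^S` outside `[X/C1, C1 X]` are far away (`Far`). For the others either some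
`J` has `lo = V M^(-1+δ/8) <= 2^(S_J) <= hi = X M^(1-δ/8)/V` (`Tii`) or a smooth factor is `> hi >= V M^(3δ/8)` (`Ti`); `lo^2 <= hi` because
`V^3 <= X M^(3-3δ/8)`.
-/

namespace Pool.Agent.H98.PR

open Finset
open Pool.Agent.H98.PK (ex tup mv Bx c1 qd)

/-- `Σ_{p ∈ P} p^(iκt)` -/
noncomputable def cp (κ : ℝ) (P : Finset ℕ) (t : ℝ) : ℂ := ∑ p ∈ P, ex (κ * t * Real.log p)

/-- the Dirichlet polynomial of the numbers `m` of a box at `-iκt` -/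
noncomputable def cpx (κ : ℝ) {r : ℕ} (N : ℕ) (P : Fin r → Finset ℕ) (t : ℝ) : ℂ :=
  cp κ (Ioc N (2 * N)) t * ∏ i, cp κ (P i) t

/-- `Σ_{n<=Nm} f(n)/n Σ_m exp(-(T(log n - κ log m - τ))^2)` -/
noncomputable def W (κ : ℝ) {r : ℕ} (f : ℕ → ℂ) (Nm N : ℕ) (P : Fin r → Finset ℕ) (T τ : ℝ) : ℂ :=
  ∑ n ∈ Icc 1 Nm, f n / n *
    ∑ x ∈ tup N P, (Real.exp (-(T * (Real.log n - κ * Real.log (mv x) - τ)) ^ 2) : ℂ)

/-- the same for real `f` -/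
noncomputable def WR (κ : ℝ) {r : ℕ} (f : ℕ → ℝ) (Nm N : ℕ) (P : Fin r → Finset ℕ) (T τ : ℝ) : ℝ :=
  ∑ n ∈ Icc 1 Nm, f n / n *
    ∑ x ∈ tup N P, Real.exp (-(T * (Real.log n - κ * Real.log (mv x) - τ)) ^ 2)

theorem W_real (κ : ℝ) {r : ℕ} (f : ℕ → ℝ) (Nm N : ℕ) (P : Fin r → Finset ℕ) (T τ : ℝ) :
    W κ (fun n => (f n : ℂ)) Nm N P T τ = (WR κ f Nm N P T τ : ℂ) := by
  unfold W WR
  push_cast
  rfl

/-- `log(n/n') - κ log(m/m')` -/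
noncomputable def qx (κ : ℝ) (x : (ℕ × ℕ) × (ℕ × ℕ)) : ℝ :=
  (Real.log x.1.1 - Real.log x.1.2) - κ * (Real.log x.2.1 - Real.log x.2.2)

/-- the constant `C1` -/
def cc (k0 r : ℕ) : ℕ := 2 ^ (k0 * (r + 2) + 9)

/-- the parameters -/
structure Px (κ δ : ℝ) (k0 A M : ℕ) (X : ℝ) : Prop where
  k1 : 0 < κ
  k2 : κ ≤ k0
  x1 : (M : ℝ) ^ (1 + δ) ≤ X
  x2 : X ≤ (M : ℝ) ^ A

/-- the size of the two groups -/
noncomputable def vv (δ : ℝ) (M : ℕ) (X : ℝ) : ℝ :=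
  min (Real.sqrt (X * (M : ℝ) ^ (1 - δ / 2))) (X ^ ((1 : ℝ) / 3) * (M : ℝ) ^ (1 - δ / 8))

/-- the exponent in Heath-Brown's identity -/
noncomputable def bh (k0 r : ℕ) (X : ℝ) : ℕ := ⌈Real.logb 2 ((cc k0 r : ℝ) * X) / 3⌉₊

/-- `log λ` -/
noncomputable def tl (κ : ℝ) (M : ℕ) (X : ℝ) : ℝ := Real.log X - κ * Real.log M

/-- the main range of the frequencies -/
def rng (β : ℝ) (A M : ℕ) : Set ℝ := {t : ℝ | (M : ℝ) ^ (β / 16) ≤ |t| ∧ |t| ≤ (M : ℝ) ^ (A + 1)}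

end Pool.Agent.H98.PR
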