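import Pool.Agent.H98.PR.Bxe
import Pool.Agent.H98.PR.Far

/-!
# [H98 PR MPR] Main proposition: `Λ` at the scales `T` and `T0 = M^(β/4)`

PROOF as in PK/Mpr: Heath-Brown's identity (`SI.hb`) for `n <= Nm = 2^(3b)`, `b = bh k0 r X`, `bxe` and `far`, `#boxes <= (3b+1)^6`,
`3b <= logb 2 (C1 X) + 3 <= C (1 + log M)`.
-/

namespace Pool.Agent.H98.PR

open Finset
open Pool.Agent.H98.PK (ex tup mv Bx c1 qd)

private theorem mpr_c1 (n : ℕ) : c1 n = 1 := by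
  apply MulChar.one_apply
  rw [show (n : ZMod 1) = 1 from Subsingleton.elim _ _]
  exact isUnit_one

private theorem mpr_lin (κ : ℝ) {r : ℕ} (b N : ℕ) (P : Fin r → Finset ℕ) (T τ : ℝ) :
    ((WR κ ArithmeticFunction.vonMangoldt (2 ^ (3 * b)) N P T τ : ℝ) : ℂ) =
      ∑ e ∈ H43.SI.boxes b (3 * b), H43.SI.wt e *
        W κ (fun n => H43.SI.bf c1 e n) (2 ^ (3 * b)) N P T τ := by
  rw [← W_real]
  unfold W
  have h1 : ∀ n ∈ Icc 1 (2 ^ (3 * b)), ((ArithmeticFunction.vonMangoldt n : ℝ) : ℂ) =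
      ∑ e ∈ H43.SI.boxes b (3 * b), H43.SI.wt e * H43.SI.bf c1 e n := by
    intro n hn
    rw [Finset.mem_Icc] at hn
    have h := H43.SI.hb c1 b (3 * b) n hn.1 hn.2 hn.2
    rw [mpr_c1, mul_one] at h
    exact h
  let G : ℕ → ℂ := fun n => ∑ x ∈ tup N P,
    (Real.exp (-(T * (Real.log n - κ * Real.log (mv x) - τ)) ^ 2) : ℂ)
  have h2 : ∀ n ∈ Icc 1 (2 ^ (3 * b)), ((ArithmeticFunction.vonMangoldt n : ℝ) : ℂ) / n * G n =
      ∑ e ∈ H43.SI.boxes b (3 * b), H43.SI.wt e * (H43.SI.bf c1 e n / n * G n) := by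
    intro n hn
    rw [h1 n hn, Finset.sum_div, Finset.sum_mul]
    refine Finset.sum_congr rfl fun e _ => ?_
    ring
  calc _ = ∑ n ∈ Icc 1 (2 ^ (3 * b)), ((ArithmeticFunction.vonMangoldt n : ℝ) : ℂ) / n * G n := rfl
    _ = ∑ n ∈ Icc 1 (2 ^ (3 * b)), ∑ e ∈ H43.SI.boxes b (3 * b),
        H43.SI.wt e * (H43.SI.bf c1 e n / n * G n) := Finset.sum_congr rfl h2
    _ = ∑ e ∈ H43.SI.boxes b (3 * b), ∑ n ∈ Icc 1 (2 ^ (3 * b)),
        H43.SI.wt e * (H43.SI.bf c1 e n / n * G n) := Finset.sum_comm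
    _ = _ := by
        refine Finset.sum_congr rfl fun e _ => ?_
        rw [← Finset.mul_sum]

private theorem mpr_wt (e : Fin 6 → ℕ) : ‖H43.SI.wt e‖ ≤ 7 := by
  unfold H43.SI.wt
  refine (norm_add_le _ _).trans ?_
  refine (add_le_add_left (norm_add_le _ _) _).trans ?_
  have h1 : ‖(if e 2 = 0 ∧ e 5 = 0 then (-3 : ℂ) else 0)‖ ≤ 3 := by
    split_ifs
    · simp
    · simp
  have h2 : ‖(if e 1 = 0 ∧ e 2 = 0 ∧ e 4 = 0 ∧ e 5 = 0 then (3 : ℂ) else 0)‖ ≤ 3 := by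
    split_ifs
    · simp
    · simp
  have h3 : ‖(1 : ℂ)‖ = 1 := norm_one
  linarith

private theorem mpr_card (b : ℕ) : (H43.SI.boxes b (3 * b)).card ≤ (3 * b + 1) ^ 6 := by
  unfold H43.SI.boxes
  rw [Fintype.card_piFinset]
  calc _ ≤ ∏ _i : Fin 6, (3 * b + 1) := by
        refine Finset.prod_le_prod' fun i _ => ?_
        split_ifs
        · rw [Finset.card_range]; omega
        · rw [Finset.card_range]
    _ = _ := by simp

theorem mpr (κ β δ : ℝ) (k0 D r : ℕ) (hκ : 0 < κ) (hβ : 0 < β) (hδ : 40 * β ≤ δ) (hδ1 : δ ≤ 1) :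
    ∃ η : ℝ, 0 < η ∧ ∃ M1 : ℕ, ∀ M : ℕ, M1 ≤ M → ∀ X : ℝ, Px κ δ k0 D M X →
    ∀ (N : ℕ) (F : Fin r → ℕ) (P : Fin r → Finset ℕ), Bx β M N F P →
    ∀ T : ℝ, (M : ℝ) ^ (β / 4) ≤ T → T ≤ vv δ M X * (M : ℝ) ^ (-(δ / 4)) →
    ∀ τ : ℝ, tl κ M X ≤ τ → τ ≤ tl κ M X + 1 →
    |T * WR κ ArithmeticFunction.vonMangoldt (2 ^ (3 * bh k0 r X)) N P T τ -
      (M : ℝ) ^ (β / 4) *
        WR κ ArithmeticFunction.vonMangoldt (2 ^ (3 * bh k0 r X)) N P ((M : ℝ) ^ (β / 4)) τ| ≤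
      (M : ℝ) ^ (1 - η) := by
  have hδ0 : 0 < δ := by linarith
  obtain ⟨η1, hη1, M1, h1⟩ := bxe κ β δ k0 D r hκ hβ hδ hδ1
  obtain ⟨M2, h2⟩ := far κ β δ k0 D r hβ hδ0.le
  set η' : ℝ := min η1 (1 / 2) with hη'
  have hη'0 : 0 < η' := lt_min hη1 (by norm_num)
  have hη'1 : η' ≤ η1 := min_le_left _ _
  have hη'2 : η' ≤ 1 / 2 := min_le_right _ _
  have hlc : 0 ≤ Real.log (cc k0 r) := Real.log_nonneg (cc_pos k0 r)
  have hD0 : (0 : ℝ) ≤ D := Nat.cast_nonneg D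
  obtain ⟨C, hC⟩ : ∃ C : ℝ, C = 4 + 2 * Real.log (cc k0 r) + 2 * D := ⟨_, rfl⟩
  have hC0 : 0 < C := by
    rw [hC]
    linarith
  obtain ⟨M3, h3⟩ := log_pow_le (21 * C ^ 6) (η' / 2) 6 (by positivity) (by positivity)
  refine ⟨η' / 2, by positivity, M1 + M2 + M3 + 2, fun M hM X hX N F P hB T hT1 hT2 τ hτ0 hτ1 => ?_⟩
  have hMM1 : M1 ≤ M := by omega
  have hMM2 : M2 ≤ M := by omega
  have hMM3 : M3 ≤ M := by omega
  have hM1 : (1 : ℝ) ≤ M := by exact_mod_cast (by omega : 1 ≤ M)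
  have hM0 : (0 : ℝ) < M := by linarith
  have hX1 : 1 ≤ X := hX.X1 (by omega) hδ0.le
  have hY : (1 : ℝ) ≤ (M : ℝ) ^ (1 - η') := Real.one_le_rpow hM1 (by linarith)
  have hl : 0 ≤ Real.log M := Real.log_nonneg hM1
  -- the single boxes
  have key : ∀ e ∈ H43.SI.boxes (bh k0 r X) (3 * bh k0 r X),
      ‖H43.SI.wt e * ((T : ℂ) * W κ (fun n => H43.SI.bf c1 e n) (2 ^ (3 * bh k0 r X)) N P T τ -
      (((M : ℝ) ^ (β / 4) : ℝ) : ℂ) *
        W κ (fun n => H43.SI.bf c1 e n) (2 ^ (3 * bh k0 r X)) N P ((M : ℝ) ^ (β / 4)) τ)‖ ≤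
      21 * (M : ℝ) ^ (1 - η') := by
    intro e he
    have hk : ‖(T : ℂ) * W κ (fun n => H43.SI.bf c1 e n) (2 ^ (3 * bh k0 r X)) N P T τ -
      (((M : ℝ) ^ (β / 4) : ℝ) : ℂ) *
        W κ (fun n => H43.SI.bf c1 e n) (2 ^ (3 * bh k0 r X)) N P ((M : ℝ) ^ (β / 4)) τ‖ ≤
        3 * (M : ℝ) ^ (1 - η') := by
      by_cases hc : X ≤ cc k0 r * 2 ^ (∑ i, e i) ∧ 2 ^ (∑ i, e i) ≤ cc k0 r * X
      · refine (h1 M hMM1 X hX N F P hB e he hc.1 hc.2 T hT1 hT2 τ).trans ?_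
        have : (M : ℝ) ^ (1 - η1) ≤ (M : ℝ) ^ (1 - η') :=
          Real.rpow_le_rpow_of_exponent_le hM1 (by linarith)
        linarith
      · have ha := h2 M hMM2 X hX N F P hB e he hc T hT1 τ hτ0 hτ1
        have hb := h2 M hMM2 X hX N F P hB e he hc ((M : ℝ) ^ (β / 4)) le_rfl τ hτ0 hτ1
        refine (norm_sub_le _ _).trans ?_
        linarith
    rw [norm_mul]
    calc _ ≤ 7 * (3 * (M : ℝ) ^ (1 - η')) :=
          mul_le_mul (mpr_wt e) hk (norm_nonneg _) (by norm_num)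
      _ = _ := by ring
  have hsum : ((T * WR κ ArithmeticFunction.vonMangoldt (2 ^ (3 * bh k0 r X)) N P T τ -
      (M : ℝ) ^ (β / 4) *
        WR κ ArithmeticFunction.vonMangoldt (2 ^ (3 * bh k0 r X)) N P ((M : ℝ) ^ (β / 4)) τ : ℝ) : ℂ) =
      ∑ e ∈ H43.SI.boxes (bh k0 r X) (3 * bh k0 r X),
      H43.SI.wt e * ((T : ℂ) * W κ (fun n => H43.SI.bf c1 e n) (2 ^ (3 * bh k0 r X)) N P T τ -
      (((M : ℝ) ^ (β / 4) : ℝ) : ℂ) *
        W κ (fun n => H43.SI.bf c1 e n) (2 ^ (3 * bh k0 r X)) N P ((M : ℝ) ^ (β / 4)) τ) := by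
    rw [Complex.ofReal_sub, Complex.ofReal_mul, Complex.ofReal_mul, mpr_lin, mpr_lin,
      Finset.mul_sum, Finset.mul_sum, ← Finset.sum_sub_distrib]
    refine Finset.sum_congr rfl fun e _ => ?_
    ring
  have hb : 3 * (bh k0 r X : ℝ) + 1 ≤ C * (1 + Real.log M) := by
    have h4 : (2 : ℝ) ^ (3 * bh k0 r X) ≤ 8 * ((cc k0 r : ℝ) * X) := bh_le k0 r X hX1
    have h5 := Real.log_le_log (by positivity) h4
    have hc0 : (0 : ℝ) < cc k0 r := by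
      have := cc_pos k0 r
      linarith
    have h8 : Real.log 8 = 3 * Real.log 2 := by
      rw [show (8 : ℝ) = 2 ^ 3 by norm_num, Real.log_pow]
      norm_num
    rw [Real.log_pow, Real.log_mul (by norm_num) (by positivity), Real.log_mul hc0.ne' (by linarith),
      h8] at h5
    push_cast at h5
    have h6 := Real.log_le_log (by linarith) hX.x2
    rw [Real.log_pow] at h6
    have h7 := Real.log_two_gt_d9
    have h9 : (3 * (bh k0 r X : ℝ) - 3) * Real.log 2 ≤ Real.log (cc k0 r) + D * Real.log M := by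
      linarith
    have h10 : 3 * (bh k0 r X : ℝ) - 3 ≤ 2 * (Real.log (cc k0 r) + D * Real.log M) := by
      by_contra hcon
      push Not at hcon
      have h11 : 0 ≤ Real.log (cc k0 r) + D * Real.log M := by positivity
      nlinarith
    rw [hC]
    have h12 : 0 ≤ Real.log (cc k0 r) * Real.log M := by positivity
    have h13 : 0 ≤ (D : ℝ) * Real.log M := by positivity
    nlinarith
  have hcard : ((H43.SI.boxes (bh k0 r X) (3 * bh k0 r X)).card : ℝ) ≤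
      C ^ 6 * (1 + Real.log M) ^ 6 := by
    have c1' : ((H43.SI.boxes (bh k0 r X) (3 * bh k0 r X)).card : ℝ) ≤
        (3 * (bh k0 r X : ℝ) + 1) ^ 6 := by exact_mod_cast mpr_card (bh k0 r X)
    rw [← mul_pow]
    exact c1'.trans (pow_le_pow_left₀ (by positivity) hb 6)
  rw [← Real.norm_eq_abs, ← Complex.norm_real, hsum]
  calc _ ≤ ∑ e ∈ H43.SI.boxes (bh k0 r X) (3 * bh k0 r X), 21 * (M : ℝ) ^ (1 - η') :=
        norm_sum_le_of_le _ key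
    _ = ((H43.SI.boxes (bh k0 r X) (3 * bh k0 r X)).card : ℝ) * (21 * (M : ℝ) ^ (1 - η')) := by
        rw [Finset.sum_const, nsmul_eq_mul]
    _ ≤ (C ^ 6 * (1 + Real.log M) ^ 6) * (21 * (M : ℝ) ^ (1 - η')) :=
        mul_le_mul_of_nonneg_right hcard (by positivity)
    _ = (21 * C ^ 6 * (1 + Real.log M) ^ 6) * (M : ℝ) ^ (1 - η') := by ring
    _ ≤ (M : ℝ) ^ (η' / 2) * (M : ℝ) ^ (1 - η') :=
        mul_le_mul_of_nonneg_right (h3 M hMM3) (by positivity)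
    _ = (M : ℝ) ^ (1 - η' / 2) := by
        rw [← Real.rpow_add hM0]
        congr 1
        ring

end Pool.Agent.H98.PR
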